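import Mathlib

namespace Pool.Agent.Helper99.Exotic

lemma comb_odd {F : Type*} [AddCommGroup F] (h2 : ∀ x : F, x + x = 0 → x = 0) (v : Fin 5 → F)
    (HS : ∀ i j k l : Fin 5, i ≠ j → k ≠ l → v i ≠ v k → v i ≠ v l → v j ≠ v k → v j ≠ v l →
      v i + v j = v k + v l)
    (HA : ∀ i j k l : Fin 5, i ≠ j → i ≠ k → j ≠ k → i ≠ l → j ≠ l → k ≠ l →
      v i = v j → v j = v k → v l = v i) : ∀ k, v k = v 0 := by
  have H3 : ∀ i j k : Fin 5, i ≠ j → i ≠ k → j ≠ k → v i = v j → v j = v k →
      ∀ m, v m = v 0 := by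
    intro i j k hij hik hjk e1 e2
    have key : ∀ m, v m = v i := by
      intro m
      by_cases hi : m = i
      · rw [hi]
      by_cases hj : m = j
      · rw [hj, e1]
      by_cases hk : m = k
      · rw [hk, e1, e2]
      exact HA i j k m hij hik hjk (Ne.symm hi) (Ne.symm hj) (Ne.symm hk) e1 e2
    intro m
    rw [key m, key 0]
  have H4 : ∀ i j k l : Fin 5, i ≠ j → k ≠ l → i ≠ k → i ≠ l → j ≠ k → j ≠ l →
      v i = v j → v k = v l → ∀ m, v m = v 0 := by
    intro i j k l hij hkl hik hil hjk hjl e1 e2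
    by_cases e : v i = v k
    · exact H3 i j k hij hik hjk e1 (by rw [← e1, e])
    · exfalso
      have := HS i j k l hij hkl e (by rwa [← e2]) (by rwa [← e1]) (by rwa [← e1, ← e2])
      rw [← e1, ← e2] at this
      apply e
      have h3 : (v i - v k) + (v i - v k) = 0 := by
        have : v i + v i - (v k + v k) = 0 := sub_eq_zero.2 this
        rw [← this]; abel
      exact sub_eq_zero.1 (h2 _ h3)
  have HP : ∀ i j k l : Fin 5, i ≠ j → k ≠ l → ¬ (i = k ∧ j = l) → ¬ (i = l ∧ j = k) →
      v i = v j → v k = v l → ∀ m, v m = v 0 := by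
    intro i j k l hij hkl n1 n2 e1 e2
    by_cases a1 : i = k
    · subst a1
      exact H3 j i l (Ne.symm hij) (fun h => n1 ⟨rfl, h⟩) hkl e1.symm e2
    by_cases a2 : i = l
    · subst a2
      exact H3 j i k (Ne.symm hij) (fun h => n2 ⟨rfl, h⟩) (Ne.symm hkl) e1.symm e2.symm
    by_cases a3 : j = k
    · subst a3
      exact H3 i j l hij a2 hkl e1 e2
    by_cases a4 : j = l
    · subst a4
      exact H3 i j k hij a1 (Ne.symm hkl) e1 e2.symm
    exact H4 i j k l hij hkl a1 a2 a3 a4 e1 e2
  have HQ : ∀ i j k l : Fin 5, i ≠ j → i ≠ k → i ≠ l → j ≠ k → j ≠ l → k ≠ l →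
      v i = v j ∨ v i = v k ∨ v i = v l ∨ v j = v k ∨ v j = v l ∨ v k = v l := by
    intro i j k l hij hik hil hjk hjl hkl
    by_contra hcon
    push Not at hcon
    obtain ⟨c1, c2, c3, c4, c5, c6⟩ := hcon
    have s1 := HS i j k l hij hkl c2 c3 c4 c5
    have s2 := HS i k j l hik hjl c1 c3 (Ne.symm c4) c6
    apply c4
    have h3 : (v j - v k) + (v j - v k) = 0 := by
      have a1 : v i + v j - (v k + v l) = 0 := sub_eq_zero.2 s1
      have a2 : v i + v k - (v j + v l) = 0 := sub_eq_zero.2 s2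
      have : (v i + v j - (v k + v l)) - (v i + v k - (v j + v l)) = 0 := by rw [a1, a2, sub_zero]
      rw [← this]; abel
    exact sub_eq_zero.1 (h2 _ h3)
  have Q0 := HQ 0 1 2 3 (by decide) (by decide) (by decide) (by decide) (by decide) (by decide)
  have Q1 := HQ 1 2 3 4 (by decide) (by decide) (by decide) (by decide) (by decide) (by decide)
  have Q2 := HQ 0 2 3 4 (by decide) (by decide) (by decide) (by decide) (by decide) (by decide)
  have Q3 := HQ 0 1 3 4 (by decide) (by decide) (by decide) (by decide) (by decide) (by decide)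
  rcases Q0 with e | e | e | e | e | e
  · rcases Q1 with f | f | f | f | f | f <;>
      exact HP _ _ _ _ (by decide) (by decide) (by decide) (by decide) e f
  · rcases Q1 with f | f | f | f | f | f <;>
      exact HP _ _ _ _ (by decide) (by decide) (by decide) (by decide) e f
  · rcases Q1 with f | f | f | f | f | f <;>
      exact HP _ _ _ _ (by decide) (by decide) (by decide) (by decide) e f
  · rcases Q2 with f | f | f | f | f | f <;>
      exact HP _ _ _ _ (by decide) (by decide) (by decide) (by decide) e f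
  · rcases Q2 with f | f | f | f | f | f <;>
      exact HP _ _ _ _ (by decide) (by decide) (by decide) (by decide) e f
  · rcases Q3 with f | f | f | f | f | f <;>
      exact HP _ _ _ _ (by decide) (by decide) (by decide) (by decide) e f

lemma comb_two (v : Fin 5 → ZMod 2)
    (HA : ∀ i j k l : Fin 5, i ≠ j → i ≠ k → j ≠ k → i ≠ l → j ≠ l → k ≠ l →
      v i = v j → v j = v k → v l = v i) : ∀ k, v k = v 0 := by
  have key : ∀ (v : Fin 5 → Fin 2),
      (∀ (i j k l : Fin 5), i ≠ j ∧ i ≠ k ∧ j ≠ k ∧ i ≠ l ∧ j ≠ l ∧ k ≠ l ∧ v i = v j ∧ v j = v k →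
        v l = v i) → ∀ (k : Fin 5), v k = v 0 := by decide +kernel
  exact key v (fun i j k l ⟨h1, h2, h3, h4, h5, h6, h7, h8⟩ => HA i j k l h1 h2 h3 h4 h5 h6 h7 h8)

end Pool.Agent.Helper99.Exotic
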