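import Mathlib

/-!
Transfer of integer polynomial relations between roots of unity.
-/

namespace Pool.Agent.Helper99.Exotic

open Polynomial

/-- An integer polynomial vanishing at one primitive `n`-th root of unity is divisible by the
cyclotomic polynomial. -/
lemma cyclotomic_dvd_of_aeval {n : ℕ} (hn : 0 < n) {ω : ℂ} (hω : IsPrimitiveRoot ω n)
    {P : ℤ[X]} (hP : aeval ω P = 0) : cyclotomic n ℤ ∣ P := by
  rw [cyclotomic_eq_minpoly hω hn]
  exact minpoly.isIntegrallyClosed_dvd (hω.isIntegral hn) hP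

/-- Transfer to any other root of the cyclotomic polynomial in a commutative ring. -/
lemma transfer {n : ℕ} (hn : 0 < n) {ω : ℂ} (hω : IsPrimitiveRoot ω n)
    {P : ℤ[X]} (hP : aeval ω P = 0) {R : Type*} [CommRing R] {g : R}
    (hg : (cyclotomic n R).IsRoot g) : aeval g P = 0 := by
  obtain ⟨Q, rfl⟩ := cyclotomic_dvd_of_aeval hn hω hP
  have h1 : aeval g (cyclotomic n ℤ) = 0 := by
    rw [← map_cyclotomic_int n R] at hg
    rw [aeval_def, ← eval_map]
    exact hg
  rw [map_mul, h1, zero_mul]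

/-- Transfer to another primitive root in `ℂ`. -/
lemma transfer_complex {n : ℕ} (hn : 0 < n) {ω ω' : ℂ} (hω : IsPrimitiveRoot ω n)
    (hω' : IsPrimitiveRoot ω' n) {P : ℤ[X]} (hP : aeval ω P = 0) : aeval ω' P = 0 :=
  transfer hn hω hP (hω'.isRoot_cyclotomic hn)

/-- If an integer polynomial does not vanish at a primitive `n`-th root of unity, then at some
primitive `n`-th root of unity its value has absolute value at least `1`. -/
lemma exists_one_le_norm {n : ℕ} (hn : 0 < n) {ω : ℂ} (hω : IsPrimitiveRoot ω n)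
    {P : ℤ[X]} (hP : aeval ω P ≠ 0) : ∃ ω' : ℂ, IsPrimitiveRoot ω' n ∧ 1 ≤ ‖aeval ω' P‖ := by
  have : NeZero n := ⟨hn.ne'⟩
  have hcyc : IsCyclotomicExtension {n} ℚ (CyclotomicField n ℚ) :=
    CyclotomicField.isCyclotomicExtension n ℚ
  obtain ⟨ζ, hζ⟩ : ∃ ζ : CyclotomicField n ℚ, IsPrimitiveRoot ζ n :=
    ⟨_, IsCyclotomicExtension.zeta_spec n ℚ (CyclotomicField n ℚ)⟩
  have hint : IsIntegral ℤ (aeval ζ P) := by
    have h1 : IsIntegral ℤ ζ := hζ.isIntegral hn
    exact IsIntegral.of_mem_of_fg _ h1.fg_adjoin_singleton _ (aeval_mem_adjoin_singleton ℤ ζ)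
  have hne : aeval ζ P ≠ 0 := by
    intro h0
    apply hP
    have hdvd : cyclotomic n ℤ ∣ P := by
      rw [cyclotomic_eq_minpoly hζ hn]
      exact minpoly.isIntegrallyClosed_dvd (hζ.isIntegral hn) h0
    obtain ⟨Q, rfl⟩ := hdvd
    have h1 : aeval ω (cyclotomic n ℤ) = 0 := by
      have := hω.isRoot_cyclotomic hn
      rw [← map_cyclotomic_int n ℂ] at this
      rw [aeval_def, ← eval_map]
      exact this
    rw [map_mul, h1, zero_mul]
  have key : ∃ α : NumberField.RingOfIntegers (CyclotomicField n ℚ),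
      (α : CyclotomicField n ℚ) = aeval ζ P := ⟨⟨aeval ζ P, hint⟩, rfl⟩
  obtain ⟨α, hα⟩ := key
  have hα0 : α ≠ 0 := by
    rintro rfl
    exact hne (by rw [← hα]; simp)
  obtain ⟨σ, hσ⟩ := NumberField.exists_conjugate_one_le_norm (K := CyclotomicField n ℚ) hα0
  refine ⟨σ ζ, hζ.map_of_injective σ.injective, ?_⟩
  have h2 : σ (aeval ζ P) = aeval (σ ζ) P := by
    rw [aeval_def, aeval_def, hom_eval₂]
    congr 1
    exact RingHom.ext_int _ _
  rw [hα, h2] at hσ
  exact hσ

end Pool.Agent.Helper99.Exotic
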