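import Mathlib

namespace Pool.Agent.Helper99.Exotic

lemma cube_mul_pow_le {c : ℕ} (hc : 8 ≤ c) : (c : ℝ) ^ 3 * (2 / 5) ^ (c - 8) ≤ 512 := by
  induction c, hc using Nat.le_induction with
  | base => norm_num
  | succ m hm ih =>
    have h1 : m + 1 - 8 = (m - 8) + 1 := by omega
    rw [h1, pow_succ]
    have hm' : (8 : ℝ) ≤ m := by exact_mod_cast hm
    have hpos : (0 : ℝ) ≤ (2 / 5 : ℝ) ^ (m - 8) := by positivity
    have h2 : ((m + 1 : ℕ) : ℝ) ^ 3 * (2 / 5) ≤ (m : ℝ) ^ 3 := by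
      push_cast
      nlinarith [sq_nonneg ((m : ℝ) - 8), mul_nonneg (sub_nonneg.2 hm') (sub_nonneg.2 hm'),
        mul_nonneg (mul_nonneg (sub_nonneg.2 hm') (sub_nonneg.2 hm')) (sub_nonneg.2 hm')]
    calc ((m + 1 : ℕ) : ℝ) ^ 3 * ((2 / 5) ^ (m - 8) * (2 / 5))
        = (((m + 1 : ℕ) : ℝ) ^ 3 * (2 / 5)) * (2 / 5) ^ (m - 8) := by ring
      _ ≤ (m : ℝ) ^ 3 * (2 / 5) ^ (m - 8) := mul_le_mul_of_nonneg_right h2 hpos
      _ ≤ 512 := ih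

lemma le_pow_aux {c : ℕ} (hc : 8 ≤ c) : (c : ℝ) ≤ (27 / 20) ^ (c - 1) := by
  induction c, hc using Nat.le_induction with
  | base => norm_num
  | succ m hm ih =>
    have h1 : m + 1 - 1 = (m - 1) + 1 := by omega
    rw [h1, pow_succ]
    have hm' : (8 : ℝ) ≤ m := by exact_mod_cast hm
    push_cast
    nlinarith

lemma real_ineq {c : ℕ} (hc : 8 ≤ c) {u : ℝ} (h0 : 0 ≤ u) (h1 : u < 1) :
    27 / 20 * (c : ℝ) ^ 3 * u ^ (c - 2) * (1 - u ^ 2) ^ (c + 2) < (1 - u ^ c) ^ 4 := by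
  set v := u * (1 - u ^ 2) with hv
  have hu2 : u ^ 2 < 1 := by nlinarith
  have hv0 : 0 ≤ v := mul_nonneg h0 (by linarith)
  have hv1 : v ≤ 2 / 5 := by
    rw [hv]
    nlinarith [sq_nonneg (u - 4 / 7), mul_nonneg h0 (sq_nonneg (u - 4 / 7)), sq_nonneg (u - 3/5),
      mul_nonneg h0 (sq_nonneg (u - 3 / 5))]
  have hv2 : 3 * v ≤ 1 + 4 / 7 * u ^ 2 := by
    rw [hv]
    nlinarith [sq_nonneg (u - 1 / 2), mul_nonneg h0 (sq_nonneg (u - 1 / 2)),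
      mul_nonneg h0 (sq_nonneg (u - 4 / 7))]
  have hv3 : 27 * v ^ 3 ≤ (1 + u ^ 2) ^ 2 := by
    have ha : (3 * v) ^ 3 ≤ (1 + 4 / 7 * u ^ 2) ^ 3 :=
      pow_le_pow_left₀ (by linarith) hv2 3
    have hb : (1 + 4 / 7 * u ^ 2) ^ 3 ≤ (1 + u ^ 2) ^ 2 := by
      have hs : 0 ≤ u ^ 2 := sq_nonneg u
      generalize u ^ 2 = s at *
      nlinarith [mul_nonneg hs hs, mul_nonneg hs (sub_nonneg.2 hu2.le),
        mul_nonneg (mul_nonneg hs hs) (sub_nonneg.2 hu2.le)]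
    calc 27 * v ^ 3 = (3 * v) ^ 3 := by ring
      _ ≤ _ := ha.trans hb
  have hv6 : 729 * v ^ 6 ≤ (1 + u ^ 2) ^ 4 := by
    have := pow_le_pow_left₀ (by positivity) hv3 2
    calc 729 * v ^ 6 = (27 * v ^ 3) ^ 2 := by ring
      _ ≤ ((1 + u ^ 2) ^ 2) ^ 2 := this
      _ = _ := by ring
  have hcv : (c : ℝ) ^ 3 * v ^ (c - 8) ≤ 512 := by
    have : v ^ (c - 8) ≤ (2 / 5 : ℝ) ^ (c - 8) := pow_le_pow_left₀ hv0 hv1 _
    calc (c : ℝ) ^ 3 * v ^ (c - 8) ≤ (c : ℝ) ^ 3 * (2 / 5) ^ (c - 8) :=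
          mul_le_mul_of_nonneg_left this (by positivity)
      _ ≤ 512 := cube_mul_pow_le hc
  have hw : 0 < 1 - u ^ 2 := by linarith
  have hdecomp : u ^ (c - 2) * (1 - u ^ 2) ^ (c + 2) = v ^ (c - 8) * v ^ 6 * (1 - u ^ 2) ^ 4 := by
    rw [← pow_add, show c - 8 + 6 = c - 2 by omega, hv, mul_pow, mul_assoc, ← pow_add,
      show c - 2 + 4 = c + 2 by omega]
  have hlow : (1 - u ^ 2) ^ 4 * (1 + u ^ 2) ^ 4 ≤ (1 - u ^ c) ^ 4 := by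
    rw [← mul_pow]
    apply pow_le_pow_left₀ (by positivity)
    have : u ^ c ≤ u ^ 4 := pow_le_pow_of_le_one h0 h1.le (by omega)
    nlinarith
  have hpos4 : 0 < (1 + u ^ 2) ^ 4 := by positivity
  have hmain : 27 / 20 * ((c : ℝ) ^ 3 * v ^ (c - 8)) * v ^ 6 < (1 + u ^ 2) ^ 4 := by
    have hv6' : 0 ≤ v ^ 6 := by positivity
    have : 27 / 20 * ((c : ℝ) ^ 3 * v ^ (c - 8)) * v ^ 6 ≤ 27 / 20 * 512 * v ^ 6 := by
      apply mul_le_mul_of_nonneg_right _ hv6'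
      linarith
    nlinarith
  calc 27 / 20 * (c : ℝ) ^ 3 * u ^ (c - 2) * (1 - u ^ 2) ^ (c + 2)
      = 27 / 20 * (c : ℝ) ^ 3 * (u ^ (c - 2) * (1 - u ^ 2) ^ (c + 2)) := by ring
    _ = (27 / 20 * ((c : ℝ) ^ 3 * v ^ (c - 8)) * v ^ 6) * (1 - u ^ 2) ^ 4 := by
        rw [hdecomp]; ring
    _ < (1 + u ^ 2) ^ 4 * (1 - u ^ 2) ^ 4 := by
        apply mul_lt_mul_of_pos_right hmain (by positivity)
    _ ≤ (1 - u ^ c) ^ 4 := by rw [mul_comm]; exact hlow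

/-- Homogeneous symmetric version. -/
lemma real_ineq_homog {c : ℕ} (hc : 8 ≤ c) {g h : ℝ} (hg : 0 ≤ g) (hh : 0 ≤ h) (hne : g ≠ h) :
    27 / 20 * (c : ℝ) ^ 3 * (g * h) ^ (c - 2) * |h ^ 2 - g ^ 2| ^ (c + 2) <
      |h ^ c - g ^ c| ^ 4 := by
  wlog hlt : g < h generalizing g h
  · have := this hh hg (Ne.symm hne) (lt_of_le_of_ne (not_lt.1 hlt) (Ne.symm hne))
    rwa [mul_comm h g, abs_sub_comm, abs_sub_comm (g ^ c)] at this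
  have hpos : 0 < h := lt_of_le_of_lt hg hlt
  set u := g / h with hu
  have hu0 : 0 ≤ u := div_nonneg hg hh
  have hu1 : u < 1 := (div_lt_one hpos).2 hlt
  have hg' : g = u * h := by rw [hu]; field_simp
  have key := real_ineq hc hu0 hu1
  have h2 : 0 ≤ h ^ 2 - g ^ 2 := by nlinarith
  have hcc : g ^ c ≤ h ^ c := pow_le_pow_left₀ hg hlt.le c
  rw [abs_of_nonneg h2, abs_of_nonneg (sub_nonneg.2 hcc)]
  have e1 : h ^ 2 - g ^ 2 = h ^ 2 * (1 - u ^ 2) := by rw [hg']; ring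
  have e2 : h ^ c - g ^ c = h ^ c * (1 - u ^ c) := by rw [hg', mul_pow]; ring
  rw [e1, e2]
  have e3 : 27 / 20 * (c : ℝ) ^ 3 * (g * h) ^ (c - 2) * (h ^ 2 * (1 - u ^ 2)) ^ (c + 2) =
      (27 / 20 * (c : ℝ) ^ 3 * u ^ (c - 2) * (1 - u ^ 2) ^ (c + 2)) * (h ^ c) ^ 4 := by
    rw [hg', show u * h * h = u * h ^ 2 by ring, mul_pow, mul_pow, ← pow_mul, ← pow_mul, ← pow_mul]
    have : h ^ (c * 4) = h ^ (2 * (c - 2)) * h ^ (2 * (c + 2)) := by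
      rw [← pow_add]; congr 1; omega
    rw [this]; ring
  rw [e3, mul_pow, mul_comm ((h ^ c) ^ 4)]
  exact mul_lt_mul_of_pos_right key (by positivity)

end Pool.Agent.Helper99.Exotic
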