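import Mathlib
import Pool.Agent.Helper99.Ineq

/-!
Norm estimates for Moebius images of the `c`-th roots of unity.
-/

namespace Pool.Agent.Helper99.Exotic

open Finset Polynomial

section Basic

variable {c : ℕ} {ζ : ℂ}

lemma sum_pow_eq_zero (hζ : IsPrimitiveRoot ζ c) {m : ℕ} (h : ¬ c ∣ m) :
    ∑ k ∈ range c, (ζ ^ k) ^ m = 0 := by
  have h1 : ζ ^ m ≠ 1 := fun e => h ((hζ.pow_eq_one_iff_dvd m).1 e)
  have h2 : ∑ k ∈ range c, (ζ ^ m) ^ k = 0 := by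
    have h3 := geom_sum_mul (ζ ^ m) c
    have h4 : (ζ ^ m) ^ c = 1 := by
      rw [← pow_mul, mul_comm, pow_mul, hζ.pow_eq_one, one_pow]
    rw [h4, sub_self] at h3
    exact (mul_eq_zero.1 h3).resolve_right (sub_ne_zero.2 h1)
  rw [← h2]
  refine sum_congr rfl fun k _ => ?_
  rw [← pow_mul, ← pow_mul, mul_comm]

lemma sum_pow_eq_card (hζ : IsPrimitiveRoot ζ c) {m : ℕ} (h : c ∣ m) :
    ∑ k ∈ range c, (ζ ^ k) ^ m = c := by
  obtain ⟨d, rfl⟩ := h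
  have : ∀ k ∈ range c, (ζ ^ k) ^ (c * d) = 1 := by
    intro k _
    rw [← pow_mul, show k * (c * d) = c * (k * d) by ring, pow_mul, hζ.pow_eq_one, one_pow]
  rw [sum_congr rfl this]
  simp

lemma prod_nthRoots_range (hc : 0 < c) (hζ : IsPrimitiveRoot ζ c) (f : ℂ → ℂ) :
    ∏ z ∈ nthRootsFinset c (1 : ℂ), f z = ∏ k ∈ range c, f (ζ ^ k) := by
  symm
  apply prod_bij (fun k _ => ζ ^ k)
  · intro k _
    rw [mem_nthRootsFinset hc, ← pow_mul, mul_comm, pow_mul, hζ.pow_eq_one, one_pow]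
  · intro a ha b hb h
    exact hζ.pow_inj (mem_range.1 ha) (mem_range.1 hb) h
  · intro z hz
    rw [mem_nthRootsFinset hc] at hz
    have : NeZero c := ⟨hc.ne'⟩
    obtain ⟨i, hi, rfl⟩ := hζ.eq_pow_of_pow_eq_one hz
    exact ⟨i, mem_range.2 hi, rfl⟩
  · intro k _
    rfl

lemma prod_linear (hc : 0 < c) (hζ : IsPrimitiveRoot ζ c) (γ δ : ℂ) :
    ∏ k ∈ range c, (γ * ζ ^ k + δ) = δ ^ c - (-γ) ^ c := by
  rw [hζ.pow_sub_pow_eq_prod_sub_mul _ _ hc, prod_nthRoots_range hc hζ]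
  refine prod_congr rfl fun k _ => ?_
  ring

lemma nodal_eq (hc : 0 < c) (hζ : IsPrimitiveRoot ζ c) :
    Lagrange.nodal (range c) (fun k => ζ ^ k) = X ^ c - 1 := by
  rw [X_pow_sub_one_eq_prod hc hζ, Lagrange.nodal]
  symm
  apply prod_bij' (i := fun z _ => if h : ∃ k, k < c ∧ ζ ^ k = z then h.choose else 0)
    (j := fun k _ => ζ ^ k)
  · intro z hz
    rw [mem_nthRootsFinset hc] at hz
    have : NeZero c := ⟨hc.ne'⟩
    obtain ⟨i, hi, hi'⟩ := hζ.eq_pow_of_pow_eq_one hz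
    have h : ∃ k, k < c ∧ ζ ^ k = z := ⟨i, hi, hi'⟩
    rw [dif_pos h]
    exact mem_range.2 h.choose_spec.1
  · intro k _
    rw [mem_nthRootsFinset hc, ← pow_mul, mul_comm, pow_mul, hζ.pow_eq_one, one_pow]
  · intro z hz
    rw [mem_nthRootsFinset hc] at hz
    have : NeZero c := ⟨hc.ne'⟩
    obtain ⟨i, hi, hi'⟩ := hζ.eq_pow_of_pow_eq_one hz
    have h : ∃ k, k < c ∧ ζ ^ k = z := ⟨i, hi, hi'⟩
    rw [dif_pos h]
    exact h.choose_spec.2
  · intro k hk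
    have h : ∃ k', k' < c ∧ ζ ^ k' = ζ ^ k := ⟨k, mem_range.1 hk, rfl⟩
    rw [dif_pos h]
    exact hζ.pow_inj h.choose_spec.1 (mem_range.1 hk) h.choose_spec.2
  · intro z hz
    rw [mem_nthRootsFinset hc] at hz
    have : NeZero c := ⟨hc.ne'⟩
    obtain ⟨i, hi, hi'⟩ := hζ.eq_pow_of_pow_eq_one hz
    have h : ∃ k, k < c ∧ ζ ^ k = z := ⟨i, hi, hi'⟩
    rw [dif_pos h, h.choose_spec.2]

lemma prod_erase_sub (hc : 0 < c) (hζ : IsPrimitiveRoot ζ c) {k : ℕ} (hk : k < c) :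
    ∏ l ∈ (range c).erase k, (ζ ^ k - ζ ^ l) = c * (ζ ^ k) ^ (c - 1) := by
  have h := Lagrange.eval_nodal_derivative_eval_node_eq (s := range c) (v := fun k => ζ ^ k)
    (i := k) (mem_range.2 hk)
  rw [nodal_eq hc hζ, Lagrange.eval_nodal] at h
  rw [← h]
  simp [derivative_X_pow]

end Basic

section Main

variable {c : ℕ} {ζ : ℂ} {y : ℕ → ℂ} {α β γ δ : ℂ}

lemma sum_formula (hζ : IsPrimitiveRoot ζ c)
    (hT : ∀ k < c, y k * (γ * ζ ^ k + δ) = α * ζ ^ k + β) (j : ℕ) :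
    (∑ k ∈ range c, y k * (ζ ^ k) ^ j) * (δ ^ c - (-γ) ^ c) =
      (∑ i ∈ range c, (-γ) ^ i * δ ^ (c - 1 - i) * α * ∑ k ∈ range c, (ζ ^ k) ^ (i + j + 1)) +
      ∑ i ∈ range c, (-γ) ^ i * δ ^ (c - 1 - i) * β * ∑ k ∈ range c, (ζ ^ k) ^ (i + j) := by
  have h1 : ∀ k ∈ range c, y k * (ζ ^ k) ^ j * (δ ^ c - (-γ) ^ c) =
      ∑ i ∈ range c, ((-γ) ^ i * δ ^ (c - 1 - i) * α * (ζ ^ k) ^ (i + j + 1) +
        (-γ) ^ i * δ ^ (c - 1 - i) * β * (ζ ^ k) ^ (i + j)) := by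
    intro k hk
    have h2 := geom_sum₂_mul (-γ * ζ ^ k) δ c
    have h3 : (-γ * ζ ^ k) ^ c = (-γ) ^ c := by
      rw [mul_pow, ← pow_mul, mul_comm k c, pow_mul, hζ.pow_eq_one, one_pow, mul_one]
    rw [h3] at h2
    have h4 : δ ^ c - (-γ) ^ c =
        (∑ i ∈ range c, (-γ * ζ ^ k) ^ i * δ ^ (c - 1 - i)) * (γ * ζ ^ k + δ) := by
      linear_combination h2
    rw [h4]
    have h5 := hT k (mem_range.1 hk)
    calc y k * (ζ ^ k) ^ j * ((∑ i ∈ range c, (-γ * ζ ^ k) ^ i * δ ^ (c - 1 - i)) *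
            (γ * ζ ^ k + δ))
        = (∑ i ∈ range c, (-γ * ζ ^ k) ^ i * δ ^ (c - 1 - i)) *
            ((ζ ^ k) ^ j * (y k * (γ * ζ ^ k + δ))) := by ring
      _ = (∑ i ∈ range c, (-γ * ζ ^ k) ^ i * δ ^ (c - 1 - i)) *
            ((ζ ^ k) ^ j * (α * ζ ^ k + β)) := by rw [h5]
      _ = _ := by
          rw [sum_mul]
          refine sum_congr rfl fun i _ => ?_
          rw [mul_pow]
          ring
  rw [sum_mul, sum_congr rfl h1, sum_comm, ← sum_add_distrib]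
  refine sum_congr rfl fun i _ => ?_
  rw [sum_add_distrib, mul_sum, mul_sum]

lemma sum_single (hζ : IsPrimitiveRoot ζ c) (f : ℕ → ℂ) {m i₀ : ℕ} (hi₀ : i₀ < c)
    (h : c ∣ i₀ + m) :
    ∑ i ∈ range c, f i * ∑ k ∈ range c, (ζ ^ k) ^ (i + m) = f i₀ * c := by
  rw [sum_eq_single_of_mem i₀ (mem_range.2 hi₀), sum_pow_eq_card hζ h]
  intro b hb hb'
  rw [sum_pow_eq_zero hζ, mul_zero]
  intro hdvd
  apply hb'
  have h1 : b + m ≡ i₀ + m [MOD c] :=
    ((Nat.modEq_zero_iff_dvd).2 hdvd).trans ((Nat.modEq_zero_iff_dvd).2 h).symm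
  have h2 : b ≡ i₀ [MOD c] := Nat.ModEq.add_right_cancel' m h1
  exact Nat.ModEq.eq_of_lt_of_lt h2 (mem_range.1 hb) hi₀

/-- The DFT coefficient at `1`. -/
lemma sum_one (hc : 3 ≤ c) (hζ : IsPrimitiveRoot ζ c)
    (hT : ∀ k < c, y k * (γ * ζ ^ k + δ) = α * ζ ^ k + β) :
    (∑ k ∈ range c, y k * (ζ ^ k) ^ 1) * (δ ^ c - (-γ) ^ c) =
      c * (-γ) ^ (c - 2) * (α * δ - β * γ) := by
  rw [sum_formula hζ hT]
  have h1 := sum_single hζ (fun i => (-γ) ^ i * δ ^ (c - 1 - i) * α) (m := 2) (i₀ := c - 2)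
    (by omega) (by rw [show c - 2 + 2 = c by omega])
  have h2 := sum_single hζ (fun i => (-γ) ^ i * δ ^ (c - 1 - i) * β) (m := 1) (i₀ := c - 1)
    (by omega) (by rw [show c - 1 + 1 = c by omega])
  simp only [add_assoc, show 1 + 1 = 2 from rfl] at h1 h2 ⊢
  rw [h1, h2]
  rw [show c - 1 - (c - 1) = 0 by omega, show c - 1 - (c - 2) = 1 by omega,
      show c - 1 = (c - 2) + 1 by omega, pow_succ]
  ring

/-- The DFT coefficient at `-1`. -/
lemma sum_neg_one (hc : 3 ≤ c) (hζ : IsPrimitiveRoot ζ c)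
    (hT : ∀ k < c, y k * (γ * ζ ^ k + δ) = α * ζ ^ k + β) :
    (∑ k ∈ range c, y k * (ζ ^ k) ^ (c - 1)) * (δ ^ c - (-γ) ^ c) =
      c * δ ^ (c - 2) * (α * δ - β * γ) := by
  rw [sum_formula hζ hT]
  have h1 := sum_single hζ (fun i => (-γ) ^ i * δ ^ (c - 1 - i) * α) (m := c - 1 + 1) (i₀ := 0)
    (by omega) (by rw [show 0 + (c - 1 + 1) = c by omega])
  have h2 := sum_single hζ (fun i => (-γ) ^ i * δ ^ (c - 1 - i) * β) (m := c - 1) (i₀ := 1)
    (by omega) (by rw [show 1 + (c - 1) = c by omega])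
  simp only [add_assoc] at h1 h2 ⊢
  rw [h1, h2]
  rw [show c - 1 - 1 = c - 2 by omega, show c - 1 - 0 = (c - 2) + 1 by omega, pow_succ]
  ring

open ComplexConjugate in
lemma unimod_aux (hc : 3 ≤ c) (hζ : IsPrimitiveRoot ζ c)
    (hU : ∀ k < c, ‖α * ζ ^ k + β‖ = ‖γ * ζ ^ k + δ‖) :
    α * conj β = γ * conj δ ∧
      α * conj α + β * conj β = γ * conj γ + δ * conj δ := by
  have hn : ‖ζ‖ = 1 := hζ.norm'_eq_one (by omega)
  have hzz : ζ * conj ζ = 1 := by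
    rw [Complex.mul_conj, Complex.normSq_eq_norm_sq, hn]; simp
  set a := α * conj β - γ * conj δ with ha
  set b := α * conj α + β * conj β - γ * conj γ - δ * conj δ with hb
  set a' := conj α * β - conj γ * δ with ha'
  have key : ∀ k < c, a * (ζ ^ k) ^ 2 + b * ζ ^ k + a' = 0 := by
    intro k hk
    have h1 := hU k hk
    have h2 : (α * ζ ^ k + β) * conj (α * ζ ^ k + β) = (γ * ζ ^ k + δ) * conj (γ * ζ ^ k + δ) := by
      rw [Complex.mul_conj, Complex.mul_conj, Complex.normSq_eq_norm_sq,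
        Complex.normSq_eq_norm_sq, h1]
    have h3 : ζ ^ k * conj (ζ ^ k) = 1 := by
      rw [map_pow, ← mul_pow, hzz, one_pow]
    simp only [map_add, map_mul] at h2
    have h4 : ζ ^ k ≠ 0 := by
      intro h0
      rw [h0, zero_mul] at h3
      exact zero_ne_one h3
    generalize ζ ^ k = x at *
    generalize conj x = x' at *
    rw [ha, hb, ha']
    linear_combination x * h2 + (-α * conj α * x - conj α * β + γ * conj γ * x + conj γ * δ) * h3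
  have h0 := key 0 (by omega)
  have h1 := key 1 (by omega)
  have h2 := key 2 (by omega)
  have hz1 : ζ ≠ 1 := hζ.ne_one (by omega)
  have hz2 : ζ ^ 2 ≠ 1 := hζ.pow_ne_one_of_pos_of_lt (by omega) (by omega)
  have hz0 : ζ ≠ 0 := hζ.ne_zero (by omega)
  have e1 : (ζ - 1) * (a * (ζ + 1) + b) = 0 := by linear_combination h1 - h0
  have e2 : ζ * (ζ - 1) * (a * ζ * (ζ + 1) + b) = 0 := by linear_combination h2 - h1
  have e1' := (mul_eq_zero.1 e1).resolve_left (sub_ne_zero.2 hz1)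
  have e2' := (mul_eq_zero.1 e2).resolve_left (mul_ne_zero hz0 (sub_ne_zero.2 hz1))
  have e3 : a * (ζ ^ 2 - 1) = 0 := by linear_combination e2' - e1'
  have hA : a = 0 := (mul_eq_zero.1 e3).resolve_right (sub_ne_zero.2 hz2)
  have hB : b = 0 := by rw [hA] at e1'; linear_combination e1'
  refine ⟨by linear_combination hA, by linear_combination hB⟩

open ComplexConjugate in
lemma unimod (hc : 3 ≤ c) (hζ : IsPrimitiveRoot ζ c)
    (hU : ∀ k < c, ‖α * ζ ^ k + β‖ = ‖γ * ζ ^ k + δ‖) (hΔ : α * δ - β * γ ≠ 0) :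
    ‖α‖ = ‖δ‖ ∧ ‖β‖ = ‖γ‖ ∧ ‖α * δ - β * γ‖ = |‖δ‖ ^ 2 - ‖γ‖ ^ 2| ∧ ‖γ‖ ≠ ‖δ‖ := by
  obtain ⟨h1, h2⟩ := unimod_aux hc hζ hU
  have h1' : conj α * β = conj γ * δ := by
    have := congrArg conj h1
    simpa [map_mul] using this
  set A := Complex.normSq α with hA
  set B := Complex.normSq β with hB
  set G := Complex.normSq γ with hG
  set H := Complex.normSq δ with hH
  have hA' : α * conj α = A := Complex.mul_conj α
  have hB' : β * conj β = B := Complex.mul_conj β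
  have hG' : γ * conj γ = G := Complex.mul_conj γ
  have hH' : δ * conj δ = H := Complex.mul_conj δ
  have h3 : A + B = G + H := by
    have : ((A + B : ℝ) : ℂ) = ((G + H : ℝ) : ℂ) := by
      push_cast
      rw [← hA', ← hB', ← hG', ← hH', h2]
    exact_mod_cast this
  have h4 : A * B = G * H := by
    have : ((A * B : ℝ) : ℂ) = ((G * H : ℝ) : ℂ) := by
      push_cast
      rw [← hA', ← hB', ← hG', ← hH']
      linear_combination (conj α * β) * h1 + (γ * conj δ) * h1'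
    exact_mod_cast this
  have h5 : Complex.normSq (α * δ - β * γ) = A * H + B * G - 2 * (G * H) := by
    have : ((Complex.normSq (α * δ - β * γ) : ℝ) : ℂ) = ((A * H + B * G - 2 * (G * H) : ℝ) : ℂ) := by
      push_cast
      rw [← hA', ← hB', ← hG', ← hH', ← Complex.mul_conj]
      simp only [map_sub, map_mul]
      linear_combination (-δ * conj γ) * h1 - (conj δ * γ) * h1'
    exact_mod_cast this
  have h6 : (A - G) * (A - H) = 0 := by linear_combination A * h3 - h4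
  have h7 : A ≠ G ∨ A = H := by
    by_cases h : A = G
    · right
      by_contra hne
      apply hΔ
      rw [← Complex.normSq_eq_zero, h5]
      have hBH : B = H := by linarith
      rw [h, hBH]; ring
    · left; exact h
  have h8 : A = H := by
    rcases h7 with h7 | h7
    · rcases mul_eq_zero.1 h6 with h | h
      · exact absurd (by linarith) h7
      · linarith
    · exact h7
  have h9 : B = G := by linarith
  have hne : G ≠ H := by
    intro h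
    apply hΔ
    rw [← Complex.normSq_eq_zero, h5, h8, h9, h]; ring
  have n1 : ‖α‖ ^ 2 = A := (Complex.normSq_eq_norm_sq α).symm
  have n2 : ‖β‖ ^ 2 = B := (Complex.normSq_eq_norm_sq β).symm
  have n3 : ‖γ‖ ^ 2 = G := (Complex.normSq_eq_norm_sq γ).symm
  have n4 : ‖δ‖ ^ 2 = H := (Complex.normSq_eq_norm_sq δ).symm
  refine ⟨?_, ?_, ?_, ?_⟩
  · have : ‖α‖ ^ 2 = ‖δ‖ ^ 2 := by rw [n1, n4, h8]
    exact (pow_left_inj₀ (norm_nonneg _) (norm_nonneg _) two_ne_zero).1 this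
  · have : ‖β‖ ^ 2 = ‖γ‖ ^ 2 := by rw [n2, n3, h9]
    exact (pow_left_inj₀ (norm_nonneg _) (norm_nonneg _) two_ne_zero).1 this
  · have : ‖α * δ - β * γ‖ ^ 2 = |‖δ‖ ^ 2 - ‖γ‖ ^ 2| ^ 2 := by
      rw [← Complex.normSq_eq_norm_sq, h5, sq_abs, n3, n4, h8, h9]; ring
    exact (pow_left_inj₀ (norm_nonneg _) (abs_nonneg _) two_ne_zero).1 this
  · intro h
    apply hne
    rw [← n3, ← n4, h]

lemma prod_diff (hc : 0 < c) (hζ : IsPrimitiveRoot ζ c)
    (hT : ∀ k < c, y k * (γ * ζ ^ k + δ) = α * ζ ^ k + β) {k : ℕ} (hk : k < c) :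
    (∏ l ∈ (range c).erase k, (y k - y l)) * (γ * ζ ^ k + δ) ^ (c - 1) *
      (δ ^ c - (-γ) ^ c) =
      (α * δ - β * γ) ^ (c - 1) * (c * (ζ ^ k) ^ (c - 1)) * (γ * ζ ^ k + δ) := by
  have hk' := mem_range.2 hk
  have hcard : ((range c).erase k).card = c - 1 := by
    rw [card_erase_of_mem hk', card_range]
  have h1 : (γ * ζ ^ k + δ) ^ (c - 1) = ∏ l ∈ (range c).erase k, (γ * ζ ^ k + δ) := by
    rw [prod_const, hcard]
  have h2 : (α * δ - β * γ) ^ (c - 1) = ∏ l ∈ (range c).erase k, (α * δ - β * γ) := by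
    rw [prod_const, hcard]
  rw [← prod_linear hc hζ γ δ, ← prod_erase_sub hc hζ hk, h1, h2,
    ← prod_erase_mul (range c) (fun k => γ * ζ ^ k + δ) hk', ← mul_assoc, ← prod_mul_distrib,
    ← prod_mul_distrib, ← prod_mul_distrib]
  congr 1
  refine prod_congr rfl fun l hl => ?_
  have hl' := mem_range.1 (mem_of_mem_erase hl)
  have e1 := hT k hk
  have e2 := hT l hl'
  linear_combination (γ * ζ ^ l + δ) * e1 - (γ * ζ ^ k + δ) * e2

lemma norm_prod_diff (hc : 0 < c) (hζ : IsPrimitiveRoot ζ c)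
    (hT : ∀ k < c, y k * (γ * ζ ^ k + δ) = α * ζ ^ k + β) (hP : δ ^ c - (-γ) ^ c ≠ 0) :
    ‖∏ k ∈ range c, ∏ l ∈ (range c).erase k, (y k - y l)‖ *
      ‖δ ^ c - (-γ) ^ c‖ ^ (2 * (c - 1)) =
      (c : ℝ) ^ c * ‖α * δ - β * γ‖ ^ (c * (c - 1)) := by
  have hn : ‖ζ‖ = 1 := hζ.norm'_eq_one (by omega)
  have hprod : ∏ k ∈ range c, ‖γ * ζ ^ k + δ‖ = ‖δ ^ c - (-γ) ^ c‖ := by
    rw [← norm_prod, prod_linear hc hζ]
  set P := ‖δ ^ c - (-γ) ^ c‖ with hPdef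
  have hP0 : P ≠ 0 := by rw [hPdef]; exact norm_ne_zero_iff.2 hP
  have h1 : ∀ k ∈ range c, ‖∏ l ∈ (range c).erase k, (y k - y l)‖ *
      ‖γ * ζ ^ k + δ‖ ^ (c - 1) * P =
      ‖α * δ - β * γ‖ ^ (c - 1) * c * ‖γ * ζ ^ k + δ‖ := by
    intro k hk
    have := congrArg norm (prod_diff hc hζ hT (mem_range.1 hk))
    simp only [norm_mul, norm_pow, hn, one_pow, mul_one] at this
    rw [show ‖(c : ℂ)‖ = (c : ℝ) by simp] at this
    simpa [norm_prod] using this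
  have h2 := prod_congr rfl h1
  simp only [prod_mul_distrib, prod_pow, hprod, prod_const, card_range] at h2
  rw [norm_prod]
  have h3 : (∏ k ∈ range c, ‖∏ l ∈ (range c).erase k, (y k - y l)‖) * P ^ (2 * (c - 1)) * P =
      (c : ℝ) ^ c * ‖α * δ - β * γ‖ ^ (c * (c - 1)) * P := by
    have e1 : P ^ (2 * (c - 1)) * P = P ^ (c - 1) * P ^ c := by
      rw [← pow_succ, ← pow_add]; congr 1; omega
    have e2 : ‖α * δ - β * γ‖ ^ (c * (c - 1)) = (‖α * δ - β * γ‖ ^ c) ^ (c - 1) := by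
      rw [← pow_mul]
    rw [mul_assoc, e1, e2, ← mul_assoc, h2]
    ring
  exact mul_right_cancel₀ hP0 h3

/-- The key estimate: the algebraic integer built from DFT coefficients and differences has
absolute value less than one. -/
lemma large_norm_lt (hc : 8 ≤ c) (hζ : IsPrimitiveRoot ζ c)
    (hy : ∀ k < c, ‖y k‖ = 1) (hΔ : α * δ - β * γ ≠ 0)
    (hT : ∀ k < c, y k * (γ * ζ ^ k + δ) = α * ζ ^ k + β) :
    ‖((∑ k ∈ range c, y k * (ζ ^ k) ^ (c - 1)) * (∑ k ∈ range c, y k * (ζ ^ k) ^ 1)) ^ (c - 1) *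
      ∏ k ∈ range c, ∏ l ∈ (range c).erase k, (y k - y l)‖ < 1 := by
  have hU : ∀ k < c, ‖α * ζ ^ k + β‖ = ‖γ * ζ ^ k + δ‖ := by
    intro k hk
    rw [← hT k hk, norm_mul, hy k hk, one_mul]
  obtain ⟨-, -, hD, hne⟩ := unimod (by omega) hζ hU hΔ
  have hlow : |‖δ‖ ^ c - ‖γ‖ ^ c| ≤ ‖δ ^ c - (-γ) ^ c‖ := by
    have := abs_norm_sub_norm_le (δ ^ c) ((-γ) ^ c)
    rwa [norm_pow, norm_pow, norm_neg] at this
  have hpos : 0 < |‖δ‖ ^ c - ‖γ‖ ^ c| := by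
    rw [abs_pos, sub_ne_zero]
    intro h
    exact hne ((pow_left_inj₀ (norm_nonneg _) (norm_nonneg _) (by omega)).1 h).symm
  have hPpos : 0 < ‖δ ^ c - (-γ) ^ c‖ := lt_of_lt_of_le hpos hlow
  have hP : δ ^ c - (-γ) ^ c ≠ 0 := norm_pos_iff.1 hPpos
  have s1 := congrArg norm (sum_neg_one (by omega) hζ hT)
  have s2 := congrArg norm (sum_one (by omega) hζ hT)
  have s3 := norm_prod_diff (by omega) hζ hT hP
  rw [norm_mul, norm_mul, norm_mul, norm_pow, show ‖(c : ℂ)‖ = (c : ℝ) by simp] at s1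
  rw [norm_mul, norm_mul, norm_mul, norm_pow, norm_neg, show ‖(c : ℂ)‖ = (c : ℝ) by simp] at s2
  rw [norm_mul, norm_pow, norm_mul]
  set A := ‖∑ k ∈ range c, y k * (ζ ^ k) ^ (c - 1)‖ with hA
  set B := ‖∑ k ∈ range c, y k * (ζ ^ k) ^ 1‖ with hB
  set Z := ‖∏ k ∈ range c, ∏ l ∈ (range c).erase k, (y k - y l)‖ with hZ
  set P := ‖δ ^ c - (-γ) ^ c‖ with hPdef
  set D := ‖α * δ - β * γ‖ with hDdef
  set g := ‖γ‖ with hg
  set h := ‖δ‖ with hh
  have key := real_ineq_homog hc (norm_nonneg γ) (norm_nonneg δ) hne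
  rw [← hD, ← hg, ← hh] at key
  have hg0 : 0 ≤ g := norm_nonneg _
  have hh0 : 0 ≤ h := norm_nonneg _
  have hD0 : 0 ≤ D := norm_nonneg _
  have hc1 : c - 1 ≠ 0 := by omega
  have hc0 : (0 : ℝ) ≤ c := by positivity
  have hkey2 : (27 / 20 * (c : ℝ) ^ 3 * (g * h) ^ (c - 2) * D ^ (c + 2)) ^ (c - 1) <
      (P ^ 4) ^ (c - 1) := by
    apply lt_of_lt_of_le (pow_lt_pow_left₀ key (by positivity) hc1)
    apply pow_le_pow_left₀ (by positivity)
    exact pow_le_pow_left₀ (abs_nonneg _) hlow 4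
  have hcc : (c : ℝ) ^ c ≤ (27 / 20 * c) ^ (c - 1) := by
    have h1 := le_pow_aux hc
    calc (c : ℝ) ^ c = (c : ℝ) ^ (c - 1) * c := by rw [← pow_succ]; congr 1; omega
      _ ≤ (c : ℝ) ^ (c - 1) * (27 / 20) ^ (c - 1) :=
          mul_le_mul_of_nonneg_left h1 (by positivity)
      _ = _ := by rw [mul_pow]; ring
  have hmain : ((A * B) ^ (c - 1) * Z) * (P ^ 4) ^ (c - 1) < (P ^ 4) ^ (c - 1) := by
    have e0 : (P ^ 4) ^ (c - 1) = (P * P) ^ (c - 1) * P ^ (2 * (c - 1)) := by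
      rw [mul_pow, ← pow_mul, ← pow_add, ← pow_add]; congr 1; omega
    have e1 : ((A * B) ^ (c - 1) * Z) * (P ^ 4) ^ (c - 1) =
        ((A * P) * (B * P)) ^ (c - 1) * (Z * P ^ (2 * (c - 1))) := by
      rw [e0, mul_pow, mul_pow, mul_pow, mul_pow, mul_pow]; ring
    rw [e1, s1, s2, s3]
    have e2 : ((c : ℝ) * h ^ (c - 2) * D * (c * g ^ (c - 2) * D)) ^ (c - 1) *
        ((c : ℝ) ^ c * D ^ (c * (c - 1))) =
        (c : ℝ) ^ c * ((c : ℝ) ^ 2 * (g * h) ^ (c - 2) * D ^ (c + 2)) ^ (c - 1) := by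
      rw [show D ^ (c * (c - 1)) = (D ^ c) ^ (c - 1) by rw [pow_mul]]
      have : (c : ℝ) ^ 2 * (g * h) ^ (c - 2) * D ^ (c + 2) =
          ((c : ℝ) * h ^ (c - 2) * D * (c * g ^ (c - 2) * D)) * D ^ c := by
        rw [mul_pow, pow_add]; ring
      rw [this, mul_pow (_ * _) (D ^ c)]
      ring
    rw [e2]
    refine lt_of_le_of_lt ?_ hkey2
    calc (c : ℝ) ^ c * ((c : ℝ) ^ 2 * (g * h) ^ (c - 2) * D ^ (c + 2)) ^ (c - 1)
        ≤ (27 / 20 * c) ^ (c - 1) * ((c : ℝ) ^ 2 * (g * h) ^ (c - 2) * D ^ (c + 2)) ^ (c - 1) :=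
          mul_le_mul_of_nonneg_right hcc (by positivity)
      _ = (27 / 20 * (c : ℝ) ^ 3 * (g * h) ^ (c - 2) * D ^ (c + 2)) ^ (c - 1) := by
          rw [← mul_pow]; congr 1; ring
  have hPP : 0 < (P ^ 4) ^ (c - 1) := by positivity
  by_contra hcon
  push Not at hcon
  have : (P ^ 4) ^ (c - 1) ≤ ((A * B) ^ (c - 1) * Z) * (P ^ 4) ^ (c - 1) :=
    le_mul_of_one_le_left hPP.le hcon
  linarith

end Main

end Pool.Agent.Helper99.Exotic
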