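import Mathlib
import Pool.Agent.Helper99.Cyclo
import Pool.Agent.Helper99.Large

namespace Pool.Agent.Helper99.Exotic

open Finset Polynomial

/-- The cross-ratio relation for four indices. -/
def Rel {K : Type*} [CommRing K] (x y : ℕ → K) (i j k l : ℕ) : Prop :=
  (x i - x k) * (x j - x l) * ((y i - y l) * (y j - y k)) =
    (x i - x l) * (x j - x k) * ((y i - y k) * (y j - y l))

section Field

variable {K : Type*} [Field K] {x y : ℕ → K} {α β γ δ : K}

lemma rel_of_moebius {i j k l : ℕ}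
    (hi : γ * x i + δ ≠ 0) (hj : γ * x j + δ ≠ 0) (hk : γ * x k + δ ≠ 0) (hl : γ * x l + δ ≠ 0)
    (Ti : y i * (γ * x i + δ) = α * x i + β) (Tj : y j * (γ * x j + δ) = α * x j + β)
    (Tk : y k * (γ * x k + δ) = α * x k + β) (Tl : y l * (γ * x l + δ) = α * x l + β) :
    Rel x y i j k l := by
  unfold Rel
  have hP : (γ * x i + δ) * (γ * x j + δ) * ((γ * x k + δ) * (γ * x l + δ)) ≠ 0 :=
    mul_ne_zero (mul_ne_zero hi hj) (mul_ne_zero hk hl)
  apply mul_right_cancel₀ hP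
  have e : ∀ u v : ℕ, y u * (γ * x u + δ) = α * x u + β → y v * (γ * x v + δ) = α * x v + β →
      (y u - y v) * ((γ * x u + δ) * (γ * x v + δ)) = (α * δ - β * γ) * (x u - x v) := by
    intro u v hu hv
    linear_combination (γ * x v + δ) * hu - (γ * x u + δ) * hv
  have e1 := e i l Ti Tl
  have e2 := e j k Tj Tk
  have e3 := e i k Ti Tk
  have e4 := e j l Tj Tl
  calc (x i - x k) * (x j - x l) * ((y i - y l) * (y j - y k)) *
        ((γ * x i + δ) * (γ * x j + δ) * ((γ * x k + δ) * (γ * x l + δ)))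
      = (x i - x k) * (x j - x l) * (((y i - y l) * ((γ * x i + δ) * (γ * x l + δ))) *
        ((y j - y k) * ((γ * x j + δ) * (γ * x k + δ)))) := by ring
    _ = (x i - x l) * (x j - x k) * (((y i - y k) * ((γ * x i + δ) * (γ * x k + δ))) *
        ((y j - y l) * ((γ * x j + δ) * (γ * x l + δ)))) := by
        rw [e1, e2, e3, e4]; ring
    _ = _ := by ring

lemma moebius_of_rel {c : ℕ} (hc : 3 ≤ c) (hx : ∀ i < c, ∀ j < c, x i = x j → i = j)
    (hy : ∀ i < c, ∀ j < c, y i = y j → i = j) (hR : ∀ k < c, Rel x y 0 1 2 k) :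
    ∃ α β γ δ : K, α * δ - β * γ ≠ 0 ∧
      (∀ k < c, y k * (γ * x k + δ) = α * x k + β) ∧ ∀ k < c, γ * x k + δ ≠ 0 := by
  have hx01 : x 0 - x 1 ≠ 0 := sub_ne_zero.2 fun h => by
    have := hx 0 (by omega) 1 (by omega) h; omega
  have hx20 : x 2 - x 0 ≠ 0 := sub_ne_zero.2 fun h => by
    have := hx 2 (by omega) 0 (by omega) h; omega
  have hx21 : x 2 - x 1 ≠ 0 := sub_ne_zero.2 fun h => by
    have := hx 2 (by omega) 1 (by omega) h; omega
  have hy01 : y 0 - y 1 ≠ 0 := sub_ne_zero.2 fun h => by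
    have := hy 0 (by omega) 1 (by omega) h; omega
  have hy20 : y 2 - y 0 ≠ 0 := sub_ne_zero.2 fun h => by
    have := hy 2 (by omega) 0 (by omega) h; omega
  have hy21 : y 2 - y 1 ≠ 0 := sub_ne_zero.2 fun h => by
    have := hy 2 (by omega) 1 (by omega) h; omega
  set a := (y 2 - y 1) * (x 2 - x 0) with ha
  set b := (y 2 - y 0) * (x 2 - x 1) with hb
  have hΔ : (a * y 0 - b * y 1) * (-a * x 1 + b * x 0) - (-a * y 0 * x 1 + b * y 1 * x 0) * (a - b)
      ≠ 0 := by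
    have : (a * y 0 - b * y 1) * (-a * x 1 + b * x 0) -
        (-a * y 0 * x 1 + b * y 1 * x 0) * (a - b) = a * b * (y 0 - y 1) * (x 0 - x 1) := by ring
    rw [this]
    exact mul_ne_zero (mul_ne_zero (mul_ne_zero (mul_ne_zero hy21 hx20)
      (mul_ne_zero hy20 hx21)) hy01) hx01
  have hT : ∀ k < c, y k * ((a - b) * x k + (-a * x 1 + b * x 0)) =
      (a * y 0 - b * y 1) * x k + (-a * y 0 * x 1 + b * y 1 * x 0) := by
    intro k hk
    have h := hR k hk
    unfold Rel at h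
    rw [ha, hb]
    linear_combination h
  refine ⟨a * y 0 - b * y 1, -a * y 0 * x 1 + b * y 1 * x 0, a - b, -a * x 1 + b * x 0,
    hΔ, hT, ?_⟩
  intro k hk h0
  apply hΔ
  have h1 := hT k hk
  rw [h0, mul_zero] at h1
  linear_combination (a * y 0 - b * y 1) * h0 + (a - b) * h1

end Field

section Poly

/-- The relation as an integer polynomial in `ω`. -/
noncomputable def relPoly (a b : ℕ → ℕ) (i j k l : ℕ) : ℤ[X] :=
  (X ^ a i - X ^ a k) * (X ^ a j - X ^ a l) * ((X ^ b i - X ^ b l) * (X ^ b j - X ^ b k)) -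
    (X ^ a i - X ^ a l) * (X ^ a j - X ^ a k) * ((X ^ b i - X ^ b k) * (X ^ b j - X ^ b l))

lemma aeval_relPoly {R : Type*} [CommRing R] (g : R) (a b : ℕ → ℕ) (i j k l : ℕ) :
    aeval g (relPoly a b i j k l) = 0 ↔
      Rel (fun m => g ^ a m) (fun m => g ^ b m) i j k l := by
  unfold relPoly Rel
  simp only [map_sub, map_mul, map_pow, aeval_X]
  rw [sub_eq_zero]

lemma rel_transfer {n : ℕ} (hn : 0 < n) {ω : ℂ} (hω : IsPrimitiveRoot ω n) {R : Type*}
    [CommRing R] {g : R} (hg : (cyclotomic n R).IsRoot g) {a b : ℕ → ℕ} {i j k l : ℕ}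
    (h : Rel (fun m => ω ^ a m) (fun m => ω ^ b m) i j k l) :
    Rel (fun m => g ^ a m) (fun m => g ^ b m) i j k l :=
  (aeval_relPoly g a b i j k l).1 (transfer hn hω ((aeval_relPoly ω a b i j k l).2 h) hg)

end Poly

/-- There is no exotic embedding for `c ≥ 8`. -/
theorem no_large {c n : ℕ} (hc : 8 ≤ c) (hn : 0 < n) (hcn : c ∣ n) {ω : ℂ}
    (hω : IsPrimitiveRoot ω n) (b : ℕ → ℕ)
    (hinj : ∀ i < c, ∀ j < c, ω ^ b i = ω ^ b j → i = j) {α β γ δ : ℂ}
    (hΔ : α * δ - β * γ ≠ 0) (hβ : β ≠ 0) (hδ : δ ≠ 0)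
    (hne : ∀ k < c, γ * (ω ^ (n / c)) ^ k + δ ≠ 0)
    (hT : ∀ k < c, ω ^ b k * (γ * (ω ^ (n / c)) ^ k + δ) = α * (ω ^ (n / c)) ^ k + β) : False := by
  have hroot : ∀ ω' : ℂ, IsPrimitiveRoot ω' n → IsPrimitiveRoot (ω' ^ (n / c)) c := by
    intro ω' h'
    have := h'.pow hn (show n = n / c * c from (Nat.div_mul_cancel hcn).symm)
    exact this
  have hζ := hroot ω hω
  have hc0 : 0 < c := by omega
  -- the polynomial
  let P : ℤ[X] := ((∑ k ∈ range c, X ^ b k * ((X ^ (n / c)) ^ k) ^ (c - 1)) *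
    (∑ k ∈ range c, X ^ b k * ((X ^ (n / c)) ^ k) ^ 1)) ^ (c - 1) *
      ∏ k ∈ range c, ∏ l ∈ (range c).erase k, (X ^ b k - X ^ b l)
  have hPe : ∀ ω' : ℂ, aeval ω' P =
      ((∑ k ∈ range c, ω' ^ b k * ((ω' ^ (n / c)) ^ k) ^ (c - 1)) *
    (∑ k ∈ range c, ω' ^ b k * ((ω' ^ (n / c)) ^ k) ^ 1)) ^ (c - 1) *
      ∏ k ∈ range c, ∏ l ∈ (range c).erase k, (ω' ^ b k - ω' ^ b l) := by
    intro ω'
    simp only [P, map_mul, map_pow, map_sum, map_prod, map_sub, aeval_X]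
  have hnormω : ∀ ω' : ℂ, IsPrimitiveRoot ω' n → ∀ m : ℕ, ‖ω' ^ m‖ = 1 := by
    intro ω' h' m
    rw [norm_pow, h'.norm'_eq_one hn.ne', one_pow]
  have hP0 : aeval ω P ≠ 0 := by
    have hU : ∀ k < c, ‖α * (ω ^ (n / c)) ^ k + β‖ = ‖γ * (ω ^ (n / c)) ^ k + δ‖ := by
      intro k hk
      rw [← hT k hk, norm_mul, hnormω ω hω, one_mul]
    obtain ⟨-, hbg, -, hgd⟩ := unimod (by omega) hζ hU hΔ
    have hγ : γ ≠ 0 := by
      intro h
      rw [h, norm_zero, norm_eq_zero] at hbg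
      exact hβ hbg
    have hcC : (c : ℂ) ≠ 0 := by exact_mod_cast hc0.ne'
    have s1 := sum_neg_one (y := fun k => ω ^ b k) (by omega) hζ hT
    have s2 := sum_one (y := fun k => ω ^ b k) (by omega) hζ hT
    have h1 : (∑ k ∈ range c, ω ^ b k * ((ω ^ (n / c)) ^ k) ^ (c - 1)) ≠ 0 := by
      intro h
      rw [h, zero_mul] at s1
      exact mul_ne_zero (mul_ne_zero hcC (pow_ne_zero _ hδ)) hΔ s1.symm
    have h2 : (∑ k ∈ range c, ω ^ b k * ((ω ^ (n / c)) ^ k) ^ 1) ≠ 0 := by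
      intro h
      rw [h, zero_mul] at s2
      exact mul_ne_zero (mul_ne_zero hcC (pow_ne_zero _ (neg_ne_zero.2 hγ))) hΔ s2.symm
    rw [hPe]
    refine mul_ne_zero (pow_ne_zero _ (mul_ne_zero h1 h2)) ?_
    rw [prod_ne_zero_iff]
    intro k hk
    rw [prod_ne_zero_iff]
    intro l hl h0
    have := hinj k (mem_range.1 hk) l (mem_range.1 (mem_of_mem_erase hl)) (sub_eq_zero.1 h0)
    exact (ne_of_mem_erase hl) this.symm
  obtain ⟨ω', hω', hge⟩ := exists_one_le_norm hn hω hP0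
  rw [hPe] at hge
  -- the Moebius map at ω'
  have hζ' := hroot ω' hω'
  have hinj' : ∀ i < c, ∀ j < c, ω' ^ b i = ω' ^ b j → i = j := by
    intro i hi j hj h
    apply hinj i hi j hj
    have h1 : aeval ω' (X ^ b i - X ^ b j : ℤ[X]) = 0 := by
      simp [h]
    have h2 := transfer_complex hn hω' hω h1
    simpa [sub_eq_zero] using h2
  have hrel' : ∀ k < c, Rel (fun m => (ω' ^ (n / c)) ^ m) (fun m => ω' ^ b m) 0 1 2 k := by
    intro k hk
    have h1 : Rel (fun m => (ω ^ (n / c)) ^ m) (fun m => ω ^ b m) 0 1 2 k :=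
      rel_of_moebius (hne 0 hc0) (hne 1 (by omega)) (hne 2 (by omega))
        (hne k hk) (hT 0 hc0) (hT 1 (by omega)) (hT 2 (by omega)) (hT k hk)
    have h2 : Rel (fun m => ω ^ (n / c * m)) (fun m => ω ^ b m) 0 1 2 k := by
      simpa only [pow_mul] using h1
    have h3 := rel_transfer hn hω (hω'.isRoot_cyclotomic hn) h2
    simpa only [pow_mul] using h3
  obtain ⟨α', β', γ', δ', hΔ', hT', -⟩ := moebius_of_rel (x := fun m => (ω' ^ (n / c)) ^ m)
    (y := fun m => ω' ^ b m) (c := c) (by omega)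
    (fun i hi j hj h => hζ'.pow_inj hi hj h) hinj' hrel'
  have := large_norm_lt (y := fun m => ω' ^ b m) hc hζ' (fun k _ => hnormω ω' hω' _) hΔ' hT'
  linarith

end Pool.Agent.Helper99.Exotic
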