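import Mathlib
import Pool.Agent.Helper99.Rel

namespace Pool.Agent.Helper99.Exotic

open Finset Polynomial

section Extract

variable {p N : ℕ} {ξ : ℂ}

lemma zmod_cond (hp : 0 < p) (a r : ℕ) :
    p ∣ a + (p - 1) * r ↔ (a : ZMod p) = (r : ZMod p) := by
  rw [← ZMod.natCast_eq_zero_iff]
  push_cast [Nat.cast_sub (show 1 ≤ p from hp)]
  rw [CharP.cast_eq_zero (ZMod p) p]
  constructor
  · intro h; linear_combination h
  · intro h; rw [h]; ring

lemma extract_sum (hp : 0 < p) (hξ : IsPrimitiveRoot ξ p) (C : Fin N → ℂ) (e : Fin N → ℕ)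
    (r : ℕ) :
    ∑ s ∈ range p, (∑ m, C m * (ξ ^ s) ^ e m) * (ξ ^ s) ^ ((p - 1) * r) =
      p * ∑ m, (if (e m : ZMod p) = (r : ZMod p) then C m else 0) := by
  have h1 : ∀ s ∈ range p, (∑ m, C m * (ξ ^ s) ^ e m) * (ξ ^ s) ^ ((p - 1) * r) =
      ∑ m, C m * (ξ ^ s) ^ (e m + (p - 1) * r) := by
    intro s _
    rw [sum_mul]
    refine sum_congr rfl fun m _ => ?_
    rw [pow_add]; ring
  rw [sum_congr rfl h1, sum_comm, mul_sum]
  refine sum_congr rfl fun m _ => ?_
  rw [← mul_sum]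
  by_cases h : (e m : ZMod p) = (r : ZMod p)
  · rw [if_pos h, sum_pow_eq_card hξ ((zmod_cond hp _ _).2 h)]; ring
  · rw [if_neg h, sum_pow_eq_zero hξ (fun h' => h ((zmod_cond hp _ _).1 h'))]; ring

lemma extract (hp : 0 < p) (hξ : IsPrimitiveRoot ξ p) (C : Fin N → ℂ) (e : Fin N → ℕ)
    (hR : ∀ s < p, ∑ m, C m * (ξ ^ s) ^ e m = 0) (r : ℕ) :
    ∑ m, (if (e m : ZMod p) = (r : ZMod p) then C m else 0) = 0 := by
  have h := extract_sum hp hξ C e r
  rw [sum_eq_zero (fun s hs => by rw [hR s (mem_range.1 hs), zero_mul])] at h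
  have hp' : (p : ℂ) ≠ 0 := by exact_mod_cast hp.ne'
  exact (mul_eq_zero.1 h.symm).resolve_left hp'

lemma fill (hp : 0 < p) (hN : N < p) (hξ : IsPrimitiveRoot ξ p) (C : Fin N → ℂ)
    (e : Fin N → ℕ) {s₀ : ℕ} (hs₀ : s₀ < p)
    (hR : ∀ s < p, s ≠ s₀ → ∑ m, C m * (ξ ^ s) ^ e m = 0) :
    ∑ m, C m * (ξ ^ s₀) ^ e m = 0 := by
  have : NeZero p := ⟨hp.ne'⟩
  obtain ⟨r, hr⟩ : ∃ r : ZMod p, ∀ m, (e m : ZMod p) ≠ r := by
    by_contra hcon
    push Not at hcon
    have hsurj : Function.Surjective (fun m : Fin N => (e m : ZMod p)) := hcon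
    have := Fintype.card_le_of_surjective _ hsurj
    rw [ZMod.card, Fintype.card_fin] at this
    omega
  have h := extract_sum hp hξ C e r.val
  rw [sum_eq_single_of_mem s₀ (mem_range.2 hs₀)] at h
  · have h2 : ∑ m, (if (e m : ZMod p) = ((r.val : ℕ) : ZMod p) then C m else 0) = 0 := by
      apply sum_eq_zero
      intro m _
      rw [if_neg]
      rw [ZMod.natCast_zmod_val]
      exact hr m
    rw [h2, mul_zero] at h
    have hξ0 : ξ ≠ 0 := hξ.ne_zero hp.ne'
    exact (mul_eq_zero.1 h).resolve_right (pow_ne_zero _ (pow_ne_zero _ hξ0))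
  · intro s hs hne
    rw [hR s (mem_range.1 hs) hne, zero_mul]

end Extract

section Twist

/-- coefficients of the six terms -/
def coef (x y : ℕ → ℂ) (i j k l : ℕ) : Fin 6 → ℂ :=
  ![(x i - x j) * (x k - x l) * (y i * y j), (x i - x j) * (x k - x l) * (y k * y l),
    -((x i - x k) * (x j - x l)) * (y i * y k), -((x i - x k) * (x j - x l)) * (y j * y l),
    (x i - x l) * (x j - x k) * (y i * y l), (x i - x l) * (x j - x k) * (y j * y k)]

/-- exponents of the six terms -/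
def expo (b : ℕ → ℕ) (i j k l : ℕ) : Fin 6 → ℕ :=
  ![b i + b j, b k + b l, b i + b k, b j + b l, b i + b l, b j + b k]

lemma six_term (x y : ℕ → ℂ) (b : ℕ → ℕ) (i j k l : ℕ) (ρ : ℂ)
    (h : Rel x (fun m => y m * ρ ^ b m) i j k l) :
    ∑ m, coef x y i j k l m * ρ ^ expo b i j k l m = 0 := by
  unfold Rel at h
  simp only [coef, expo, Fin.sum_univ_six, Matrix.cons_val, pow_add]
  linear_combination h

variable {c n p : ℕ} {ω : ℂ} {b : ℕ → ℕ}

lemma coprime_aux (hp : p.Prime) (hpn : p ∣ n) {s : ℕ} (h : ¬ p ∣ 1 + s * (n / p)) :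
    Nat.Coprime (1 + s * (n / p)) n := by
  rw [Nat.coprime_iff_gcd_eq_one]
  by_contra hcon
  obtain ⟨q, hq, hqd⟩ := Nat.exists_prime_and_dvd hcon
  have h1 : q ∣ 1 + s * (n / p) := hqd.trans (Nat.gcd_dvd_left _ _)
  have h2 : q ∣ n := hqd.trans (Nat.gcd_dvd_right _ _)
  by_cases hqp : q = p
  · subst hqp; exact h h1
  · have h3 : q ∣ p * (n / p) := by rwa [Nat.mul_div_cancel' hpn]
    have h4 : q ∣ n / p := by
      rcases (Nat.Prime.dvd_mul hq).1 h3 with h | h
      · exact absurd ((Nat.prime_dvd_prime_iff_eq hq hp).1 h) hqp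
      · exact h
    have h5 : q ∣ 1 := (Nat.dvd_add_left (h4.mul_left s)).1 h1
    exact hq.one_lt.ne' (Nat.dvd_one.1 h5)

lemma twist_good (hn : 0 < n) (hω : IsPrimitiveRoot ω n) (hp : p.Prime) (hc : 0 < c)
    (hpc : p * c ∣ n) {s : ℕ} (hs : Nat.Coprime (1 + s * (n / p)) n) {i j k l : ℕ}
    (h : Rel (fun m => (ω ^ (n / c)) ^ m) (fun m => ω ^ b m) i j k l) :
    Rel (fun m => (ω ^ (n / c)) ^ m) (fun m => ω ^ b m * ((ω ^ (n / p)) ^ s) ^ b m) i j k l := by
  have h2 : Rel (fun m => ω ^ (n / c * m)) (fun m => ω ^ b m) i j k l := by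
    simpa only [pow_mul] using h
  have hω' : IsPrimitiveRoot (ω ^ (1 + s * (n / p))) n := hω.pow_of_coprime _ hs
  have h3 := rel_transfer hn hω (hω'.isRoot_cyclotomic hn) h2
  obtain ⟨m, hm⟩ := hpc
  have e1 : n / p = c * m := by
    rw [hm, mul_assoc]; exact Nat.mul_div_cancel_left _ hp.pos
  have e2 : n / c = p * m := by
    rw [hm, show p * c * m = c * (p * m) by ring]; exact Nat.mul_div_cancel_left _ hc
  have hx : ∀ m' : ℕ, (ω ^ (1 + s * (n / p))) ^ (n / c * m') = (ω ^ (n / c)) ^ m' := by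
    intro m'
    rw [← pow_mul, ← pow_mul, add_mul, one_mul, pow_add]
    have : s * (n / p) * (n / c * m') = n * (s * m * m') := by
      rw [e1, e2, hm]; ring
    rw [this, pow_mul ω n, hω.pow_eq_one, one_pow, mul_one]
  have hy : ∀ m' : ℕ, (ω ^ (1 + s * (n / p))) ^ (b m') =
      ω ^ b m' * ((ω ^ (n / p)) ^ s) ^ b m' := by
    intro m'
    rw [← pow_mul, ← pow_mul, ← pow_mul, ← pow_add]
    congr 1
    ring
  simpa only [hx, hy] using h3

lemma twist_all (hn : 0 < n) (hω : IsPrimitiveRoot ω n) (hp : p.Prime) (hc : 0 < c)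
    (hpc : p * c ∣ n) (hcond : p ^ 2 ∣ n ∨ 7 ≤ p) {i j k l : ℕ}
    (h : Rel (fun m => (ω ^ (n / c)) ^ m) (fun m => ω ^ b m) i j k l) :
    ∀ s < p, ∑ m, coef (fun m => (ω ^ (n / c)) ^ m) (fun m => ω ^ b m) i j k l m *
      ((ω ^ (n / p)) ^ s) ^ expo b i j k l m = 0 := by
  have hpn : p ∣ n := (Dvd.intro _ rfl : p ∣ p * c).trans hpc
  have hξ : IsPrimitiveRoot (ω ^ (n / p)) p :=
    hω.pow hn (show n = n / p * p from (Nat.div_mul_cancel hpn).symm)
  have good : ∀ s, ¬ p ∣ 1 + s * (n / p) →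
      ∑ m, coef (fun m => (ω ^ (n / c)) ^ m) (fun m => ω ^ b m) i j k l m *
      ((ω ^ (n / p)) ^ s) ^ expo b i j k l m = 0 := by
    intro s hs
    exact six_term _ _ _ _ _ _ _ _ (twist_good hn hω hp hc hpc (coprime_aux hp hpn hs) h)
  by_cases hp2 : p ^ 2 ∣ n
  · intro s _
    apply good
    intro hd
    obtain ⟨m, hm⟩ := hp2
    have e1 : n / p = p * m := by
      rw [hm, pow_two, mul_assoc]; exact Nat.mul_div_cancel_left _ hp.pos
    have h1 : p ∣ s * (n / p) := by rw [e1]; exact Dvd.intro (s * m) (by ring)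
    have h5 : p ∣ 1 := (Nat.dvd_add_left h1).1 hd
    exact hp.one_lt.ne' (Nat.dvd_one.1 h5)
  · have hp7 : 7 ≤ p := hcond.resolve_left hp2
    intro s hs
    by_cases hgood : p ∣ 1 + s * (n / p)
    · apply fill hp.pos (by omega) hξ _ _ hs
      intro s' hs' hne
      apply good
      intro hd
      apply hne
      -- both s, s' bad
      have h1 : (1 + s * (n / p)) ≡ (1 + s' * (n / p)) [MOD p] :=
        ((Nat.modEq_zero_iff_dvd).2 hgood).trans ((Nat.modEq_zero_iff_dvd).2 hd).symm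
      have h2 : s * (n / p) ≡ s' * (n / p) [MOD p] := Nat.ModEq.add_left_cancel' 1 h1
      have hcop : Nat.gcd p (n / p) = 1 := by
        rw [← Nat.coprime_iff_gcd_eq_one, Nat.Prime.coprime_iff_not_dvd hp]
        intro hd'
        apply hp2
        rw [pow_two]
        obtain ⟨m, hm⟩ := hd'
        refine ⟨m, ?_⟩
        rw [← Nat.mul_div_cancel' hpn, hm]; ring
      have h3 : s ≡ s' [MOD p] := Nat.ModEq.cancel_right_of_coprime hcop h2
      exact (Nat.ModEq.eq_of_lt_of_lt h3 hs hs').symm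
    · exact good s hgood

end Twist

end Pool.Agent.Helper99.Exotic
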