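import Mathlib
import Pool.Agent.Helper99.Descent

namespace Pool.Agent.Helper99.Exotic

open Finset Polynomial

/-- Data of an embedding together with a prime for which twisting is possible. -/
structure Dat (c n p : ℕ) (ω : ℂ) (b : ℕ → ℕ) : Prop where
  hn : 0 < n
  hω : IsPrimitiveRoot ω n
  hp : p.Prime
  hc : 4 ≤ c
  hpc : p * c ∣ n
  hcond : p ^ 2 ∣ n ∨ 7 ≤ p
  hinj : ∀ i < c, ∀ j < c, ω ^ b i = ω ^ b j → i = j
  hrel : ∀ i < c, ∀ j < c, ∀ k < c, ∀ l < c,
    Rel (fun m => (ω ^ (n / c)) ^ m) (fun m => ω ^ b m) i j k l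

namespace Dat

variable {c n p : ℕ} {ω : ℂ} {b : ℕ → ℕ}

lemma hcn (D : Dat c n p ω b) : c ∣ n := (Dvd.intro_left p rfl : c ∣ p * c).trans D.hpc

lemma hpn (D : Dat c n p ω b) : p ∣ n := (Dvd.intro c rfl : p ∣ p * c).trans D.hpc

lemma root_c (D : Dat c n p ω b) : IsPrimitiveRoot (ω ^ (n / c)) c :=
  D.hω.pow D.hn (show n = n / c * c from (Nat.div_mul_cancel D.hcn).symm)

lemma root_p (D : Dat c n p ω b) : IsPrimitiveRoot (ω ^ (n / p)) p :=
  D.hω.pow D.hn (show n = n / p * p from (Nat.div_mul_cancel D.hpn).symm)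

lemma x_ne (D : Dat c n p ω b) {i j : ℕ} (hi : i < c) (hj : j < c) (h : i ≠ j) :
    (ω ^ (n / c)) ^ i - (ω ^ (n / c)) ^ j ≠ 0 :=
  sub_ne_zero.2 fun h' => h (D.root_c.pow_inj hi hj h')

lemma y_ne (D : Dat c n p ω b) {i j : ℕ} (hi : i < c) (hj : j < c) (h : i ≠ j) :
    ω ^ b i - ω ^ b j ≠ 0 :=
  sub_ne_zero.2 fun h' => h (D.hinj i hi j hj h')

lemma y_ne_zero (D : Dat c n p ω b) (i : ℕ) : ω ^ b i ≠ 0 :=
  pow_ne_zero _ (D.hω.ne_zero D.hn.ne')

lemma class_sum (D : Dat c n p ω b) {i j k l : ℕ} (hi : i < c) (hj : j < c) (hk : k < c)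
    (hl : l < c) (r : ℕ) :
    ∑ m, (if (expo b i j k l m : ZMod p) = (r : ZMod p) then
      coef (fun m => (ω ^ (n / c)) ^ m) (fun m => ω ^ b m) i j k l m else 0) = 0 :=
  extract D.hp.pos D.root_p _ _
    (twist_all D.hn D.hω D.hp (by have := D.hc; omega) D.hpc D.hcond
      (D.hrel i hi j hj k hk l hl)) r

lemma HS (D : Dat c n p ω b) {i j k l : ℕ} (hi : i < c) (hj : j < c) (hk : k < c)
    (hl : l < c) (hij : i ≠ j) (hkl : k ≠ l) (h1 : (b i : ZMod p) ≠ b k)
    (h2 : (b i : ZMod p) ≠ b l) (h3 : (b j : ZMod p) ≠ b k) (h4 : (b j : ZMod p) ≠ b l) :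
    (b i : ZMod p) + b j = b k + b l := by
  by_contra hne
  have h := D.class_sum hi hj hk hl (b i + b j)
  simp only [coef, expo, Fin.sum_univ_six, Matrix.cons_val] at h
  push_cast at h
  rw [if_neg (fun h' => hne h'.symm), if_neg (fun h' => h3 (by linear_combination -h')),
    if_neg (fun h' => h2 (by linear_combination -h')), if_neg (fun h' => h4 (by linear_combination -h')),
    if_neg (fun h' => h1 (by linear_combination -h'))] at h
  simp only [add_zero] at h
  exact mul_ne_zero (mul_ne_zero (D.x_ne hi hj hij) (D.x_ne hk hl hkl))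
    (mul_ne_zero (D.y_ne_zero i) (D.y_ne_zero j)) h

lemma HA (D : Dat c n p ω b) {i j k l : ℕ} (hi : i < c) (hj : j < c) (hk : k < c)
    (hl : l < c) (hij : i ≠ j) (hik : i ≠ k) (hjk : j ≠ k) (hil : i ≠ l) (hjl : j ≠ l)
    (hkl : k ≠ l) (h1 : (b i : ZMod p) = b j) (h2 : (b j : ZMod p) = b k) :
    (b l : ZMod p) = b i := by
  by_contra hne
  have E1 := D.class_sum hi hj hk hl (b i + b j)
  have E2 := D.class_sum hi hj hk hl (b i + b l)
  simp only [coef, expo, Fin.sum_univ_six, Matrix.cons_val] at E1 E2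
  push_cast at E1 E2
  rw [if_neg (fun h' => hne (by linear_combination h' + h2)),
    if_pos (by rw [← h2]),
    if_neg (fun h' => hne (by linear_combination h')),
    if_neg (fun h' => hne (by linear_combination h' - h1)),
    if_pos (by rw [← h2, h1])] at E1
  rw [if_neg (fun h' => hne (by linear_combination -h' - h1)),
    if_pos (by rw [← h2, ← h1]),
    if_neg (fun h' => hne (by linear_combination -h' - h1 - h2)),
    if_pos (by rw [← h1]),
    if_neg (fun h' => hne (by linear_combination -h' - h1 - h1 - h2))] at E2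
  simp only [add_zero, zero_add] at E1 E2
  have X1 := D.x_ne hi hk hik
  have X2 := D.x_ne hj hl hjl
  have Y1 := D.y_ne hj hi (Ne.symm hij)
  have Y2 := D.y_ne hj hk hjk
  have Y3 := D.y_ne_zero l
  generalize (ω ^ (n / c)) ^ i = xi at *
  generalize (ω ^ (n / c)) ^ j = xj at *
  generalize (ω ^ (n / c)) ^ k = xk at *
  generalize (ω ^ (n / c)) ^ l = xl at *
  generalize ω ^ b i = yi at *
  generalize ω ^ b j = yj at *
  generalize ω ^ b k = yk at *
  generalize ω ^ b l = yl at *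
  have E2' : (xi - xj) * (xk - xl) * yk - (xi - xk) * (xj - xl) * yj
      + (xi - xl) * (xj - xk) * yi = 0 := by
    have : yl * ((xi - xj) * (xk - xl) * yk - (xi - xk) * (xj - xl) * yj
      + (xi - xl) * (xj - xk) * yi) = 0 := by linear_combination E2
    exact (mul_eq_zero.1 this).resolve_left Y3
  have : (xi - xk) * (xj - xl) * ((yj - yi) * (yj - yk)) = 0 := by
    linear_combination -E1 - yj * E2'
  exact mul_ne_zero (mul_ne_zero X1 X2) (mul_ne_zero Y1 Y2) this

end Dat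

end Pool.Agent.Helper99.Exotic
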