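import Mathlib
import Pool.Agent.Helper99.Comb
import Pool.Agent.Helper99.Step

namespace Pool.Agent.Helper99.Exotic

open Finset Polynomial

lemma Dat.all_eq {c n p : ℕ} {ω : ℂ} {b : ℕ → ℕ} (D : Dat c n p ω b) (h5 : 5 ≤ c) :
    ∀ k < c, (b k : ZMod p) = b 0 := by
  have : Fact p.Prime := ⟨D.hp⟩
  have HA' : ∀ i j k l : Fin 5, i ≠ j → i ≠ k → j ≠ k → i ≠ l → j ≠ l → k ≠ l →
      (b i : ZMod p) = b j → (b j : ZMod p) = b k → (b l : ZMod p) = b i := by
    intro i j k l hij hik hjk hil hjl hkl e1 e2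
    exact D.HA (by have := i.2; omega) (by have := j.2; omega) (by have := k.2; omega)
      (by have := l.2; omega) (fun h => hij (Fin.ext h)) (fun h => hik (Fin.ext h))
      (fun h => hjk (Fin.ext h)) (fun h => hil (Fin.ext h)) (fun h => hjl (Fin.ext h))
      (fun h => hkl (Fin.ext h)) e1 e2
  have H5 : ∀ k : Fin 5, (b k : ZMod p) = b (0 : Fin 5) := by
    by_cases hp2 : p = 2
    · subst hp2
      exact comb_two (fun k : Fin 5 => (b k : ZMod 2)) HA'
    · have hdouble : ∀ x : ZMod p, x + x = 0 → x = 0 := by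
        intro x hx
        have h2 : (2 : ZMod p) ≠ 0 := by
          intro h
          have : ((2 : ℕ) : ZMod p) = 0 := by exact_mod_cast h
          rw [ZMod.natCast_eq_zero_iff] at this
          exact hp2 ((Nat.prime_dvd_prime_iff_eq D.hp Nat.prime_two).1 this)
        have : (2 : ZMod p) * x = 0 := by rw [two_mul]; exact hx
        exact (mul_eq_zero.1 this).resolve_left h2
      refine comb_odd hdouble (fun k : Fin 5 => (b k : ZMod p)) ?_ HA'
      intro i j k l hij hkl e1 e2 e3 e4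
      exact D.HS (by have := i.2; omega) (by have := j.2; omega) (by have := k.2; omega)
          (by have := l.2; omega) (fun h => hij (Fin.ext h)) (fun h => hkl (Fin.ext h)) e1 e2 e3 e4
  intro k hk
  have h0 : ∀ m : ℕ, m < 5 → (b m : ZMod p) = b 0 := fun m hm => H5 ⟨m, hm⟩
  by_cases hk5 : k < 5
  · exact h0 k hk5
  · exact D.HA (i := 0) (j := 1) (k := 2) (l := k) (by omega) (by omega) (by omega) hk
      (by omega) (by omega) (by omega) (by omega) (by omega) (by omega)
      (h0 1 (by omega)).symm (by rw [h0 1 (by omega), h0 2 (by omega)])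

lemma exists_prime {c n M : ℕ} (hn : 0 < n) (hM : 0 < M) (hc : 0 < c) (hcn : c ∣ n)
    (hcM : c ∣ M) (h30 : 30 ∣ M) (hnM : ¬ n ∣ M) :
    ∃ p, p.Prime ∧ p * c ∣ n ∧ (p ^ 2 ∣ n ∨ 7 ≤ p) := by
  rw [← Nat.factorization_prime_le_iff_dvd hn.ne' hM.ne'] at hnM
  push Not at hnM
  obtain ⟨p, hp, hlt⟩ := hnM
  refine ⟨p, hp, ?_, ?_⟩
  · rw [← Nat.factorization_prime_le_iff_dvd (mul_ne_zero hp.ne_zero hc.ne') hn.ne']
    intro q hq
    rw [Nat.factorization_mul hp.ne_zero hc.ne', Finsupp.add_apply]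
    by_cases hqp : q = p
    · subst hqp
      have h1 := (Nat.factorization_le_iff_dvd hc.ne' hM.ne').2 hcM q
      rw [Nat.Prime.factorization_self hq]
      omega
    · have h1 := (Nat.factorization_le_iff_dvd hc.ne' hn.ne').2 hcn q
      have h2 : p.factorization q = 0 := by
        rw [Nat.Prime.factorization hp, Finsupp.single_apply, if_neg (Ne.symm hqp)]
      rw [h2]
      omega
  · by_cases hp7 : 7 ≤ p
    · right; exact hp7
    · left
      push Not at hp7
      have hp30 : p ∣ 30 := by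
        interval_cases p
        · exact absurd hp (by norm_num)
        · exact absurd hp (by norm_num)
        · norm_num
        · norm_num
        · exact absurd hp (by norm_num)
        · norm_num
        · exact absurd hp (by norm_num)
      have h1 : 1 ≤ M.factorization p :=
        (Nat.Prime.dvd_iff_one_le_factorization hp hM.ne').1 (hp30.trans h30)
      rw [Nat.Prime.pow_dvd_iff_le_factorization hp hn.ne']
      omega

/-- The standard primitive root. -/
noncomputable def e (n : ℕ) : ℂ := Complex.exp (2 * Real.pi * Complex.I / n)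

lemma e_prim {n : ℕ} (hn : 0 < n) : IsPrimitiveRoot (e n) n :=
  Complex.isPrimitiveRoot_exp n hn.ne'

lemma e_pow {n c : ℕ} (hn : 0 < n) (hc : 0 < c) (h : c ∣ n) : e n ^ (n / c) = e c := by
  unfold e
  rw [← Complex.exp_nat_mul]
  congr 1
  obtain ⟨m, rfl⟩ := h
  have hm : m ≠ 0 := by rintro rfl; simp at hn
  rw [Nat.mul_div_cancel_left m hc]
  have : (c : ℂ) ≠ 0 := by exact_mod_cast hc.ne'
  have : (m : ℂ) ≠ 0 := by exact_mod_cast hm
  push_cast
  field_simp

lemma Rel.congr {K : Type*} [CommRing K] {x y y' : ℕ → K} {i j k l : ℕ}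
    (h : Rel x y i j k l) (hi : y i = y' i) (hj : y j = y' j) (hk : y k = y' k)
    (hl : y l = y' l) : Rel x y' i j k l := by
  unfold Rel at *
  rw [← hi, ← hj, ← hk, ← hl]
  exact h

/-- Construct the exponent function. -/
lemma exists_expo {c n : ℕ} (hn : 0 < n) {y : ℕ → ℂ} (hy : ∀ k < c, y k ^ n = 1) :
    ∃ b : ℕ → ℕ, ∀ k < c, b k < n ∧ e n ^ b k = y k := by
  have : NeZero n := ⟨hn.ne'⟩
  have h : ∀ k, ∃ m, k < c → m < n ∧ e n ^ m = y k := by
    intro k
    by_cases hk : k < c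
    · obtain ⟨i, hi, hi'⟩ := (e_prim hn).eq_pow_of_pow_eq_one (hy k hk)
      exact ⟨i, fun _ => ⟨hi, hi'⟩⟩
    · exact ⟨0, fun h => absurd h hk⟩
  choose b hb using h
  exact ⟨b, hb⟩

/-- Hypotheses on an embedding. -/
structure Emb (c : ℕ) (y : ℕ → ℂ) : Prop where
  hc : 4 ≤ c
  y0 : y 0 = 1
  hinj : ∀ i < c, ∀ j < c, y i = y j → i = j
  hrel : ∀ i < c, ∀ j < c, ∀ k < c, ∀ l < c, Rel (fun m => (e c) ^ m) y i j k l

lemma Emb.dat {c n p : ℕ} {y : ℕ → ℂ} (E : Emb c y) (hn : 0 < n) (hp : p.Prime)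
    (hpc : p * c ∣ n) (hcond : p ^ 2 ∣ n ∨ 7 ≤ p) {b : ℕ → ℕ}
    (hb : ∀ k < c, b k < n ∧ e n ^ b k = y k) : Dat c n p (e n) b where
  hn := hn
  hω := e_prim hn
  hp := hp
  hc := E.hc
  hpc := hpc
  hcond := hcond
  hinj := by
    intro i hi j hj h
    rw [(hb i hi).2, (hb j hj).2] at h
    exact E.hinj i hi j hj h
  hrel := by
    intro i hi j hj k hk l hl
    have h := E.hrel i hi j hj k hk l hl
    rw [e_pow hn (by have := E.hc; omega) ((Dvd.intro_left p rfl : c ∣ p * c).trans hpc)]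
    exact h.congr (hb i hi).2.symm (hb j hj).2.symm (hb k hk).2.symm (hb l hl).2.symm

/-- Descent: the order of the image is bounded. -/
theorem bounded_order {c M : ℕ} (h5 : 5 ≤ c) (hcM : c ∣ M) (h30 : 30 ∣ M) (hM : 0 < M)
    {y : ℕ → ℂ} (E : Emb c y) : ∀ n, 0 < n → c ∣ n → (∀ k < c, y k ^ n = 1) →
      ∀ k < c, y k ^ M = 1 := by
  intro n
  induction n using Nat.strong_induction_on with
  | _ n ih =>
    intro hn hcn hy
    by_cases hnM : n ∣ M
    · intro k hk
      obtain ⟨m, rfl⟩ := hnM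
      rw [pow_mul, hy k hk, one_pow]
    · obtain ⟨p, hp, hpc, hcond⟩ := exists_prime hn hM (by omega) hcn hcM h30 hnM
      obtain ⟨b, hb⟩ := exists_expo hn hy
      have D := E.dat hn hp hpc hcond hb
      have hall := D.all_eq h5
      have hpn : p ∣ n := D.hpn
      obtain ⟨m, hm⟩ := hpc
      have e1 : n / p = c * m := by
        rw [hm, mul_assoc]; exact Nat.mul_div_cancel_left _ hp.pos
      have h0 : (b 0 : ZMod p) = 0 := by
        have h1 : e n ^ b 0 = 1 := by rw [(hb 0 (by omega)).2, E.y0]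
        have h2 : n ∣ b 0 := ((e_prim hn).pow_eq_one_iff_dvd _).1 h1
        rw [ZMod.natCast_eq_zero_iff]
        exact hpn.trans h2
      have hm0 : 0 < c * m := by
        rcases Nat.eq_zero_or_pos (c * m) with h | h
        · rw [mul_assoc, h, mul_zero] at hm; omega
        · exact h
      apply ih (n / p) (Nat.div_lt_self hn hp.one_lt) (by rw [e1]; exact hm0)
        (by rw [e1]; exact Dvd.intro m rfl)
      intro k hk
      have h1 : p ∣ b k := by
        rw [← ZMod.natCast_eq_zero_iff, hall k hk, h0]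
      rw [← (hb k hk).2, ← pow_mul, (e_prim hn).pow_eq_one_iff_dvd]
      obtain ⟨q, hq⟩ := h1
      refine ⟨q, ?_⟩
      rw [hq, e1, hm]; ring

end Pool.Agent.Helper99.Exotic
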