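import Mathlib

/-!
# Definitions for the classification of exotic embeddings of roots of unity
-/

namespace Pool.Agent.Helper99.Exotic

open OnePoint

/-- An embedding `ℓ : μ_c → μ_n` is exotic if it is injective and there is a Moebius
transformation `T` of the Riemann sphere (an element of `GL(2, ℂ)` acting on `OnePoint ℂ`)
with `T ζ = ℓ ζ` for every `ζ ∈ μ_c` and `T 0 ∉ {0, ∞}`. -/
def IsExotic {c n : ℕ} (ℓ : rootsOfUnity c ℂ → rootsOfUnity n ℂ) : Prop :=
  Function.Injective ℓ ∧ ∃ T : GL (Fin 2) ℂ,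
    (∀ ζ : rootsOfUnity c ℂ,
      T • (((ζ : ℂˣ) : ℂ) : OnePoint ℂ) = (((ℓ ζ : ℂˣ) : ℂ) : OnePoint ℂ)) ∧
    T • ((0 : ℂ) : OnePoint ℂ) ≠ ((0 : ℂ) : OnePoint ℂ) ∧ T • ((0 : ℂ) : OnePoint ℂ) ≠ ∞

/-- The three elementary operations on maps `μ_c → μ_n`. -/
inductive Step {c n : ℕ} :
    (rootsOfUnity c ℂ → rootsOfUnity n ℂ) → (rootsOfUnity c ℂ → rootsOfUnity n ℂ) → Prop
  | mulTarget (ℓ : rootsOfUnity c ℂ → rootsOfUnity n ℂ) (η : rootsOfUnity n ℂ) :
      Step ℓ (fun ζ => η * ℓ ζ)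
  | mulSource (ℓ : rootsOfUnity c ℂ → rootsOfUnity n ℂ) (ω : rootsOfUnity c ℂ) :
      Step ℓ (fun ζ => ℓ (ω * ζ))
  | inv (ℓ : rootsOfUnity c ℂ → rootsOfUnity n ℂ) : Step ℓ (fun ζ => (ℓ ζ)⁻¹)

/-- Two maps are equivalent if the second is obtained from the first by a composition of
elementary operations. -/
def Equivalent {c n : ℕ} (ℓ ℓ' : rootsOfUnity c ℂ → rootsOfUnity n ℂ) : Prop :=
  Relation.ReflTransGen Step ℓ ℓ'

/-- Names of normal forms: a one-parameter family and six sporadic ones. -/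
inductive Code where
  | family (w : ℂ)
  | sporadic (j : Fin 6)

/-- The degree `c` of a sporadic normal form. -/
def degree : Fin 6 → ℕ := ![4, 5, 5, 5, 5, 5]

/-- The order of the group generated by the values of a sporadic normal form. -/
def order : Fin 6 → ℕ := ![12, 10, 30, 30, 30, 30]

/-- The exponents of a sporadic normal form. -/
def exponents : Fin 6 → List ℕ :=
  ![[0, 1, 3, 10], [0, 1, 2, 4, 8], [0, 1, 2, 5, 27], [0, 2, 4, 9, 25], [0, 2, 5, 16, 27],
    [0, 4, 9, 17, 25]]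

/-- The value of the normal form at `exp (2 π i k / c)`: the family with parameter `w` takes
the values `1, w, w ^ 2, - w` at `1, i, -1, -i`; the `j`-th sporadic normal form takes the value
`exp (2 π i a_k / N)` where `a_k` is the `k`-th exponent and `N` is its order. -/
noncomputable def Code.value : Code → ℕ → ℂ
  | .family w, k => [1, w, w ^ 2, -w].getD k 0
  | .sporadic j, k => Complex.exp (2 * Real.pi * Complex.I * ((exponents j).getD k 0 : ℕ) / order j)

/-- The normal forms that occur for given `c` and `n = c d`. -/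
def Code.Valid (c n : ℕ) : Code → Prop
  | .family w => c = 4 ∧ w ^ n = 1 ∧ w ^ 4 ≠ 1
  | .sporadic j => c = degree j ∧ order j ∣ n

/-- `ℓ` is the map described by the code `x`. -/
def Realizes {c n : ℕ} (ℓ : rootsOfUnity c ℂ → rootsOfUnity n ℂ) (x : Code) : Prop :=
  ∀ k < c, ∀ ζ : rootsOfUnity c ℂ,
    ((ζ : ℂˣ) : ℂ) = Complex.exp (2 * Real.pi * Complex.I * k / c) → ((ℓ ζ : ℂˣ) : ℂ) = x.value k

/-- The coincidences between normal forms. -/
def Code.Same : Code → Code → Prop
  | .family w, .family w' => w' = w ∨ w' = -w ∨ w' = w⁻¹ ∨ w' = -w⁻¹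
  | .sporadic j, .sporadic j' => j = j'
  | _, _ => False

end Pool.Agent.Helper99.Exotic
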