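import Mathlib

/-!
Finite checks modulo small primes, evaluated by the kernel.
-/

namespace Pool.Agent.Helper99.Exotic

/-- Bounded universal quantifier as a Boolean. -/
def allB : ℕ → (ℕ → Bool) → Bool
  | 0, _ => true
  | n + 1, f => f n && allB n f

lemma allB_spec {n : ℕ} {f : ℕ → Bool} (h : allB n f = true) : ∀ k < n, f k = true := by
  induction n with
  | zero => intro k hk; omega
  | succ n ih =>
    intro k hk
    rw [allB, Bool.and_eq_true] at h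
    rcases Nat.lt_succ_iff_lt_or_eq.1 hk with h' | h'
    · exact ih h.2 k h'
    · rw [h']; exact h.1

/-- Modular cross-ratio relation for indices `0,1,2,k`. -/
def relN (q x0 x1 x2 x3 y0 y1 y2 y3 : ℕ) : Bool :=
  Nat.beq (((x0 + q - x2) * (x1 + q - x3) * ((y0 + q - y3) * (y1 + q - y2))) % q)
    (((x0 + q - x3) * (x1 + q - x2) * ((y0 + q - y2) * (y1 + q - y3))) % q)

/-- `B` (list of exponents) matches `b` up to equivalence. -/
def matchB (M : ℕ) (B b : List ℕ) : Bool :=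
  (List.range B.length).any fun r =>
    ((List.range B.length).all fun k =>
      Nat.beq ((b.getD k 0 + B.getD r 0) % M) (B.getD ((k + r) % B.length) 0 % M)) ||
    ((List.range B.length).all fun k =>
      Nat.beq ((b.getD k 0 + B.getD ((k + r) % B.length) 0) % M) (B.getD r 0 % M))

/-- Elimination of `y_k` from the modular cross-ratio relation by taking `M`-th powers. -/
def powN (q M x0 x1 x2 x3 y0 y1 y2 : ℕ) : Bool :=
  Nat.beq
    (((((x0 + q - x2) * (x1 + q - x3)) * (y1 + q - y2) +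
      (q - ((x0 + q - x3) * (x1 + q - x2) * (y0 + q - y2)) % q)) % q) ^ M % q)
    (((((x0 + q - x2) * (x1 + q - x3)) * (y1 + q - y2) * y0 +
      (q - ((x0 + q - x3) * (x1 + q - x2) * (y0 + q - y2)) % q) * y1) % q) ^ M % q)

def check5 : Bool :=
  allB 30 fun b1 => allB 30 fun b2 =>
    Nat.beq b1 0 || Nat.beq b2 0 || Nat.beq b1 b2 ||
    (Nat.beq b1 6 && Nat.beq b2 12) || (Nat.beq b1 24 && Nat.beq b2 18) ||
    !(powN 151 30 1 (75 ^ 6 % 151) (75 ^ 12 % 151) (75 ^ 18 % 151)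
      1 (75 ^ b1 % 151) (75 ^ b2 % 151)) ||
    allB 30 fun b3 =>
      Nat.beq b3 0 || Nat.beq b3 b1 || Nat.beq b3 b2 ||
      !(relN 151 1 (75 ^ 6 % 151) (75 ^ 12 % 151) (75 ^ 18 % 151)
        1 (75 ^ b1 % 151) (75 ^ b2 % 151) (75 ^ b3 % 151)) ||
      allB 30 fun b4 =>
        Nat.beq b4 0 || Nat.beq b4 b1 || Nat.beq b4 b2 || Nat.beq b4 b3 ||
        !(relN 151 1 (75 ^ 6 % 151) (75 ^ 12 % 151) (75 ^ 24 % 151)
          1 (75 ^ b1 % 151) (75 ^ b2 % 151) (75 ^ b4 % 151)) ||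
        (matchB 30 [0, 3, 6, 12, 24] [0, b1, b2, b3, b4] ||
         matchB 30 [0, 1, 2, 5, 27] [0, b1, b2, b3, b4] ||
         matchB 30 [0, 2, 4, 9, 25] [0, b1, b2, b3, b4] ||
         matchB 30 [0, 2, 5, 16, 27] [0, b1, b2, b3, b4] ||
         matchB 30 [0, 4, 9, 17, 25] [0, b1, b2, b3, b4])

theorem check5_true : check5 = true := by decide +kernel

def check6 : Bool :=
  allB 30 fun b1 => allB 30 fun b2 =>
    Nat.beq b1 0 || Nat.beq b2 0 || Nat.beq b1 b2 ||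
    (Nat.beq b1 5 && Nat.beq b2 10) || (Nat.beq b1 25 && Nat.beq b2 20) ||
    !(powN 151 30 1 (75 ^ 5 % 151) (75 ^ 10 % 151) (75 ^ 15 % 151)
      1 (75 ^ b1 % 151) (75 ^ b2 % 151)) ||
    allB 30 fun b3 =>
      Nat.beq b3 0 || Nat.beq b3 b1 || Nat.beq b3 b2 ||
      !(relN 151 1 (75 ^ 5 % 151) (75 ^ 10 % 151) (75 ^ 15 % 151)
        1 (75 ^ b1 % 151) (75 ^ b2 % 151) (75 ^ b3 % 151)) ||
      allB 30 fun b4 =>
        Nat.beq b4 0 || Nat.beq b4 b1 || Nat.beq b4 b2 || Nat.beq b4 b3 ||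
        !(relN 151 1 (75 ^ 5 % 151) (75 ^ 10 % 151) (75 ^ 20 % 151)
          1 (75 ^ b1 % 151) (75 ^ b2 % 151) (75 ^ b4 % 151)) ||
        allB 30 fun b5 =>
          Nat.beq b5 0 || Nat.beq b5 b1 || Nat.beq b5 b2 || Nat.beq b5 b3 || Nat.beq b5 b4 ||
          !(relN 151 1 (75 ^ 5 % 151) (75 ^ 10 % 151) (75 ^ 25 % 151)
            1 (75 ^ b1 % 151) (75 ^ b2 % 151) (75 ^ b5 % 151))

theorem check6_true : check6 = true := by decide +kernel

def check7 : Bool :=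
  allB 210 fun b1 => allB 210 fun b2 =>
    Nat.beq b1 0 || Nat.beq b2 0 || Nat.beq b1 b2 ||
    (Nat.beq b1 30 && Nat.beq b2 60) || (Nat.beq b1 180 && Nat.beq b2 150) ||
    !(powN 2311 210 1 (1511 ^ 30 % 2311) (1511 ^ 60 % 2311) (1511 ^ 90 % 2311)
      1 (1511 ^ b1 % 2311) (1511 ^ b2 % 2311)) ||
    !(powN 2311 210 1 (1511 ^ 30 % 2311) (1511 ^ 60 % 2311) (1511 ^ 120 % 2311)
      1 (1511 ^ b1 % 2311) (1511 ^ b2 % 2311)) ||
    !(powN 2311 210 1 (1511 ^ 30 % 2311) (1511 ^ 60 % 2311) (1511 ^ 150 % 2311)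
      1 (1511 ^ b1 % 2311) (1511 ^ b2 % 2311)) ||
    !(powN 2311 210 1 (1511 ^ 30 % 2311) (1511 ^ 60 % 2311) (1511 ^ 180 % 2311)
      1 (1511 ^ b1 % 2311) (1511 ^ b2 % 2311))

theorem check7_true : check7 = true := by decide +kernel

def check4 : Bool :=
  allB 60 fun b1 => allB 60 fun b2 =>
    Nat.beq b1 0 || Nat.beq b2 0 || Nat.beq b1 b2 ||
    !(powN 4861 60 1 (1636 ^ 15 % 4861) (1636 ^ 30 % 4861) (1636 ^ 45 % 4861)
      1 (1636 ^ b1 % 4861) (1636 ^ b2 % 4861)) ||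
    allB 60 fun b3 =>
    Nat.beq b3 0 || Nat.beq b3 b1 || Nat.beq b3 b2 ||
    !(relN 4861 1 (1636 ^ 15 % 4861) (1636 ^ 30 % 4861) (1636 ^ 45 % 4861)
        1 (1636 ^ b1 % 4861) (1636 ^ b2 % 4861) (1636 ^ b3 % 4861)) ||
    (Nat.beq ((b1 + 30) % 60) b3 && Nat.beq (2 * b1 % 60) b2) ||
    (Nat.beq b2 30 && Nat.beq ((b1 + b3) % 60) 0) ||
    matchB 60 [0, 5, 15, 50] [0, b1, b2, b3]

theorem check4_true : check4 = true := by decide +kernel

end Pool.Agent.Helper99.Exotic
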