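import Mathlib
import Pool.Agent.Helper99.Bound
import Pool.Agent.Helper99.Finite

namespace Pool.Agent.Helper99.Exotic

open Finset Polynomial

lemma relN_of_rel {q : ℕ} {x0 x1 x2 x3 y0 y1 y2 y3 : ℕ}
    (h : ((x0 : ZMod q) - x2) * (x1 - x3) * ((y0 - y3) * (y1 - y2)) =
      (x0 - x3) * (x1 - x2) * ((y0 - y2) * (y1 - y3)))
    (h2 : x2 < q) (h3 : x3 < q) (h2' : y2 < q) (h3' : y3 < q) :
    relN q x0 x1 x2 x3 y0 y1 y2 y3 = true := by
  unfold relN
  rw [Nat.beq_eq, ← ZMod.natCast_eq_natCast_iff']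
  push_cast [Nat.cast_sub (show x2 ≤ x0 + q by omega), Nat.cast_sub (show x3 ≤ x1 + q by omega),
    Nat.cast_sub (show y3 ≤ y0 + q by omega), Nat.cast_sub (show y2 ≤ y1 + q by omega),
    Nat.cast_sub (show x3 ≤ x0 + q by omega), Nat.cast_sub (show x2 ≤ x1 + q by omega),
    Nat.cast_sub (show y2 ≤ y0 + q by omega), Nat.cast_sub (show y3 ≤ y1 + q by omega)]
  simp only [CharP.cast_eq_zero, add_zero]
  exact h

lemma powN_of_rel {q M : ℕ} (hq : 0 < q) {x0 x1 x2 x3 y0 y1 y2 y3 : ℕ}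
    (h : ((x0 : ZMod q) - x2) * (x1 - x3) * ((y0 - y3) * (y1 - y2)) =
      (x0 - x3) * (x1 - x2) * ((y0 - y2) * (y1 - y3)))
    (h2 : x2 < q) (h3 : x3 < q) (h2' : y2 < q) (hy : (y3 : ZMod q) ^ M = 1) :
    powN q M x0 x1 x2 x3 y0 y1 y2 = true := by
  unfold powN
  rw [Nat.beq_eq, ← ZMod.natCast_eq_natCast_iff']
  have hle : ∀ t : ℕ, t % q ≤ q := fun t => (Nat.mod_lt t hq).le
  have key : ∀ t : ℕ, (((q - t % q : ℕ)) : ZMod q) = -(t : ZMod q) := by
    intro t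
    rw [Nat.cast_sub (hle t), CharP.cast_eq_zero, zero_sub, ZMod.natCast_mod]
  simp only [Nat.cast_pow, ZMod.natCast_mod, Nat.cast_add, Nat.cast_mul, key]
  push_cast [Nat.cast_sub (show x2 ≤ x0 + q by omega), Nat.cast_sub (show x3 ≤ x1 + q by omega),
    Nat.cast_sub (show y2 ≤ y1 + q by omega),
    Nat.cast_sub (show x3 ≤ x0 + q by omega), Nat.cast_sub (show x2 ≤ x1 + q by omega),
    Nat.cast_sub (show y2 ≤ y0 + q by omega)]
  simp only [CharP.cast_eq_zero, add_zero]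
  have e1 : ((x0 : ZMod q) - x2) * (x1 - x3) * (y1 - y2) * y0 +
      -((x0 - x3) * (x1 - x2) * (y0 - y2)) * y1 =
      (((x0 : ZMod q) - x2) * (x1 - x3) * (y1 - y2) +
      -((x0 - x3) * (x1 - x2) * (y0 - y2))) * y3 := by linear_combination h
  rw [e1, mul_pow, hy, mul_one]

/-- Transfer of an embedding of bounded order to a finite field, in natural-number form. -/
lemma Emb.modular {c M q g : ℕ} {y : ℕ → ℂ} (E : Emb c y) (hM : 0 < M) (hcM : c ∣ M)
    (hq : q.Prime) (hg : IsPrimitiveRoot (g : ZMod q) M) {b : ℕ → ℕ}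
    (hb : ∀ k < c, b k < M ∧ e M ^ b k = y k) {k : ℕ} (hk : k < c) :
    relN q (g ^ (M / c * 0) % q) (g ^ (M / c * 1) % q) (g ^ (M / c * 2) % q) (g ^ (M / c * k) % q)
      (g ^ b 0 % q) (g ^ b 1 % q) (g ^ b 2 % q) (g ^ b k % q) = true ∧
    powN q M (g ^ (M / c * 0) % q) (g ^ (M / c * 1) % q) (g ^ (M / c * 2) % q)
      (g ^ (M / c * k) % q) (g ^ b 0 % q) (g ^ b 1 % q) (g ^ b 2 % q) = true := by
  have := Fact.mk hq
  have hc := E.hc
  have h1 := E.hrel 0 (by omega) 1 (by omega) 2 (by omega) k hk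
  have h2 : Rel (fun m => e M ^ (M / c * m)) (fun m => e M ^ b m) 0 1 2 k := by
    have h3 := h1.congr (y' := fun m => e M ^ b m) (hb 0 (by omega)).2.symm
      (hb 1 (by omega)).2.symm (hb 2 (by omega)).2.symm (hb k hk).2.symm
    rw [← e_pow hM (by omega) hcM] at h3
    simpa only [pow_mul] using h3
  have h3 := rel_transfer hM (e_prim hM) (hg.isRoot_cyclotomic hM) h2
  unfold Rel at h3
  have hlt : ∀ t : ℕ, t % q < q := fun t => Nat.mod_lt t hq.pos
  refine ⟨?_, ?_⟩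
  · apply relN_of_rel _ (hlt _) (hlt _) (hlt _) (hlt _)
    simp only [ZMod.natCast_mod, Nat.cast_pow]
    exact h3
  · apply powN_of_rel (y3 := g ^ b k % q) hq.pos _ (hlt _) (hlt _) (hlt _)
    · simp only [ZMod.natCast_mod, Nat.cast_pow]
      rw [← pow_mul, mul_comm, pow_mul, hg.pow_eq_one, one_pow]
    · simp only [ZMod.natCast_mod, Nat.cast_pow]
      exact h3

lemma prim_151 : IsPrimitiveRoot ((75 : ℕ) : ZMod 151) 30 := by
  have h : IsPrimitiveRoot (75 : ZMod 151) 30 := by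
    have h1 : ∀ l < 30, 0 < l → (75 : ZMod 151) ^ l ≠ 1 := by decide +kernel
    exact IsPrimitiveRoot.mk_of_lt _ (by norm_num) (by decide +kernel) fun l h0 hl => h1 l hl h0
  exact_mod_cast h

lemma prim_2311 : IsPrimitiveRoot ((1511 : ℕ) : ZMod 2311) 210 := by
  have h : IsPrimitiveRoot (1511 : ZMod 2311) 210 := by
    have h1 : ∀ l < 210, 0 < l → (1511 : ZMod 2311) ^ l ≠ 1 := by decide +kernel
    exact IsPrimitiveRoot.mk_of_lt _ (by norm_num) (by decide +kernel) fun l h0 hl => h1 l hl h0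
  exact_mod_cast h

lemma prim_4861 : IsPrimitiveRoot ((1636 : ℕ) : ZMod 4861) 60 := by
  have h : IsPrimitiveRoot (1636 : ZMod 4861) 60 := by
    have h1 : ∀ l < 60, 0 < l → (1636 : ZMod 4861) ^ l ≠ 1 := by decide +kernel
    exact IsPrimitiveRoot.mk_of_lt _ (by norm_num) (by decide +kernel) fun l h0 hl => h1 l hl h0
  exact_mod_cast h

end Pool.Agent.Helper99.Exotic
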