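import Mathlib
import Pool.Agent.Helper99.Link

namespace Pool.Agent.Helper99.Exotic

open Finset Polynomial

/-- The first values are those of a rotation or an inversion. -/
def Rot (c : ℕ) (y : ℕ → ℂ) : Prop :=
  (y 1 = e c ∧ y 2 = e c ^ 2) ∨ (y 1 * e c = 1 ∧ y 2 * e c ^ 2 = 1)

/-- `y` agrees with the model with exponents `B` up to equivalence. -/
def MatchE (M : ℕ) (B : List ℕ) (y : ℕ → ℂ) : Prop :=
  ∃ r < B.length,
    (∀ k < B.length, y k * e M ^ (B.getD r 0) = e M ^ (B.getD ((k + r) % B.length) 0)) ∨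
    (∀ k < B.length, y k * e M ^ (B.getD ((k + r) % B.length) 0) = e M ^ (B.getD r 0))

lemma e_pow_eq_of_mod {M a b : ℕ} (hM : 0 < M) (h : a % M = b % M) : e M ^ a = e M ^ b := by
  rw [← pow_mod_orderOf (e M) a, ← pow_mod_orderOf (e M) b, ← (e_prim hM).eq_orderOf, h]

lemma matchE_of_matchB {M : ℕ} (hM : 0 < M) {B b : List ℕ} {y : ℕ → ℂ}
    (hb : ∀ k < B.length, y k = e M ^ (b.getD k 0)) (h : matchB M B b = true) :
    MatchE M B y := by
  unfold matchB at h
  rw [List.any_eq_true] at h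
  obtain ⟨r, hr, h⟩ := h
  rw [List.mem_range] at hr
  refine ⟨r, hr, ?_⟩
  rw [Bool.or_eq_true, List.all_eq_true, List.all_eq_true] at h
  rcases h with h | h
  · left
    intro k hk
    have := h k (List.mem_range.2 hk)
    rw [Nat.beq_eq] at this
    rw [hb k hk, ← pow_add]
    exact e_pow_eq_of_mod hM this
  · right
    intro k hk
    have := h k (List.mem_range.2 hk)
    rw [Nat.beq_eq] at this
    rw [hb k hk, ← pow_add]
    exact e_pow_eq_of_mod hM this

lemma Emb.b_ne {c M : ℕ} {y : ℕ → ℂ} (E : Emb c y) {b : ℕ → ℕ}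
    (hb : ∀ k < c, b k < M ∧ e M ^ b k = y k) {i j : ℕ} (hi : i < c) (hj : j < c) (hij : i ≠ j) :
    b i ≠ b j := by
  intro h
  apply hij
  apply E.hinj i hi j hj
  rw [← (hb i hi).2, ← (hb j hj).2, h]

lemma Emb.b0 {c M : ℕ} {y : ℕ → ℂ} (hM : 0 < M) (E : Emb c y) {b : ℕ → ℕ}
    (hb : ∀ k < c, b k < M ∧ e M ^ b k = y k) : b 0 = 0 := by
  have hc := E.hc
  obtain ⟨h1, h2⟩ := hb 0 (by omega)
  rw [E.y0, (e_prim hM).pow_eq_one_iff_dvd] at h2
  exact Nat.eq_zero_of_dvd_of_lt h2 h1

lemma beq_ne {a b : ℕ} (h : a ≠ b) : Nat.beq a b = false := by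
  rw [← Bool.not_eq_true, Nat.beq_eq]; exact h

lemma bor_left {a b : Bool} (h : (a || b) = true) (ha : a = false) : b = true := by
  simpa [ha] using h

theorem emb5 {y : ℕ → ℂ} (E : Emb 5 y) {n : ℕ} (hn : 0 < n) (hcn : 5 ∣ n)
    (hy : ∀ k < 5, y k ^ n = 1) :
    Rot 5 y ∨ MatchE 30 [0, 3, 6, 12, 24] y ∨ MatchE 30 [0, 1, 2, 5, 27] y ∨
      MatchE 30 [0, 2, 4, 9, 25] y ∨ MatchE 30 [0, 2, 5, 16, 27] y ∨
      MatchE 30 [0, 4, 9, 17, 25] y := by
  have hy30 := bounded_order (M := 30) (by norm_num) (by norm_num) (by norm_num) (by norm_num)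
    E n hn hcn hy
  obtain ⟨b, hb⟩ := exists_expo (by norm_num : 0 < 30) hy30
  have h0 := E.b0 (by norm_num) hb
  have h3 := E.modular (by norm_num) (by norm_num) (by norm_num : Nat.Prime 151) prim_151 hb
    (show 3 < 5 by norm_num)
  have h4 := E.modular (by norm_num) (by norm_num) (by norm_num : Nat.Prime 151) prim_151 hb
    (show 4 < 5 by norm_num)
  have hchk := check5_true
  unfold check5 at hchk
  have n01 : b 1 ≠ 0 := by have := E.b_ne hb (i := 1) (j := 0) (by norm_num) (by norm_num) (by norm_num); rwa [h0] at this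
  have n02 : b 2 ≠ 0 := by have := E.b_ne hb (i := 2) (j := 0) (by norm_num) (by norm_num) (by norm_num); rwa [h0] at this
  have n03 : b 3 ≠ 0 := by have := E.b_ne hb (i := 3) (j := 0) (by norm_num) (by norm_num) (by norm_num); rwa [h0] at this
  have n04 : b 4 ≠ 0 := by have := E.b_ne hb (i := 4) (j := 0) (by norm_num) (by norm_num) (by norm_num); rwa [h0] at this
  have n12 := E.b_ne hb (i := 1) (j := 2) (by norm_num) (by norm_num) (by norm_num)
  have n31 := E.b_ne hb (i := 3) (j := 1) (by norm_num) (by norm_num) (by norm_num)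
  have n32 := E.b_ne hb (i := 3) (j := 2) (by norm_num) (by norm_num) (by norm_num)
  have n41 := E.b_ne hb (i := 4) (j := 1) (by norm_num) (by norm_num) (by norm_num)
  have n42 := E.b_ne hb (i := 4) (j := 2) (by norm_num) (by norm_num) (by norm_num)
  have n43 := E.b_ne hb (i := 4) (j := 3) (by norm_num) (by norm_num) (by norm_num)
  have c1 := allB_spec (allB_spec hchk (b 1) (hb 1 (by norm_num)).1) (b 2) (hb 2 (by norm_num)).1
  rw [h0] at h3 h4
  simp only [Nat.reduceDiv, Nat.reduceMul, pow_zero] at h3 h4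
  rw [show (1 : ℕ) % 151 = 1 from rfl] at h3 h4
  obtain ⟨h3a, h3b⟩ := h3
  obtain ⟨h4a, -⟩ := h4
  simp only [beq_ne n01, beq_ne n02, beq_ne n12, Bool.false_or, Bool.or_false, h3b, Bool.not_true,
    Bool.or_eq_true, Bool.and_eq_true, Nat.beq_eq] at c1
  rcases c1 with (⟨c1, c2⟩ | ⟨c1, c2⟩) | c1
  · left; left
    have e1 := (hb 1 (by norm_num)).2
    have e2 := (hb 2 (by norm_num)).2
    rw [c1] at e1
    rw [c2] at e2
    rw [← e1, ← e2, ← e_pow (show 0 < 30 by norm_num) (show 0 < 5 by norm_num) (by norm_num)]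
    norm_num
    rw [← pow_mul]
  · left; right
    have e1 := (hb 1 (by norm_num)).2
    have e2 := (hb 2 (by norm_num)).2
    rw [c1] at e1
    rw [c2] at e2
    rw [← e1, ← e2, ← e_pow (show 0 < 30 by norm_num) (show 0 < 5 by norm_num) (by norm_num)]
    norm_num
    rw [← pow_mul, ← pow_add, ← pow_add]
    exact ⟨(e_prim (by norm_num)).pow_eq_one, (e_prim (by norm_num)).pow_eq_one⟩
  · right
    have c3 := allB_spec c1 (b 3) (hb 3 (by norm_num)).1
    simp only [beq_ne n03, beq_ne n31, beq_ne n32, Bool.false_or, Bool.or_false, h3a, Bool.not_true] at c3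
    have c4 := allB_spec c3 (b 4) (hb 4 (by norm_num)).1
    simp only [beq_ne n04, beq_ne n41, beq_ne n42, beq_ne n43, Bool.false_or, Bool.or_false, h4a, Bool.not_true,
      Bool.or_eq_true] at c4
    have hyb : ∀ k < 5, y k = e 30 ^ (List.getD [0, b 1, b 2, b 3, b 4] k 0) := by
      intro k hk
      interval_cases k
      · rw [← (hb 0 (by norm_num)).2, h0]; rfl
      · exact (hb 1 (by norm_num)).2.symm
      · exact (hb 2 (by norm_num)).2.symm
      · exact (hb 3 (by norm_num)).2.symm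
      · exact (hb 4 (by norm_num)).2.symm
    rcases c4 with (((c4 | c4) | c4) | c4) | c4
    · left; exact matchE_of_matchB (by norm_num) hyb c4
    · right; left; exact matchE_of_matchB (by norm_num) hyb c4
    · right; right; left; exact matchE_of_matchB (by norm_num) hyb c4
    · right; right; right; left; exact matchE_of_matchB (by norm_num) hyb c4
    · right; right; right; right; exact matchE_of_matchB (by norm_num) hyb c4

theorem emb6 {y : ℕ → ℂ} (E : Emb 6 y) {n : ℕ} (hn : 0 < n) (hcn : 6 ∣ n)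
    (hy : ∀ k < 6, y k ^ n = 1) : Rot 6 y := by
  have hy30 := bounded_order (M := 30) (by norm_num) (by norm_num) (by norm_num) (by norm_num)
    E n hn hcn hy
  obtain ⟨b, hb⟩ := exists_expo (by norm_num : 0 < 30) hy30
  have h0 := E.b0 (by norm_num) hb
  have h3 := E.modular (by norm_num) (by norm_num) (by norm_num : Nat.Prime 151) prim_151 hb
    (show 3 < 6 by norm_num)
  have h4 := E.modular (by norm_num) (by norm_num) (by norm_num : Nat.Prime 151) prim_151 hb
    (show 4 < 6 by norm_num)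
  have h5 := E.modular (by norm_num) (by norm_num) (by norm_num : Nat.Prime 151) prim_151 hb
    (show 5 < 6 by norm_num)
  have hchk := check6_true
  unfold check6 at hchk
  have nz : ∀ i < 6, i ≠ 0 → b i ≠ 0 := by
    intro i hi hi0
    have := E.b_ne hb hi (show 0 < 6 by norm_num) hi0
    rwa [h0] at this
  have nn : ∀ i < 6, ∀ j < 6, i ≠ j → b i ≠ b j := fun i hi j hj => E.b_ne hb hi hj
  have c1 := allB_spec (allB_spec hchk (b 1) (hb 1 (by norm_num)).1) (b 2) (hb 2 (by norm_num)).1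
  rw [h0] at h3 h4 h5
  simp only [Nat.reduceDiv, Nat.reduceMul, pow_zero] at h3 h4 h5
  rw [show (1 : ℕ) % 151 = 1 from rfl] at h3 h4 h5
  obtain ⟨h3a, h3b⟩ := h3
  obtain ⟨h4a, -⟩ := h4
  obtain ⟨h5a, -⟩ := h5
  simp only [beq_ne (nz 1 (by norm_num) (by norm_num)), beq_ne (nz 2 (by norm_num) (by norm_num)),
    beq_ne (nn 1 (by norm_num) 2 (by norm_num) (by norm_num)), Bool.false_or, Bool.or_false, h3b,
    Bool.not_true, Bool.or_eq_true, Bool.and_eq_true, Nat.beq_eq] at c1
  rcases c1 with (⟨c1, c2⟩ | ⟨c1, c2⟩) | c1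
  · left
    have e1 := (hb 1 (by norm_num)).2
    have e2 := (hb 2 (by norm_num)).2
    rw [c1] at e1
    rw [c2] at e2
    rw [← e1, ← e2, ← e_pow (show 0 < 30 by norm_num) (show 0 < 6 by norm_num) (by norm_num)]
    norm_num
    rw [← pow_mul]
  · right
    have e1 := (hb 1 (by norm_num)).2
    have e2 := (hb 2 (by norm_num)).2
    rw [c1] at e1
    rw [c2] at e2
    rw [← e1, ← e2, ← e_pow (show 0 < 30 by norm_num) (show 0 < 6 by norm_num) (by norm_num)]
    norm_num
    rw [← pow_mul, ← pow_add, ← pow_add]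
    exact ⟨(e_prim (by norm_num)).pow_eq_one, (e_prim (by norm_num)).pow_eq_one⟩
  · exfalso
    have c3 := allB_spec c1 (b 3) (hb 3 (by norm_num)).1
    simp only [beq_ne (nz 3 (by norm_num) (by norm_num)),
      beq_ne (nn 3 (by norm_num) 1 (by norm_num) (by norm_num)),
      beq_ne (nn 3 (by norm_num) 2 (by norm_num) (by norm_num)), Bool.false_or, Bool.or_false, h3a,
      Bool.not_true] at c3
    have c4 := allB_spec c3 (b 4) (hb 4 (by norm_num)).1
    simp only [beq_ne (nz 4 (by norm_num) (by norm_num)),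
      beq_ne (nn 4 (by norm_num) 1 (by norm_num) (by norm_num)),
      beq_ne (nn 4 (by norm_num) 2 (by norm_num) (by norm_num)),
      beq_ne (nn 4 (by norm_num) 3 (by norm_num) (by norm_num)), Bool.false_or, Bool.or_false, h4a,
      Bool.not_true] at c4
    have c5 := allB_spec c4 (b 5) (hb 5 (by norm_num)).1
    simp only [beq_ne (nz 5 (by norm_num) (by norm_num)),
      beq_ne (nn 5 (by norm_num) 1 (by norm_num) (by norm_num)),
      beq_ne (nn 5 (by norm_num) 2 (by norm_num) (by norm_num)),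
      beq_ne (nn 5 (by norm_num) 3 (by norm_num) (by norm_num)),
      beq_ne (nn 5 (by norm_num) 4 (by norm_num) (by norm_num)), Bool.false_or, h5a,
      Bool.not_true] at c5
    exact absurd c5 (by decide)

theorem emb7 {y : ℕ → ℂ} (E : Emb 7 y) {n : ℕ} (hn : 0 < n) (hcn : 7 ∣ n)
    (hy : ∀ k < 7, y k ^ n = 1) : Rot 7 y := by
  have hy210 := bounded_order (M := 210) (by norm_num) (by norm_num) (by norm_num) (by norm_num)
    E n hn hcn hy
  obtain ⟨b, hb⟩ := exists_expo (by norm_num : 0 < 210) hy210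
  have h0 := E.b0 (by norm_num) hb
  have h3 := E.modular (by norm_num) (by norm_num) (by norm_num : Nat.Prime 2311) prim_2311 hb
    (show 3 < 7 by norm_num)
  have h4 := E.modular (by norm_num) (by norm_num) (by norm_num : Nat.Prime 2311) prim_2311 hb
    (show 4 < 7 by norm_num)
  have h5 := E.modular (by norm_num) (by norm_num) (by norm_num : Nat.Prime 2311) prim_2311 hb
    (show 5 < 7 by norm_num)
  have h6 := E.modular (by norm_num) (by norm_num) (by norm_num : Nat.Prime 2311) prim_2311 hb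
    (show 6 < 7 by norm_num)
  have hchk := check7_true
  unfold check7 at hchk
  have nz : ∀ i < 7, i ≠ 0 → b i ≠ 0 := by
    intro i hi hi0
    have := E.b_ne hb hi (show 0 < 7 by norm_num) hi0
    rwa [h0] at this
  have nn : ∀ i < 7, ∀ j < 7, i ≠ j → b i ≠ b j := fun i hi j hj => E.b_ne hb hi hj
  have c1 := allB_spec (allB_spec hchk (b 1) (hb 1 (by norm_num)).1) (b 2) (hb 2 (by norm_num)).1
  rw [h0] at h3 h4 h5 h6
  simp only [Nat.reduceDiv, Nat.reduceMul, pow_zero] at h3 h4 h5 h6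
  rw [show (1 : ℕ) % 2311 = 1 from rfl] at h3 h4 h5 h6
  obtain ⟨-, h3b⟩ := h3
  obtain ⟨-, h4b⟩ := h4
  obtain ⟨-, h5b⟩ := h5
  obtain ⟨-, h6b⟩ := h6
  simp only [beq_ne (nz 1 (by norm_num) (by norm_num)), beq_ne (nz 2 (by norm_num) (by norm_num)),
    beq_ne (nn 1 (by norm_num) 2 (by norm_num) (by norm_num)), Bool.false_or, Bool.or_false, h3b,
    h4b, h5b, h6b,
    Bool.not_true, Bool.or_eq_true, Bool.and_eq_true, Nat.beq_eq] at c1
  rcases c1 with ⟨c1, c2⟩ | ⟨c1, c2⟩
  · left
    have e1 := (hb 1 (by norm_num)).2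
    have e2 := (hb 2 (by norm_num)).2
    rw [c1] at e1
    rw [c2] at e2
    rw [← e1, ← e2, ← e_pow (show 0 < 210 by norm_num) (show 0 < 7 by norm_num) (by norm_num)]
    norm_num
    rw [← pow_mul]
  · right
    have e1 := (hb 1 (by norm_num)).2
    have e2 := (hb 2 (by norm_num)).2
    rw [c1] at e1
    rw [c2] at e2
    rw [← e1, ← e2, ← e_pow (show 0 < 210 by norm_num) (show 0 < 7 by norm_num) (by norm_num)]
    norm_num
    rw [← pow_mul, ← pow_add, ← pow_add]
    exact ⟨(e_prim (by norm_num)).pow_eq_one, (e_prim (by norm_num)).pow_eq_one⟩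

end Pool.Agent.Helper99.Exotic
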