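import Mathlib
import Pool.Agent.Helper99.Small

namespace Pool.Agent.Helper99.Exotic

open Finset Polynomial

/-- The one-parameter family (two positions). -/
def Fam (y : ℕ → ℂ) : Prop :=
  (y 3 = -y 1 ∧ y 0 * y 2 = y 1 ^ 2) ∨ (y 2 = -y 0 ∧ y 1 * y 3 = y 0 ^ 2)

lemma no_adj {n : ℕ} (hn : 0 < n) {ω : ℂ} (hω : IsPrimitiveRoot ω n) (h8 : 8 ∣ n)
    {m0 m2 mv : ℕ} (h02 : (m0 + m2) % 2 = 1) (h0v : (m0 + mv) % 2 = 1)
    (h : ω ^ mv * ((ω ^ m0) ^ 2 - (ω ^ m2) ^ 2) = 2 * ω ^ m2 * ((ω ^ m0) ^ 2 - (ω ^ mv) ^ 2)) :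
    False := by
  obtain ⟨q, rfl⟩ := h8
  have hq : 0 < q := by omega
  -- the conjugate
  have hcop : Nat.Coprime (1 + 2 * q) (8 * q) := by
    have h1 : Nat.Coprime (1 + 2 * q) (2 * q) := by simp
    have h2 : Nat.Coprime (1 + 2 * q) 2 := Nat.Coprime.coprime_mul_right_right h1
    have h3 : Nat.Coprime (1 + 2 * q) (2 * 2 * (2 * q)) :=
      Nat.Coprime.mul_right (Nat.Coprime.mul_right h2 h2) h1
    convert h3 using 1
    ring
  have hω' : IsPrimitiveRoot (ω ^ (1 + 2 * q)) (8 * q) := hω.pow_of_coprime _ hcop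
  let P : ℤ[X] := X ^ mv * ((X ^ m0) ^ 2 - (X ^ m2) ^ 2) - 2 * X ^ m2 * ((X ^ m0) ^ 2 - (X ^ mv) ^ 2)
  have hP : aeval ω P = 0 := by
    simp only [P, map_sub, map_mul, map_pow, aeval_X, map_ofNat]
    rw [h, sub_self]
  have hP' := transfer_complex hn hω hω' hP
  simp only [P, map_sub, map_mul, map_pow, aeval_X, map_ofNat] at hP'
  set ι := ω ^ (2 * q) with hι
  have hι2 : ι ^ 2 = -1 := by
    have h4 : (ι ^ 2) ^ 2 = 1 := by
      rw [hι, ← pow_mul, ← pow_mul, show 2 * q * (2 * 2) = 8 * q by ring, hω.pow_eq_one]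
    have hne : ι ^ 2 ≠ 1 := by
      rw [hι, ← pow_mul]
      exact hω.pow_ne_one_of_pos_of_lt (by omega) (by omega)
    have : (ι ^ 2 - 1) * (ι ^ 2 + 1) = 0 := by linear_combination h4
    rcases mul_eq_zero.1 this with h' | h'
    · exact absurd (sub_eq_zero.1 h') hne
    · linear_combination h'
  have hpow : ∀ m : ℕ, (ω ^ (1 + 2 * q)) ^ m = ω ^ m * ι ^ m := by
    intro m
    rw [pow_add, pow_one, mul_pow]
  have hsq : ∀ m : ℕ, ((ω ^ (1 + 2 * q)) ^ m) ^ 2 = (ω ^ m) ^ 2 * (-1) ^ m := by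
    intro m
    rw [hpow, mul_pow, ← pow_mul ι, mul_comm m 2, pow_mul ι, hι2]
  rw [hsq, hsq, hsq, hpow, hpow] at hP'
  have s2 : (-1 : ℂ) ^ m2 = -(-1) ^ m0 := by
    have h1 : (-1 : ℂ) ^ (m0 + m2) = -1 := Odd.neg_one_pow (Nat.odd_iff.2 h02)
    rw [pow_add] at h1
    have h2 : ((-1 : ℂ) ^ m0) * (-1) ^ m0 = 1 := by rw [← mul_pow]; norm_num
    linear_combination ((-1 : ℂ) ^ m0) * h1 - (-1) ^ m2 * h2
  have sv : (-1 : ℂ) ^ mv = -(-1) ^ m0 := by
    have h1 : (-1 : ℂ) ^ (m0 + mv) = -1 := Odd.neg_one_pow (Nat.odd_iff.2 h0v)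
    rw [pow_add] at h1
    have h2 : ((-1 : ℂ) ^ m0) * (-1) ^ m0 = 1 := by rw [← mul_pow]; norm_num
    linear_combination ((-1 : ℂ) ^ m0) * h1 - (-1) ^ mv * h2
  rw [s2, sv] at hP'
  have n1 : ∀ m : ℕ, ‖ω ^ m‖ = 1 := fun m => by
    rw [norm_pow, hω.norm'_eq_one hn.ne', one_pow]
  have n2 : ∀ m : ℕ, ‖ι ^ m‖ = 1 := fun m => by
    rw [hι, ← pow_mul]; exact n1 _
  have N1 : ‖(ω ^ m0) ^ 2 - (ω ^ m2) ^ 2‖ = 2 * ‖(ω ^ m0) ^ 2 - (ω ^ mv) ^ 2‖ := by
    have := congrArg norm h
    rw [norm_mul, norm_mul, norm_mul, n1, n1] at this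
    simpa using this
  have hP2 : ω ^ mv * ι ^ mv * ((-1) ^ m0 * ((ω ^ m0) ^ 2 + (ω ^ m2) ^ 2)) =
      2 * (ω ^ m2 * ι ^ m2) * ((-1) ^ m0 * ((ω ^ m0) ^ 2 + (ω ^ mv) ^ 2)) := by
    linear_combination hP'
  have N2 : ‖(ω ^ m0) ^ 2 + (ω ^ m2) ^ 2‖ = 2 * ‖(ω ^ m0) ^ 2 + (ω ^ mv) ^ 2‖ := by
    have := congrArg norm hP2
    simp only [norm_mul, n1, n2, norm_pow, norm_neg, norm_one, one_pow, one_mul, mul_one] at this
    simpa using this
  have par : ∀ a b : ℂ, ‖a + b‖ ^ 2 + ‖a - b‖ ^ 2 = 2 * (‖a‖ ^ 2 + ‖b‖ ^ 2) :=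
    fun a b => parallelogram_law_with_norm ℝ a b
  have p1 := par ((ω ^ m0) ^ 2) ((ω ^ m2) ^ 2)
  have p2 := par ((ω ^ m0) ^ 2) ((ω ^ mv) ^ 2)
  rw [N1, N2] at p1
  simp only [norm_pow _ 2, n1, one_pow] at p1 p2
  nlinarith

section

variable {n p : ℕ} {ω : ℂ} {b : ℕ → ℕ}

lemma Dat.class4 (D : Dat 4 n p ω b) (r : ℕ) :
    (if (b 0 : ZMod p) + b 1 = r then ω ^ b 0 * ω ^ b 1 else 0) +
    (if (b 2 : ZMod p) + b 3 = r then ω ^ b 2 * ω ^ b 3 else 0) -
    2 * (if (b 0 : ZMod p) + b 2 = r then ω ^ b 0 * ω ^ b 2 else 0) -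
    2 * (if (b 1 : ZMod p) + b 3 = r then ω ^ b 1 * ω ^ b 3 else 0) +
    (if (b 0 : ZMod p) + b 3 = r then ω ^ b 0 * ω ^ b 3 else 0) +
    (if (b 1 : ZMod p) + b 2 = r then ω ^ b 1 * ω ^ b 2 else 0) = 0 := by
  have h := D.class_sum (i := 0) (j := 1) (k := 2) (l := 3) (by norm_num) (by norm_num)
    (by norm_num) (by norm_num) r
  simp only [coef, expo, Fin.sum_univ_six, Matrix.cons_val] at h
  push_cast at h
  have hz := D.root_c
  set z := ω ^ (n / 4) with hzdef
  have hz2 : z ^ 2 = -1 := by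
    have h4 : z ^ 4 = 1 := hz.pow_eq_one
    have hne : z ^ 2 ≠ 1 := hz.pow_ne_one_of_pos_of_lt (by norm_num) (by norm_num)
    have : (z ^ 2 - 1) * (z ^ 2 + 1) = 0 := by linear_combination h4
    rcases mul_eq_zero.1 this with h' | h'
    · exact absurd (sub_eq_zero.1 h') hne
    · linear_combination h'
  have hz0 : z ≠ 0 := hz.ne_zero (by norm_num)
  have hz3 : z ^ 3 = -z := by linear_combination z * hz2
  have u1 : (z ^ 0 - z ^ 1) * (z ^ 2 - z ^ 3) = 2 * z := by rw [hz3, hz2]; linear_combination -hz2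
  have u2 : -((z ^ 0 - z ^ 2) * (z ^ 1 - z ^ 3)) = -4 * z := by rw [hz3, hz2]; ring
  have u3 : (z ^ 0 - z ^ 3) * (z ^ 1 - z ^ 2) = 2 * z := by rw [hz3, hz2]; linear_combination hz2
  rw [u1, u2, u3] at h
  have e1 : ∀ (P : Prop) [Decidable P] (a b : ℂ), (if P then a * b else 0) = a * (if P then b else 0) := by
    intro P _ a b
    by_cases hP : P <;> simp [hP]
  rw [e1 _ (2 * z) (ω ^ b 0 * ω ^ b 1), e1 _ (2 * z) (ω ^ b 2 * ω ^ b 3),
    e1 _ (-4 * z) (ω ^ b 0 * ω ^ b 2), e1 _ (-4 * z) (ω ^ b 1 * ω ^ b 3),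
    e1 _ (2 * z) (ω ^ b 0 * ω ^ b 3), e1 _ (2 * z) (ω ^ b 1 * ω ^ b 2)] at h
  have : 2 * z * ((if (b 0 : ZMod p) + b 1 = r then ω ^ b 0 * ω ^ b 1 else 0) +
    (if (b 2 : ZMod p) + b 3 = r then ω ^ b 2 * ω ^ b 3 else 0) -
    2 * (if (b 0 : ZMod p) + b 2 = r then ω ^ b 0 * ω ^ b 2 else 0) -
    2 * (if (b 1 : ZMod p) + b 3 = r then ω ^ b 1 * ω ^ b 3 else 0) +
    (if (b 0 : ZMod p) + b 3 = r then ω ^ b 0 * ω ^ b 3 else 0) +
    (if (b 1 : ZMod p) + b 2 = r then ω ^ b 1 * ω ^ b 2 else 0)) = 0 := by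
    linear_combination h
  exact (mul_eq_zero.1 this).resolve_left (mul_ne_zero two_ne_zero hz0)

end

section

variable {n p : ℕ} {ω : ℂ} {b : ℕ → ℕ}

lemma Dat.three4 (D : Dat 4 n p ω b) {i j k : ℕ} (hi : i < 4) (hj : j < 4) (hk : k < 4)
    (hij : i ≠ j) (hik : i ≠ k) (hjk : j ≠ k) (e1 : (b i : ZMod p) = b j)
    (e2 : (b j : ZMod p) = b k) : ∀ m < 4, (b m : ZMod p) = b 0 := by
  have key : ∀ m < 4, (b m : ZMod p) = b i := by
    intro m hm
    by_cases h1 : m = i
    · rw [h1]
    by_cases h2 : m = j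
    · rw [h2, e1]
    by_cases h3 : m = k
    · rw [h3, e1, e2]
    exact D.HA hi hj hk hm hij hik hjk (Ne.symm h1) (Ne.symm h2) (Ne.symm h3) e1 e2
  intro m hm
  rw [key m hm, key 0 (by norm_num)]

lemma Dat.four_odd (D : Dat 4 n p ω b) (hp : p ≠ 2) :
    (∀ k < 4, (b k : ZMod p) = b 0) ∨ Fam (fun m => ω ^ b m) := by
  have : Fact p.Prime := ⟨D.hp⟩
  have hdouble : ∀ x y : ZMod p, x + x = y + y → x = y := by
    intro x y hx
    have h2 : (2 : ZMod p) ≠ 0 := by
      intro h
      have : ((2 : ℕ) : ZMod p) = 0 := by exact_mod_cast h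
      rw [ZMod.natCast_eq_zero_iff] at this
      exact hp ((Nat.prime_dvd_prime_iff_eq D.hp Nat.prime_two).1 this)
    have : (2 : ZMod p) * (x - y) = 0 := by linear_combination hx
    exact sub_eq_zero.1 ((mul_eq_zero.1 this).resolve_left h2)
  have y0 : ω ^ b 0 ≠ 0 := D.y_ne_zero 0
  have y1 : ω ^ b 1 ≠ 0 := D.y_ne_zero 1
  have y2 : ω ^ b 2 ≠ 0 := D.y_ne_zero 2
  have y3 : ω ^ b 3 ≠ 0 := D.y_ne_zero 3
  by_cases h02 : (b 0 : ZMod p) = b 2
  · by_cases h01 : (b 0 : ZMod p) = b 1
    · left; exact D.three4 (i := 1) (j := 0) (k := 2) (by norm_num) (by norm_num) (by norm_num)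
        (by norm_num) (by norm_num) (by norm_num) h01.symm h02
    by_cases h03 : (b 0 : ZMod p) = b 3
    · left; exact D.three4 (i := 3) (j := 0) (k := 2) (by norm_num) (by norm_num) (by norm_num)
        (by norm_num) (by norm_num) (by norm_num) h03.symm h02
    by_cases h13 : (b 1 : ZMod p) = b 3
    · exfalso
      have := D.HS (i := 0) (j := 2) (k := 1) (l := 3) (by norm_num) (by norm_num) (by norm_num)
        (by norm_num) (by norm_num) (by norm_num) h01 h03 (by rwa [← h02]) (by rwa [← h02])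
      rw [← h02, ← h13] at this
      exact h01 (hdouble _ _ this)
    -- family
    right; right
    have E1 := D.class4 (b 0 + b 1)
    push_cast at E1
    rw [if_pos rfl, if_neg (fun h => h13 (by linear_combination -h - h02)),
      if_neg (fun h => h01 (by linear_combination h + h02)),
      if_neg (fun h => h03 (by linear_combination -h)),
      if_neg (fun h => h13 (by linear_combination -h)), if_pos (by rw [h02]; ring)] at E1
    have E2 := D.class4 (b 0 + b 2)
    push_cast at E2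
    have s1 : ω ^ b 0 + ω ^ b 2 = 0 := by
      have : ω ^ b 1 * (ω ^ b 0 + ω ^ b 2) = 0 := by linear_combination E1
      exact (mul_eq_zero.1 this).resolve_left y1
    refine ⟨by show ω ^ b 2 = -ω ^ b 0; linear_combination s1, ?_⟩
    show ω ^ b 1 * ω ^ b 3 = (ω ^ b 0) ^ 2
    by_cases hc : (b 1 : ZMod p) + b 3 = b 0 + b 2
    · rw [if_neg (fun h => h01 (by linear_combination -h + h02)),
        if_neg (fun h => h03 (by linear_combination -h)), if_pos rfl, if_pos hc,
        if_neg (fun h => h03 (by linear_combination -h + h02)),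
        if_neg (fun h => h01 (by linear_combination -h))] at E2
      linear_combination (-1 / 2 : ℂ) * E2 - ω ^ b 0 * s1
    · exfalso
      rw [if_neg (fun h => h01 (by linear_combination -h + h02)),
        if_neg (fun h => h03 (by linear_combination -h)), if_pos rfl, if_neg hc,
        if_neg (fun h => h03 (by linear_combination -h + h02)),
        if_neg (fun h => h01 (by linear_combination -h))] at E2
      apply mul_ne_zero y0 y2
      linear_combination (-1 / 2 : ℂ) * E2
  by_cases h13 : (b 1 : ZMod p) = b 3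
  · by_cases h01 : (b 0 : ZMod p) = b 1
    · left; exact D.three4 (i := 0) (j := 1) (k := 3) (by norm_num) (by norm_num) (by norm_num)
        (by norm_num) (by norm_num) (by norm_num) h01 h13
    by_cases h12 : (b 1 : ZMod p) = b 2
    · left; exact D.three4 (i := 2) (j := 1) (k := 3) (by norm_num) (by norm_num) (by norm_num)
        (by norm_num) (by norm_num) (by norm_num) h12.symm h13
    right; left
    have E1 := D.class4 (b 0 + b 1)
    push_cast at E1
    rw [if_pos rfl, if_neg (fun h => h02 (by linear_combination -h - h13)),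
      if_neg (fun h => h12 (by linear_combination -h)),
      if_neg (fun h => h01 (by linear_combination -h - h13)), if_pos (by rw [h13]),
      if_neg (fun h => h02 (by linear_combination -h))] at E1
    have E2 := D.class4 (b 1 + b 3)
    push_cast at E2
    have s1 : ω ^ b 1 + ω ^ b 3 = 0 := by
      have : ω ^ b 0 * (ω ^ b 1 + ω ^ b 3) = 0 := by linear_combination E1
      exact (mul_eq_zero.1 this).resolve_left y0
    refine ⟨by show ω ^ b 3 = -ω ^ b 1; linear_combination s1, ?_⟩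
    show ω ^ b 0 * ω ^ b 2 = (ω ^ b 1) ^ 2
    by_cases hc : (b 0 : ZMod p) + b 2 = b 1 + b 3
    · rw [if_neg (fun h => h01 (by linear_combination h - h13)),
        if_neg (fun h => h12 (by linear_combination -h)), if_pos hc, if_pos rfl,
        if_neg (fun h => h01 (by linear_combination h)),
        if_neg (fun h => h12 (by linear_combination -h + h13))] at E2
      linear_combination (-1 / 2 : ℂ) * E2 - ω ^ b 1 * s1
    · exfalso
      rw [if_neg (fun h => h01 (by linear_combination h - h13)),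
        if_neg (fun h => h12 (by linear_combination -h)), if_neg hc, if_pos rfl,
        if_neg (fun h => h01 (by linear_combination h)),
        if_neg (fun h => h12 (by linear_combination -h + h13))] at E2
      apply mul_ne_zero y1 y3
      linear_combination (-1 / 2 : ℂ) * E2
  exfalso
  -- adjacent pairs
  have adj : ∀ i j k l : ℕ, ∀ yi yj : ℂ, yi ≠ 0 → -2 * yi + yj = 0 → yi - 2 * yj = 0 → False := by
    intro i j k l yi yj hyi h1 h2
    apply hyi
    linear_combination (-2 / 3 : ℂ) * h1 + (-1 / 3 : ℂ) * h2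
  by_cases h01 : (b 0 : ZMod p) = b 1
  · by_cases h23 : (b 2 : ZMod p) = b 3
    · have := D.HS (i := 0) (j := 1) (k := 2) (l := 3) (by norm_num) (by norm_num) (by norm_num)
        (by norm_num) (by norm_num) (by norm_num) h02 (by rwa [← h23]) (by rwa [← h01])
        (by rwa [← h01, ← h23])
      rw [← h01, ← h23] at this
      exact h02 (hdouble _ _ this)
    · have E1 := D.class4 (b 0 + b 2)
      push_cast at E1
      rw [if_neg (fun h => h02 (by linear_combination h + h01)),
        if_neg (fun h => h13 (by linear_combination -h - h01)), if_pos rfl,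
        if_neg (fun h => h23 (by linear_combination -h - h01)),
        if_neg (fun h => h23 (by linear_combination -h)), if_pos (by rw [h01])] at E1
      have E2 := D.class4 (b 0 + b 3)
      push_cast at E2
      rw [if_neg (fun h => h13 (by linear_combination h)),
        if_neg (fun h => h02 (by linear_combination -h)),
        if_neg (fun h => h23 (by linear_combination h)), if_pos (by rw [h01]), if_pos rfl,
        if_neg (fun h => h23 (by linear_combination h + h01))] at E2
      have f1 : -2 * ω ^ b 0 + ω ^ b 1 = 0 := by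
        have : ω ^ b 2 * (-2 * ω ^ b 0 + ω ^ b 1) = 0 := by linear_combination E1
        exact (mul_eq_zero.1 this).resolve_left y2
      have f2 : ω ^ b 0 - 2 * ω ^ b 1 = 0 := by
        have : ω ^ b 3 * (ω ^ b 0 - 2 * ω ^ b 1) = 0 := by linear_combination E2
        exact (mul_eq_zero.1 this).resolve_left y3
      exact adj 0 1 2 3 _ _ y0 f1 f2
  by_cases h03 : (b 0 : ZMod p) = b 3
  · by_cases h12 : (b 1 : ZMod p) = b 2
    · have := D.HS (i := 0) (j := 3) (k := 1) (l := 2) (by norm_num) (by norm_num) (by norm_num)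
        (by norm_num) (by norm_num) (by norm_num) h01 h02 (fun h => h13 h.symm)
        (fun h => h02 (h03.trans h))
      rw [← h03, ← h12] at this
      exact h01 (hdouble _ _ this)
    · have E1 := D.class4 (b 0 + b 2)
      push_cast at E1
      rw [if_neg (fun h => h12 (by linear_combination h)), if_pos (by rw [h03]; ring),
        if_pos rfl, if_neg (fun h => h12 (by linear_combination h + h03)),
        if_neg (fun h => h02 (by linear_combination h + h03)),
        if_neg (fun h => h01 (by linear_combination -h))] at E1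
      have E2 := D.class4 (b 0 + b 1)
      push_cast at E2
      rw [if_pos rfl, if_neg (fun h => h12 (by linear_combination -h - h03)),
        if_neg (fun h => h12 (by linear_combination -h)), if_pos (by rw [h03]; ring),
        if_neg (fun h => h01 (by linear_combination h + h03)),
        if_neg (fun h => h02 (by linear_combination -h))] at E2
      have f1 : -2 * ω ^ b 0 + ω ^ b 3 = 0 := by
        have : ω ^ b 2 * (-2 * ω ^ b 0 + ω ^ b 3) = 0 := by linear_combination E1
        exact (mul_eq_zero.1 this).resolve_left y2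
      have f2 : ω ^ b 0 - 2 * ω ^ b 3 = 0 := by
        have : ω ^ b 1 * (ω ^ b 0 - 2 * ω ^ b 3) = 0 := by linear_combination E2
        exact (mul_eq_zero.1 this).resolve_left y1
      exact adj 0 1 2 3 _ _ y0 f1 f2
  by_cases h12 : (b 1 : ZMod p) = b 2
  · -- pair (1,2), others 0,3
    have E1 := D.class4 (b 0 + b 1)
    push_cast at E1
    rw [if_pos rfl, if_neg (fun h => h03 (by linear_combination -h - h12)), if_pos (by rw [h12]),
      if_neg (fun h => h03 (by linear_combination -h)),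
      if_neg (fun h => h13 (by linear_combination -h)),
      if_neg (fun h => h01 (by linear_combination -h - h12))] at E1
    have E2 := D.class4 (b 1 + b 3)
    push_cast at E2
    rw [if_neg (fun h => h03 (by linear_combination h)), if_pos (by rw [h12]),
      if_neg (fun h => h03 (by linear_combination h + h12)), if_pos rfl,
      if_neg (fun h => h01 (by linear_combination h)),
      if_neg (fun h => h13 (by linear_combination h + h12))] at E2
    have f1 : -2 * ω ^ b 2 + ω ^ b 1 = 0 := by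
      have : ω ^ b 0 * (-2 * ω ^ b 2 + ω ^ b 1) = 0 := by linear_combination E1
      exact (mul_eq_zero.1 this).resolve_left y0
    have f2 : ω ^ b 2 - 2 * ω ^ b 1 = 0 := by
      have : ω ^ b 3 * (ω ^ b 2 - 2 * ω ^ b 1) = 0 := by linear_combination E2
      exact (mul_eq_zero.1 this).resolve_left y3
    exact adj 0 1 2 3 _ _ y2 f1 f2
  by_cases h23 : (b 2 : ZMod p) = b 3
  · -- pair (2,3), others 0,1
    have E1 := D.class4 (b 0 + b 2)
    push_cast at E1
    rw [if_neg (fun h => h12 (by linear_combination h)),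
      if_neg (fun h => h03 (by linear_combination -h)), if_pos rfl,
      if_neg (fun h => h01 (by linear_combination -h - h23)), if_pos (by rw [h23]),
      if_neg (fun h => h01 (by linear_combination -h))] at E1
    have E2 := D.class4 (b 1 + b 2)
    push_cast at E2
    rw [if_neg (fun h => h02 (by linear_combination h)),
      if_neg (fun h => h13 (by linear_combination -h)),
      if_neg (fun h => h01 (by linear_combination h)), if_pos (by rw [h23]),
      if_neg (fun h => h01 (by linear_combination h + h23)), if_pos rfl] at E2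
    have f1 : -2 * ω ^ b 2 + ω ^ b 3 = 0 := by
      have : ω ^ b 0 * (-2 * ω ^ b 2 + ω ^ b 3) = 0 := by linear_combination E1
      exact (mul_eq_zero.1 this).resolve_left y0
    have f2 : ω ^ b 2 - 2 * ω ^ b 3 = 0 := by
      have : ω ^ b 1 * (ω ^ b 2 - 2 * ω ^ b 3) = 0 := by linear_combination E2
      exact (mul_eq_zero.1 this).resolve_left y1
    exact adj 0 1 2 3 _ _ y2 f1 f2
  -- all distinct
  have s1 := D.HS (i := 0) (j := 1) (k := 2) (l := 3) (by norm_num) (by norm_num) (by norm_num)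
        (by norm_num) (by norm_num) (by norm_num) h02 h03 h12 h13
  have s2 := D.HS (i := 0) (j := 2) (k := 1) (l := 3) (by norm_num) (by norm_num) (by norm_num)
        (by norm_num) (by norm_num) (by norm_num) h01 h03 (Ne.symm h12) h23
  exact h12 (hdouble _ _ (by linear_combination s1 - s2))

end

lemma zmod2_cases (a : ℕ) : (a : ZMod 2) = 0 ∧ a % 2 = 0 ∨ (a : ZMod 2) = 1 ∧ a % 2 = 1 := by
  rcases Nat.mod_two_eq_zero_or_one a with h | h
  · left
    refine ⟨?_, h⟩
    rw [ZMod.natCast_eq_zero_iff]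
    exact Nat.dvd_of_mod_eq_zero h
  · right
    refine ⟨?_, h⟩
    have : (a : ZMod 2) = ((1 : ℕ) : ZMod 2) := by
      rw [ZMod.natCast_eq_natCast_iff']
      omega
    simpa using this

lemma famB (y0 y1 y2 y3 : ℂ) (E0 : 0 - 2 * (y0 * y2) - 2 * (y1 * y3) = 0)
    (E1 : y0 * y1 + y2 * y3 + y0 * y3 + y1 * y2 = 0) :
    (y3 = -y1 ∧ y0 * y2 = y1 ^ 2) ∨ (y2 = -y0 ∧ y1 * y3 = y0 ^ 2) := by
  have h : (y0 + y2) * (y1 + y3) = 0 := by linear_combination E1
  rcases mul_eq_zero.1 h with h | h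
  · right
    refine ⟨by linear_combination h, ?_⟩
    linear_combination (-1 / 2 : ℂ) * E0 - y0 * h
  · left
    refine ⟨by linear_combination h, ?_⟩
    linear_combination (-1 / 2 : ℂ) * E0 - y1 * h

lemma Dat.four_two {n : ℕ} {ω : ℂ} {b : ℕ → ℕ} (D : Dat 4 n 2 ω b) :
    (∀ k < 4, (b k : ZMod 2) = b 0) ∨ Fam (fun m => ω ^ b m) := by
  have y0 : ω ^ b 0 ≠ 0 := D.y_ne_zero 0
  have y1 : ω ^ b 1 ≠ 0 := D.y_ne_zero 1
  have y2 : ω ^ b 2 ≠ 0 := D.y_ne_zero 2
  have y3 : ω ^ b 3 ≠ 0 := D.y_ne_zero 3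
  have h8 : 8 ∣ n := D.hpc
  have E0 := D.class4 0
  have E1 := D.class4 1
  have T := @Dat.three4 n 2 ω b D
  have hdec : (1 : ZMod 2) + 1 = 0 := by decide
  have hne : ¬ (1 : ZMod 2) = 0 := by decide
  have hne' : ¬ (0 : ZMod 2) = 1 := by decide
  push_cast at E0 E1
  rcases zmod2_cases (b 0) with ⟨a0, m0⟩ | ⟨a0, m0⟩ <;>
  rcases zmod2_cases (b 1) with ⟨a1, m1⟩ | ⟨a1, m1⟩ <;>
  rcases zmod2_cases (b 2) with ⟨a2, m2⟩ | ⟨a2, m2⟩ <;>
  rcases zmod2_cases (b 3) with ⟨a3, m3⟩ | ⟨a3, m3⟩ <;>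
  first
  | (left; exact T (i := 0) (j := 1) (k := 2) (by norm_num) (by norm_num) (by norm_num)
        (by norm_num) (by norm_num) (by norm_num) (a0.trans a1.symm) (a1.trans a2.symm))
  | (left; exact T (i := 0) (j := 1) (k := 3) (by norm_num) (by norm_num) (by norm_num)
        (by norm_num) (by norm_num) (by norm_num) (a0.trans a1.symm) (a1.trans a3.symm))
  | (left; exact T (i := 0) (j := 2) (k := 3) (by norm_num) (by norm_num) (by norm_num)
        (by norm_num) (by norm_num) (by norm_num) (a0.trans a2.symm) (a2.trans a3.symm))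
  | (left; exact T (i := 1) (j := 2) (k := 3) (by norm_num) (by norm_num) (by norm_num)
        (by norm_num) (by norm_num) (by norm_num) (a1.trans a2.symm) (a2.trans a3.symm))
  | skip
  all_goals simp only [a0, a1, a2, a3, add_zero, zero_add, hdec, hne, hne', if_true, if_false,
    mul_zero, sub_zero] at E0 E1
  · exfalso
    refine no_adj D.hn D.hω h8 (m0 := b 0) (m2 := b 2) (mv := b 3) (by omega) (by omega) ?_
    linear_combination ω ^ b 0 * E1 + (2 * ω ^ b 3 - ω ^ b 2) * E0
  · right; exact famB _ _ _ _ E0 E1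
  · exfalso
    refine no_adj D.hn D.hω h8 (m0 := b 0) (m2 := b 2) (mv := b 1) (by omega) (by omega) ?_
    linear_combination ω ^ b 0 * E1 + (2 * ω ^ b 1 - ω ^ b 2) * E0
  · exfalso
    refine no_adj D.hn D.hω h8 (m0 := b 0) (m2 := b 2) (mv := b 1) (by omega) (by omega) ?_
    linear_combination ω ^ b 0 * E1 + (2 * ω ^ b 1 - ω ^ b 2) * E0
  · right; exact famB _ _ _ _ E0 E1
  · exfalso
    refine no_adj D.hn D.hω h8 (m0 := b 0) (m2 := b 2) (mv := b 3) (by omega) (by omega) ?_
    linear_combination ω ^ b 0 * E1 + (2 * ω ^ b 3 - ω ^ b 2) * E0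

lemma Dat.four_step {n p : ℕ} {ω : ℂ} {b : ℕ → ℕ} (D : Dat 4 n p ω b) :
    (∀ k < 4, (b k : ZMod p) = b 0) ∨ Fam (fun m => ω ^ b m) := by
  by_cases hp : p = 2
  · subst hp; exact D.four_two
  · exact D.four_odd hp

/-- Descent for `c = 4`. -/
theorem bounded_order4 {y : ℕ → ℂ} (E : Emb 4 y) : ∀ n, 0 < n → 4 ∣ n → (∀ k < 4, y k ^ n = 1) →
      (∀ k < 4, y k ^ 60 = 1) ∨ Fam y := by
  intro n
  induction n using Nat.strong_induction_on with
  | _ n ih =>
    intro hn hcn hy
    by_cases hnM : n ∣ 60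
    · left
      intro k hk
      obtain ⟨m, hm⟩ := hnM
      rw [hm, pow_mul, hy k hk, one_pow]
    · obtain ⟨p, hp, hpc, hcond⟩ := exists_prime (M := 60) hn (by norm_num) (by norm_num) hcn
        (by norm_num) (by norm_num) hnM
      obtain ⟨b, hb⟩ := exists_expo hn hy
      have D := E.dat hn hp hpc hcond hb
      rcases D.four_step with hall | hfam
      · have hpn : p ∣ n := D.hpn
        obtain ⟨m, hm⟩ := hpc
        have e1 : n / p = 4 * m := by
          rw [hm, mul_assoc]; exact Nat.mul_div_cancel_left _ hp.pos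
        have h0 : (b 0 : ZMod p) = 0 := by
          have h1 : e n ^ b 0 = 1 := by rw [(hb 0 (by omega)).2, E.y0]
          have h2 : n ∣ b 0 := ((e_prim hn).pow_eq_one_iff_dvd _).1 h1
          rw [ZMod.natCast_eq_zero_iff]
          exact hpn.trans h2
        have hm0 : 0 < 4 * m := by
          rcases Nat.eq_zero_or_pos (4 * m) with h | h
          · rw [mul_assoc, h, mul_zero] at hm; omega
          · exact h
        apply ih (n / p) (Nat.div_lt_self hn hp.one_lt) (by rw [e1]; exact hm0)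
          (by rw [e1]; exact Dvd.intro m rfl)
        intro k hk
        have h1 : p ∣ b k := by
          rw [← ZMod.natCast_eq_zero_iff, hall k hk, h0]
        rw [← (hb k hk).2, ← pow_mul, (e_prim hn).pow_eq_one_iff_dvd]
        obtain ⟨q, hq⟩ := h1
        refine ⟨q, ?_⟩
        rw [hq, e1, hm]; ring
      · right
        unfold Fam at hfam ⊢
        rw [← (hb 0 (by norm_num)).2, ← (hb 1 (by norm_num)).2, ← (hb 2 (by norm_num)).2,
          ← (hb 3 (by norm_num)).2]
        exact hfam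

theorem emb4 {y : ℕ → ℂ} (E : Emb 4 y) {n : ℕ} (hn : 0 < n) (hcn : 4 ∣ n)
    (hy : ∀ k < 4, y k ^ n = 1) : Fam y ∨ MatchE 60 [0, 5, 15, 50] y := by
  rcases bounded_order4 E n hn hcn hy with hy60 | hf
  swap
  · left; exact hf
  obtain ⟨b, hb⟩ := exists_expo (by norm_num : 0 < 60) hy60
  have h0 := E.b0 (by norm_num) hb
  have h3 := E.modular (by norm_num) (by norm_num) (by norm_num : Nat.Prime 4861) prim_4861 hb
    (show 3 < 4 by norm_num)
  have hchk := check4_true
  unfold check4 at hchk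
  have nz : ∀ i < 4, i ≠ 0 → b i ≠ 0 := by
    intro i hi hi0
    have := E.b_ne hb hi (show 0 < 4 by norm_num) hi0
    rwa [h0] at this
  have nn : ∀ i < 4, ∀ j < 4, i ≠ j → b i ≠ b j := fun i hi j hj => E.b_ne hb hi hj
  have c1 := allB_spec (allB_spec hchk (b 1) (hb 1 (by norm_num)).1) (b 2) (hb 2 (by norm_num)).1
  rw [h0] at h3
  simp only [Nat.reduceDiv, Nat.reduceMul, pow_zero] at h3
  rw [show (1 : ℕ) % 4861 = 1 from rfl] at h3
  obtain ⟨h3a, h3b⟩ := h3
  simp only [beq_ne (nz 1 (by norm_num) (by norm_num)), beq_ne (nz 2 (by norm_num) (by norm_num)),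
    beq_ne (nn 1 (by norm_num) 2 (by norm_num) (by norm_num)), Bool.false_or, Bool.or_false, h3b,
    Bool.not_true] at c1
  have c3 := allB_spec c1 (b 3) (hb 3 (by norm_num)).1
  simp only [beq_ne (nz 3 (by norm_num) (by norm_num)),
      beq_ne (nn 3 (by norm_num) 1 (by norm_num) (by norm_num)),
      beq_ne (nn 3 (by norm_num) 2 (by norm_num) (by norm_num)), Bool.false_or, Bool.or_false, h3a,
      Bool.not_true, Bool.or_eq_true, Bool.and_eq_true, Nat.beq_eq] at c3
  have g0 := (hb 0 (by norm_num)).2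
  have g1 := (hb 1 (by norm_num)).2
  have g2 := (hb 2 (by norm_num)).2
  have g3 := (hb 3 (by norm_num)).2
  have h30 : e 60 ^ 30 = -1 := by
    have h4 : (e 60 ^ 30) ^ 2 = 1 := by
      rw [← pow_mul]; exact (e_prim (by norm_num)).pow_eq_one
    have hne : e 60 ^ 30 ≠ 1 :=
      (e_prim (n := 60) (by norm_num)).pow_ne_one_of_pos_of_lt (by norm_num) (by norm_num)
    have : (e 60 ^ 30 - 1) * (e 60 ^ 30 + 1) = 0 := by linear_combination h4
    rcases mul_eq_zero.1 this with h' | h'
    · exact absurd (sub_eq_zero.1 h') hne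
    · linear_combination h'
  rcases c3 with (⟨c3, c4⟩ | ⟨c3, c4⟩) | c3
  · left; left
    constructor
    · have h5 : e 60 ^ (b 1 + 30) = e 60 ^ b 3 := e_pow_eq_of_mod (by norm_num) (by
        rw [c3, Nat.mod_eq_of_lt (hb 3 (by norm_num)).1])
      rw [← g3, ← h5, pow_add, h30, ← g1]; ring
    · have h5 : e 60 ^ (2 * b 1) = e 60 ^ b 2 := e_pow_eq_of_mod (by norm_num) (by
        rw [c4, Nat.mod_eq_of_lt (hb 2 (by norm_num)).1])
      rw [E.y0, ← g2, ← h5, ← g1]; ring
  · left; right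
    constructor
    · rw [E.y0, ← g2, c3, h30]
    · have h5 : e 60 ^ (b 1 + b 3) = e 60 ^ 0 := e_pow_eq_of_mod (by norm_num) (by rw [c4])
      rw [E.y0, ← g1, ← g3, ← pow_add, h5]; norm_num
  · right
    have hyb : ∀ k < 4, y k = e 60 ^ (List.getD [0, b 1, b 2, b 3] k 0) := by
      intro k hk
      interval_cases k
      · rw [← g0, h0]; rfl
      · exact g1.symm
      · exact g2.symm
      · exact g3.symm
    exact matchE_of_matchB (by norm_num) hyb c3

end Pool.Agent.Helper99.Exotic
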