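import Mathlib
import Pool.Agent.Helper99.Four

namespace Pool.Agent.Helper99.Exotic

open Finset Polynomial

lemma phi12 {z : ℂ} (hz : IsPrimitiveRoot z 12) : z ^ 4 - z ^ 2 + 1 = 0 := by
  have h6 : z ^ 6 = -1 := by
    have h : (z ^ 6 - 1) * (z ^ 6 + 1) = 0 := by linear_combination hz.pow_eq_one
    have hne := hz.pow_ne_one_of_pos_of_lt (l := 6) (by norm_num) (by norm_num)
    rcases mul_eq_zero.1 h with h | h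
    · exact absurd (sub_eq_zero.1 h) hne
    · linear_combination h
  have hne := hz.pow_ne_one_of_pos_of_lt (l := 4) (by norm_num) (by norm_num)
  have h2 : z ^ 2 + 1 ≠ 0 := fun h => hne (by linear_combination (z ^ 2 - 1) * h)
  have h : (z ^ 2 + 1) * (z ^ 4 - z ^ 2 + 1) = 0 := by linear_combination h6
  exact (mul_eq_zero.1 h).resolve_left h2

lemma phi10 {z : ℂ} (hz : IsPrimitiveRoot z 10) : z ^ 4 - z ^ 3 + z ^ 2 - z + 1 = 0 := by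
  have h6 : z ^ 5 = -1 := by
    have h : (z ^ 5 - 1) * (z ^ 5 + 1) = 0 := by linear_combination hz.pow_eq_one
    have hne := hz.pow_ne_one_of_pos_of_lt (l := 5) (by norm_num) (by norm_num)
    rcases mul_eq_zero.1 h with h | h
    · exact absurd (sub_eq_zero.1 h) hne
    · linear_combination h
  have hne := hz.pow_ne_one_of_pos_of_lt (l := 2) (by norm_num) (by norm_num)
  have h2 : z + 1 ≠ 0 := fun h => hne (by linear_combination (z - 1) * h)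
  have h : (z + 1) * (z ^ 4 - z ^ 3 + z ^ 2 - z + 1) = 0 := by linear_combination h6
  exact (mul_eq_zero.1 h).resolve_left h2

lemma phi30 {z : ℂ} (hz : IsPrimitiveRoot z 30) :
    z ^ 8 + z ^ 7 - z ^ 5 - z ^ 4 - z ^ 3 + z + 1 = 0 := by
  have h6 : z ^ 15 = -1 := by
    have h : (z ^ 15 - 1) * (z ^ 15 + 1) = 0 := by linear_combination hz.pow_eq_one
    have hne := hz.pow_ne_one_of_pos_of_lt (l := 15) (by norm_num) (by norm_num)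
    rcases mul_eq_zero.1 h with h | h
    · exact absurd (sub_eq_zero.1 h) hne
    · linear_combination h
  have hne2 := hz.pow_ne_one_of_pos_of_lt (l := 2) (by norm_num) (by norm_num)
  have hne6 := hz.pow_ne_one_of_pos_of_lt (l := 6) (by norm_num) (by norm_num)
  have hne10 := hz.pow_ne_one_of_pos_of_lt (l := 10) (by norm_num) (by norm_num)
  have h2 : z + 1 ≠ 0 := fun h => hne2 (by linear_combination (z - 1) * h)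
  have h3 : z ^ 2 - z + 1 ≠ 0 := fun h =>
    hne6 (by linear_combination (z + 1) * (z ^ 3 - 1) * h)
  have h4 : z ^ 4 - z ^ 3 + z ^ 2 - z + 1 ≠ 0 := fun h =>
    hne10 (by linear_combination (z + 1) * (z ^ 5 - 1) * h)
  have h : (z + 1) * (z ^ 2 - z + 1) * (z ^ 4 - z ^ 3 + z ^ 2 - z + 1) *
      (z ^ 8 + z ^ 7 - z ^ 5 - z ^ 4 - z ^ 3 + z + 1) = 0 := by linear_combination h6
  exact (mul_eq_zero.1 h).resolve_left (mul_ne_zero (mul_ne_zero h2 h3) h4)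

lemma model0_3 {z : ℂ} (h : z ^ 4 - z ^ 2 + 1 = 0) :
    (z ^ 0 - z ^ 6) * (z ^ 3 - z ^ 9) * ((z ^ 0 - z ^ 10) * (z ^ 1 - z ^ 3)) =
    (z ^ 0 - z ^ 9) * (z ^ 3 - z ^ 6) * ((z ^ 0 - z ^ 3) * (z ^ 1 - z ^ 10)) := by
  linear_combination ((-1) * z ^ 6 + (2) * z ^ 7 + (-1) * z ^ 8 + (2) * z ^ 9 + (-3) * z ^ 10 + (2) * z ^ 14 + (-3) * z ^ 18 + (2) * z ^ 19 + (-1) * z ^ 20 + (2) * z ^ 21 + (-1) * z ^ 22) * h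

lemma model1_3 {z : ℂ} (h : z ^ 4 - z ^ 3 + z ^ 2 - z + 1 = 0) :
    (z ^ 0 - z ^ 4) * (z ^ 2 - z ^ 6) * ((z ^ 0 - z ^ 4) * (z ^ 1 - z ^ 2)) =
    (z ^ 0 - z ^ 6) * (z ^ 2 - z ^ 4) * ((z ^ 0 - z ^ 2) * (z ^ 1 - z ^ 4)) := by
  linear_combination ((-1) * z ^ 4 + (1) * z ^ 5 + (3) * z ^ 6 + (-3) * z ^ 7 + (-3) * z ^ 8 + (3) * z ^ 9 + (1) * z ^ 10 + (-1) * z ^ 11) * h

lemma model1_4 {z : ℂ} (h : z ^ 4 - z ^ 3 + z ^ 2 - z + 1 = 0) :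
    (z ^ 0 - z ^ 4) * (z ^ 2 - z ^ 8) * ((z ^ 0 - z ^ 8) * (z ^ 1 - z ^ 2)) =
    (z ^ 0 - z ^ 8) * (z ^ 2 - z ^ 4) * ((z ^ 0 - z ^ 2) * (z ^ 1 - z ^ 8)) := by
  linear_combination ((-1) * z ^ 4 + (1) * z ^ 5 + (2) * z ^ 6 + (-2) * z ^ 7 + (-1) * z ^ 8 + (1) * z ^ 9 + (1) * z ^ 12 + (-1) * z ^ 13 + (-2) * z ^ 14 + (2) * z ^ 15 + (1) * z ^ 16 + (-1) * z ^ 17) * h

lemma model2_3 {z : ℂ} (h : z ^ 8 + z ^ 7 - z ^ 5 - z ^ 4 - z ^ 3 + z + 1 = 0) :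
    (z ^ 0 - z ^ 12) * (z ^ 6 - z ^ 18) * ((z ^ 0 - z ^ 5) * (z ^ 1 - z ^ 2)) =
    (z ^ 0 - z ^ 18) * (z ^ 6 - z ^ 12) * ((z ^ 0 - z ^ 2) * (z ^ 1 - z ^ 5)) := by
  linear_combination ((-1) * z ^ 8 + (2) * z ^ 9 + (-2) * z ^ 10 + (2) * z ^ 11 + (-2) * z ^ 12 + (2) * z ^ 13 + (-2) * z ^ 15 + (3) * z ^ 16 + (-4) * z ^ 17 + (4) * z ^ 18 + (-4) * z ^ 19 + (3) * z ^ 20 + (-2) * z ^ 21 + (2) * z ^ 23 + (-2) * z ^ 24 + (2) * z ^ 25 + (-2) * z ^ 26 + (2) * z ^ 27 + (-1) * z ^ 28) * h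

lemma model2_4 {z : ℂ} (h : z ^ 8 + z ^ 7 - z ^ 5 - z ^ 4 - z ^ 3 + z + 1 = 0) :
    (z ^ 0 - z ^ 12) * (z ^ 6 - z ^ 24) * ((z ^ 0 - z ^ 27) * (z ^ 1 - z ^ 2)) =
    (z ^ 0 - z ^ 24) * (z ^ 6 - z ^ 12) * ((z ^ 0 - z ^ 2) * (z ^ 1 - z ^ 27)) := by
  linear_combination ((-1) * z ^ 8 + (2) * z ^ 9 + (-2) * z ^ 10 + (1) * z ^ 11 + (1) * z ^ 14 + (-2) * z ^ 15 + (2) * z ^ 16 + (-1) * z ^ 17 + (1) * z ^ 18 + (-2) * z ^ 19 + (2) * z ^ 20 + (-1) * z ^ 21 + (1) * z ^ 23 + (-3) * z ^ 24 + (3) * z ^ 25 + (-1) * z ^ 26 + (-1) * z ^ 27 + (1) * z ^ 28 + (-1) * z ^ 29 + (1) * z ^ 30 + (1) * z ^ 31 + (-2) * z ^ 32 + (1) * z ^ 33 + (1) * z ^ 34 + (-1) * z ^ 35 + (1) * z ^ 36 + (-1) * z ^ 37 + (-1) * z ^ 38 + (3) * z ^ 39 + (-3) * z ^ 40 + (1) * z ^ 41 + (-1) * z ^ 43 + (2) * z ^ 44 + (-2) *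 z ^ 45 + (1) * z ^ 46 + (-1) * z ^ 47 + (2) * z ^ 48 + (-2) * z ^ 49 + (1) * z ^ 50 + (1) * z ^ 53 + (-2) * z ^ 54 + (2) * z ^ 55 + (-1) * z ^ 56) * h

lemma model3_3 {z : ℂ} (h : z ^ 8 + z ^ 7 - z ^ 5 - z ^ 4 - z ^ 3 + z + 1 = 0) :
    (z ^ 0 - z ^ 12) * (z ^ 6 - z ^ 18) * ((z ^ 0 - z ^ 9) * (z ^ 2 - z ^ 4)) =
    (z ^ 0 - z ^ 18) * (z ^ 6 - z ^ 12) * ((z ^ 0 - z ^ 4) * (z ^ 2 - z ^ 9)) := by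
  linear_combination ((-1) * z ^ 10 + (1) * z ^ 11 + (-1) * z ^ 13 + (2) * z ^ 14 + (-1) * z ^ 15 + (1) * z ^ 16 + (-1) * z ^ 18 + (2) * z ^ 19 + (-3) * z ^ 20 + (1) * z ^ 21 + (1) * z ^ 22 + (-3) * z ^ 23 + (2) * z ^ 24 + (-1) * z ^ 25 + (1) * z ^ 27 + (-1) * z ^ 28 + (2) * z ^ 29 + (-1) * z ^ 30 + (1) * z ^ 32 + (-1) * z ^ 33) * h

lemma model3_4 {z : ℂ} (h : z ^ 8 + z ^ 7 - z ^ 5 - z ^ 4 - z ^ 3 + z + 1 = 0) :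
    (z ^ 0 - z ^ 12) * (z ^ 6 - z ^ 24) * ((z ^ 0 - z ^ 25) * (z ^ 2 - z ^ 4)) =
    (z ^ 0 - z ^ 24) * (z ^ 6 - z ^ 12) * ((z ^ 0 - z ^ 4) * (z ^ 2 - z ^ 25)) := by
  linear_combination ((-1) * z ^ 10 + (1) * z ^ 11 + (-1) * z ^ 13 + (2) * z ^ 14 + (-2) * z ^ 15 + (2) * z ^ 16 + (-2) * z ^ 18 + (3) * z ^ 19 + (-3) * z ^ 20 + (2) * z ^ 21 + (-2) * z ^ 23 + (2) * z ^ 24 + (-1) * z ^ 25 + (-1) * z ^ 26 + (1) * z ^ 27 + (-2) * z ^ 29 + (3) * z ^ 30 + (-2) * z ^ 31 + (1) * z ^ 32 + (1) * z ^ 33 + (-2) * z ^ 34 + (3) * z ^ 35 + (-2) * z ^ 36 + (1) * z ^ 38 + (-1) * z ^ 39 + (-1) * z ^ 40 + (2) * z ^ 41 + (-2) * z ^ 42 + (2) * z ^ 44 + (-3) * z ^ 45 + (3) * z ^ 46 + (-2) * z ^ 47 + (2) * z ^ 49 + (-2) * z ^ 50 + (2) * z ^ 51 + (-1) * z ^ 52 + (1) * z ^ 54 + (-1) * z ^ 55) * h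

lemma model4_3 {z : ℂ} (h : z ^ 8 + z ^ 7 - z ^ 5 - z ^ 4 - z ^ 3 + z + 1 = 0) :
    (z ^ 0 - z ^ 12) * (z ^ 6 - z ^ 18) * ((z ^ 0 - z ^ 16) * (z ^ 2 - z ^ 5)) =
    (z ^ 0 - z ^ 18) * (z ^ 6 - z ^ 12) * ((z ^ 0 - z ^ 5) * (z ^ 2 - z ^ 16)) := by
  linear_combination ((-1) * z ^ 11 + (1) * z ^ 12 + (1) * z ^ 17 + (-1) * z ^ 19 + (-1) * z ^ 20 + (2) * z ^ 21 + (-1) * z ^ 22 + (1) * z ^ 23 + (-3) * z ^ 24 + (2) * z ^ 25 + (2) * z ^ 26 + (-3) * z ^ 27 + (1) * z ^ 28 + (-1) * z ^ 29 + (2) * z ^ 30 + (-1) * z ^ 31 + (-1) * z ^ 32 + (1) * z ^ 34 + (1) * z ^ 39 + (-1) * z ^ 40) * h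

lemma model4_4 {z : ℂ} (h : z ^ 8 + z ^ 7 - z ^ 5 - z ^ 4 - z ^ 3 + z + 1 = 0) :
    (z ^ 0 - z ^ 12) * (z ^ 6 - z ^ 24) * ((z ^ 0 - z ^ 27) * (z ^ 2 - z ^ 5)) =
    (z ^ 0 - z ^ 24) * (z ^ 6 - z ^ 12) * ((z ^ 0 - z ^ 5) * (z ^ 2 - z ^ 27)) := by
  linear_combination ((-1) * z ^ 11 + (1) * z ^ 12 + (1) * z ^ 17 + (-1) * z ^ 19 + (1) * z ^ 21 + (-1) * z ^ 22 + (1) * z ^ 23 + (-2) * z ^ 24 + (1) * z ^ 25 + (-1) * z ^ 27 + (1) * z ^ 32 + (-1) * z ^ 33 + (2) * z ^ 34 + (-1) * z ^ 35 + (1) * z ^ 36 + (-1) * z ^ 41 + (1) * z ^ 43 + (-2) * z ^ 44 + (1) * z ^ 45 + (-1) * z ^ 46 + (1) * z ^ 47 + (-1) * z ^ 49 + (1) * z ^ 51 + (1) * z ^ 56 + (-1) * z ^ 57) * h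

lemma model5_3 {z : ℂ} (h : z ^ 8 + z ^ 7 - z ^ 5 - z ^ 4 - z ^ 3 + z + 1 = 0) :
    (z ^ 0 - z ^ 12) * (z ^ 6 - z ^ 18) * ((z ^ 0 - z ^ 17) * (z ^ 4 - z ^ 9)) =
    (z ^ 0 - z ^ 18) * (z ^ 6 - z ^ 12) * ((z ^ 0 - z ^ 9) * (z ^ 4 - z ^ 17)) := by
  linear_combination ((-1) * z ^ 15 + (2) * z ^ 16 + (-2) * z ^ 17 + (1) * z ^ 18 + (1) * z ^ 19 + (-2) * z ^ 20 + (3) * z ^ 21 + (-4) * z ^ 22 + (4) * z ^ 23 + (-2) * z ^ 24 + (-1) * z ^ 25 + (2) * z ^ 26 + (-2) * z ^ 27 + (3) * z ^ 28 + (-4) * z ^ 29 + (3) * z ^ 30 + (-2) * z ^ 31 + (2) * z ^ 32 + (-1) * z ^ 33 + (-2) * z ^ 34 + (4) * z ^ 35 + (-4) * z ^ 36 + (3) * z ^ 37 + (-2) * z ^ 38 + (1) * z ^ 39 + (1) * z ^ 40 + (-2) * z ^ 41 + (2) * z ^ 42 + (-1) * z ^ 43) * h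

lemma model5_4 {z : ℂ} (h : z ^ 8 + z ^ 7 - z ^ 5 - z ^ 4 - z ^ 3 + z + 1 = 0) :
    (z ^ 0 - z ^ 12) * (z ^ 6 - z ^ 24) * ((z ^ 0 - z ^ 25) * (z ^ 4 - z ^ 9)) =
    (z ^ 0 - z ^ 24) * (z ^ 6 - z ^ 12) * ((z ^ 0 - z ^ 9) * (z ^ 4 - z ^ 25)) := by
  linear_combination ((-1) * z ^ 15 + (2) * z ^ 16 + (-2) * z ^ 17 + (1) * z ^ 18 + (1) * z ^ 19 + (-2) * z ^ 20 + (3) * z ^ 21 + (-3) * z ^ 22 + (2) * z ^ 23 + (-2) * z ^ 25 + (2) * z ^ 26 + (-1) * z ^ 27 + (-1) * z ^ 28 + (1) * z ^ 29 + (-1) * z ^ 30 + (1) * z ^ 32 + (-1) * z ^ 33 + (1) * z ^ 34 + (1) * z ^ 38 + (-1) * z ^ 39 + (1) * z ^ 40 + (-1) * z ^ 42 + (1) * z ^ 43 + (-1) * z ^ 44 + (-1) * z ^ 45 + (2) * z ^ 46 + (-2) * z ^ 47 + (2) * z ^ 49 + (-3) * z ^ 50 + (3) * z ^ 51 + (-2) * z ^ 52 + (1) * z ^ 53 + (1) * z ^ 54 + (-2)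 * z ^ 55 + (2) * z ^ 56 + (-1) * z ^ 57) * h

end Pool.Agent.Helper99.Exotic
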