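import Mathlib
import Pool.Agent.Helper99.ExoticDefs
import Pool.Agent.Helper99.Models

/-!
# Proof of the classification of exotic embeddings of roots of unity
-/

namespace Pool.Agent.Helper99.Exotic

open OnePoint

section Aux

/-- The standard generator of `μ_c`. -/
noncomputable def zc (c : ℕ) [NeZero c] : rootsOfUnity c ℂ :=
  rootsOfUnity.mkOfPowEq (e c) (e_prim (NeZero.pos c)).pow_eq_one

lemma coe_zc_pow {c : ℕ} [NeZero c] (k : ℕ) : (((zc c ^ k : rootsOfUnity c ℂ) : ℂˣ) : ℂ) = e c ^ k := by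
  simp [zc]

lemma e_pow_eq_exp (c k : ℕ) : e c ^ k = Complex.exp (2 * Real.pi * Complex.I * k / c) := by
  unfold e
  rw [← Complex.exp_nat_mul]
  congr 1
  ring

lemma ext_coe {c : ℕ} {a b : rootsOfUnity c ℂ} (h : ((a : ℂˣ) : ℂ) = ((b : ℂˣ) : ℂ)) : a = b :=
  Subtype.ext (Units.ext h)

lemma exists_pow {c : ℕ} [NeZero c] (ζ : rootsOfUnity c ℂ) : ∃ k < c, ζ = zc c ^ k := by
  have h1 : ((ζ : ℂˣ) : ℂ) ^ c = 1 := by
    have := ζ.2
    rw [mem_rootsOfUnity] at this
    rw [← Units.val_pow_eq_pow_val, this, Units.val_one]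
  obtain ⟨k, hk, hk'⟩ := (e_prim (NeZero.pos c)).eq_pow_of_pow_eq_one h1
  exact ⟨k, hk, ext_coe (by rw [coe_zc_pow, hk'])⟩

lemma coe_pow_eq_one {n : ℕ} (ζ : rootsOfUnity n ℂ) : ((ζ : ℂˣ) : ℂ) ^ n = 1 := by
  have := ζ.2
  rw [mem_rootsOfUnity] at this
  rw [← Units.val_pow_eq_pow_val, this, Units.val_one]

lemma coe_ne_zero' {n : ℕ} (ζ : rootsOfUnity n ℂ) : ((ζ : ℂˣ) : ℂ) ≠ 0 := Units.ne_zero _

lemma isExotic_iff {c n : ℕ} (ℓ : rootsOfUnity c ℂ → rootsOfUnity n ℂ) :
    IsExotic ℓ ↔ Function.Injective ℓ ∧ ∃ α β γ δ : ℂ, α * δ - β * γ ≠ 0 ∧ β ≠ 0 ∧ δ ≠ 0 ∧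
      ∀ ζ : rootsOfUnity c ℂ, γ * ((ζ : ℂˣ) : ℂ) + δ ≠ 0 ∧
        ((ℓ ζ : ℂˣ) : ℂ) * (γ * ((ζ : ℂˣ) : ℂ) + δ) = α * ((ζ : ℂˣ) : ℂ) + β := by
  unfold IsExotic
  constructor
  · rintro ⟨hinj, T, hT, h0, hinf⟩
    refine ⟨hinj, T 0 0, T 0 1, T 1 0, T 1 1, ?_, ?_, ?_, ?_⟩
    · have := T.det_ne_zero
      rw [Matrix.det_fin_two] at this
      exact this
    · intro h
      apply h0
      rw [smul_some_eq_ite]
      rw [smul_some_eq_ite] at hinf
      by_cases h1 : (T 1 0 : ℂ) * 0 + T 1 1 = 0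
      · rw [if_pos h1] at hinf; exact absurd rfl hinf
      · rw [if_neg h1, h]; simp
    · intro h
      apply hinf
      rw [smul_some_eq_ite, if_pos]
      rw [h]; simp
    · intro ζ
      have := hT ζ
      rw [smul_some_eq_ite] at this
      by_cases h1 : (T 1 0 : ℂ) * ((ζ : ℂˣ) : ℂ) + T 1 1 = 0
      · rw [if_pos h1] at this
        exact absurd this (OnePoint.infty_ne_coe _)
      · rw [if_neg h1, OnePoint.coe_eq_coe] at this
        refine ⟨h1, ?_⟩
        rw [← this, div_mul_cancel₀ _ h1]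
  · rintro ⟨hinj, α, β, γ, δ, hΔ, hβ, hδ, hT⟩
    refine ⟨hinj, Matrix.GeneralLinearGroup.mkOfDetNeZero !![α, β; γ, δ]
      (by rw [Matrix.det_fin_two_of]; exact hΔ), ?_, ?_, ?_⟩
    · intro ζ
      obtain ⟨h1, h2⟩ := hT ζ
      rw [smul_some_eq_ite]
      have e0 : (Matrix.GeneralLinearGroup.mkOfDetNeZero !![α, β; γ, δ]
        (by rw [Matrix.det_fin_two_of]; exact hΔ) : Matrix (Fin 2) (Fin 2) ℂ) = !![α, β; γ, δ] := rfl
      rw [e0]
      simp only [Matrix.of_apply, Matrix.cons_val', Matrix.cons_val_zero, Matrix.cons_val_one,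
        Matrix.cons_val_fin_one]
      rw [if_neg h1, OnePoint.coe_eq_coe, div_eq_iff h1, h2]
    · rw [smul_some_eq_ite]
      have e0 : (Matrix.GeneralLinearGroup.mkOfDetNeZero !![α, β; γ, δ]
        (by rw [Matrix.det_fin_two_of]; exact hΔ) : Matrix (Fin 2) (Fin 2) ℂ) = !![α, β; γ, δ] := rfl
      rw [e0]
      simp only [Matrix.of_apply, Matrix.cons_val', Matrix.cons_val_zero, Matrix.cons_val_one,
        Matrix.cons_val_fin_one]
      rw [if_neg (by simpa using hδ)]
      intro h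
      rw [OnePoint.coe_eq_coe] at h
      simp [hδ] at h
      exact hβ h
    · rw [smul_some_eq_ite]
      have e0 : (Matrix.GeneralLinearGroup.mkOfDetNeZero !![α, β; γ, δ]
        (by rw [Matrix.det_fin_two_of]; exact hΔ) : Matrix (Fin 2) (Fin 2) ℂ) = !![α, β; γ, δ] := rfl
      rw [e0]
      simp only [Matrix.of_apply, Matrix.cons_val', Matrix.cons_val_zero, Matrix.cons_val_one,
        Matrix.cons_val_fin_one]
      rw [if_neg (by simpa using hδ)]
      exact OnePoint.coe_ne_infty _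

lemma zc_pow_mod {c : ℕ} [NeZero c] (k : ℕ) : zc c ^ (k % c) = zc c ^ k := by
  apply ext_coe
  rw [coe_zc_pow, coe_zc_pow]
  exact e_pow_eq_of_mod (NeZero.pos c) (Nat.mod_mod _ _)

/-- A degenerate Moebius map gives a rotation or inversion. -/
lemma rot_of_degenerate {c : ℕ} (hc : 3 ≤ c) {y : ℕ → ℂ} (y0 : y 0 = 1)
    (hn : ∀ k < c, ‖y k‖ = 1)
    {α β γ δ : ℂ} (hΔ : α * δ - β * γ ≠ 0)
    (hT : ∀ k < c, y k * (γ * e c ^ k + δ) = α * e c ^ k + β) (h : β = 0 ∨ δ = 0) : Rot c y := by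
  have hζ := e_prim (n := c) (by omega)
  have hU : ∀ k < c, ‖α * e c ^ k + β‖ = ‖γ * e c ^ k + δ‖ := by
    intro k hk
    rw [← hT k hk, norm_mul, hn k hk, one_mul]
  obtain ⟨h1, h2, -, -⟩ := unimod hc hζ hU hΔ
  have t0 := hT 0 (by omega)
  have t1 := hT 1 (by omega)
  have t2 := hT 2 (by omega)
  rw [y0, pow_zero] at t0
  rw [pow_one] at t1
  rcases h with h | h
  · left
    rw [h, norm_zero] at h2
    have hγ : γ = 0 := norm_eq_zero.1 h2.symm
    subst h; subst hγ
    have hδ : δ ≠ 0 := by rintro rfl; apply hΔ; ring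
    have hαδ : α = δ := by linear_combination -t0
    subst hαδ
    constructor
    · apply mul_right_cancel₀ hδ; linear_combination t1
    · apply mul_right_cancel₀ hδ; linear_combination t2
  · right
    rw [h, norm_zero] at h1
    have hα : α = 0 := norm_eq_zero.1 h1
    subst h; subst hα
    have hβ : β ≠ 0 := by rintro rfl; apply hΔ; ring
    have hγβ : γ = β := by linear_combination t0
    subst hγβ
    constructor
    · apply mul_right_cancel₀ hβ; linear_combination t1
    · apply mul_right_cancel₀ hβ; linear_combination t2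

lemma exotic_of_seq {c n : ℕ} [NeZero c] (hc : 4 ≤ c) (ℓ : rootsOfUnity c ℂ → rootsOfUnity n ℂ)
    {y : ℕ → ℂ} (hy : ∀ k < c, ((ℓ (zc c ^ k) : ℂˣ) : ℂ) = y k) (hn : 0 < n)
    (hinj : ∀ i < c, ∀ j < c, y i = y j → i = j) (y0 : y 0 = 1)
    (hrel : ∀ k, 3 ≤ k → k < c → Pool.Agent.Helper99.Exotic.Rel (fun m => e c ^ m) y 0 1 2 k) (hrot : ¬ Rot c y) :
    IsExotic ℓ := by
  have hrel' : ∀ k < c, Pool.Agent.Helper99.Exotic.Rel (fun m => e c ^ m) y 0 1 2 k := by
    intro k hk
    by_cases h3 : 3 ≤ k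
    · exact hrel k h3 hk
    · have : k = 0 ∨ k = 1 ∨ k = 2 := by omega
      rcases this with rfl | rfl | rfl <;> (unfold Pool.Agent.Helper99.Exotic.Rel; ring)
  have hnorm : ∀ k < c, ‖y k‖ = 1 := by
    intro k hk
    rw [← hy k hk]
    exact Complex.norm_eq_one_of_pow_eq_one (coe_pow_eq_one _) hn.ne'
  obtain ⟨α, β, γ, δ, hΔ, hT, hne⟩ := moebius_of_rel (x := fun m => e c ^ m) (y := y) (c := c)
    (by omega) (fun i hi j hj h => (e_prim (by omega)).pow_inj hi hj h) hinj hrel'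
  rw [isExotic_iff]
  refine ⟨?_, α, β, γ, δ, hΔ, ?_, ?_, ?_⟩
  · intro a b hab
    obtain ⟨i, hi, rfl⟩ := exists_pow a
    obtain ⟨j, hj, rfl⟩ := exists_pow b
    have : i = j := by
      apply hinj i hi j hj
      rw [← hy i hi, ← hy j hj, hab]
    rw [this]
  · intro h
    exact hrot (rot_of_degenerate (by omega) y0 hnorm hΔ hT (Or.inl h))
  · intro h
    exact hrot (rot_of_degenerate (by omega) y0 hnorm hΔ hT (Or.inr h))
  · intro ζ
    obtain ⟨k, hk, rfl⟩ := exists_pow ζ
    rw [coe_zc_pow, hy k hk]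
    exact ⟨hne k hk, hT k hk⟩

/-- The embedding data of an exotic embedding. -/
lemma emb_of_exotic {c n : ℕ} [NeZero c] (hc : 4 ≤ c) (hn : 0 < n) (hcn : c ∣ n)
    {ℓ : rootsOfUnity c ℂ → rootsOfUnity n ℂ} (h : IsExotic ℓ) :
    ∃ y : ℕ → ℂ, (∀ k, ((ℓ (zc c ^ k) : ℂˣ) : ℂ) = y k * ((ℓ (zc c ^ 0) : ℂˣ) : ℂ)) ∧
      Emb c y ∧ (∀ k < c, y k ^ n = 1) ∧ ¬ Rot c y ∧ c < 8 := by
  rw [isExotic_iff] at h
  obtain ⟨hinj, α, β, γ, δ, hΔ, hβ, hδ, hT⟩ := h
  set u := ((ℓ (zc c ^ 0) : ℂˣ) : ℂ) with hu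
  have hu0 : u ≠ 0 := coe_ne_zero' _
  have hun : u ^ n = 1 := coe_pow_eq_one _
  set y : ℕ → ℂ := fun k => ((ℓ (zc c ^ k) : ℂˣ) : ℂ) / u with hy
  have hyu : ∀ k, ((ℓ (zc c ^ k) : ℂˣ) : ℂ) = y k * u := by
    intro k; rw [hy]; field_simp
  have hyn : ∀ k, y k ^ n = 1 := by
    intro k
    rw [hy]
    simp only
    rw [div_pow, hun, coe_pow_eq_one, div_one]
  have y0 : y 0 = 1 := by rw [hy]; simp only; rw [← hu, div_self hu0]
  have hyinj : ∀ i < c, ∀ j < c, y i = y j → i = j := by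
    intro i hi j hj hij
    have h1 : ((ℓ (zc c ^ i) : ℂˣ) : ℂ) = ((ℓ (zc c ^ j) : ℂˣ) : ℂ) := by
      rw [hyu, hyu, hij]
    have h2 := hinj (ext_coe h1)
    have h3 : e c ^ i = e c ^ j := by rw [← coe_zc_pow, ← coe_zc_pow, h2]
    exact (e_prim (by omega)).pow_inj hi hj h3
  have hne : ∀ k, γ * e c ^ k + δ ≠ 0 := by
    intro k
    have := (hT (zc c ^ k)).1
    rwa [coe_zc_pow] at this
  have hTy : ∀ k, y k * (γ * e c ^ k + δ) = (α / u) * e c ^ k + β / u := by
    intro k
    have := (hT (zc c ^ k)).2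
    rw [coe_zc_pow, hyu] at this
    field_simp
    linear_combination this
  have hΔ' : (α / u) * δ - (β / u) * γ ≠ 0 := by
    have : (α / u) * δ - (β / u) * γ = (α * δ - β * γ) / u := by ring
    rw [this]
    exact div_ne_zero hΔ hu0
  have hβ' : β / u ≠ 0 := div_ne_zero hβ hu0
  have hnorm : ∀ k < c, ‖y k‖ = 1 := by
    intro k hk
    exact Complex.norm_eq_one_of_pow_eq_one (hyn k) hn.ne'
  refine ⟨y, hyu, ?_, fun k _ => hyn k, ?_, ?_⟩
  · refine ⟨hc, y0, hyinj, ?_⟩
    intro i _ j _ k _ l _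
    exact rel_of_moebius (hne i) (hne j) (hne k) (hne l) (hTy i) (hTy j) (hTy k) (hTy l)
  · -- not a rotation
    rintro (⟨h1, h2⟩ | ⟨h1, h2⟩)
    · have t0 := hTy 0
      have t1 := hTy 1
      have t2 := hTy 2
      rw [y0, pow_zero] at t0
      rw [h1, pow_one] at t1
      rw [h2] at t2
      have hz1 : e c - 1 ≠ 0 := sub_ne_zero.2 ((e_prim (by omega)).ne_one (by omega))
      have hz0 : e c ≠ 0 := (e_prim (by omega)).ne_zero (by omega)
      have hz2 : e c ^ 2 - 1 ≠ 0 :=
        sub_ne_zero.2 ((e_prim (by omega)).pow_ne_one_of_pos_of_lt (by omega) (by omega))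
      apply hβ'
      generalize α / u = A at *
      generalize β / u = B at *
      have f1 : (e c - 1) * (γ * (e c + 1) + (δ - A)) = 0 := by linear_combination t1 - t0
      have f2 : e c * (e c - 1) * (γ * e c * (e c + 1) + (δ - A)) = 0 := by
        linear_combination t2 - t1
      have g1 := (mul_eq_zero.1 f1).resolve_left hz1
      have g2 := (mul_eq_zero.1 f2).resolve_left (mul_ne_zero hz0 hz1)
      have g3 : γ * (e c ^ 2 - 1) = 0 := by linear_combination g2 - g1
      have hγ : γ = 0 := (mul_eq_zero.1 g3).resolve_right hz2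
      rw [hγ] at g1 t0
      linear_combination -t0 + g1
    · have t0 := hTy 0
      have t1 := hTy 1
      have t2 := hTy 2
      rw [y0, pow_zero] at t0
      rw [pow_one] at t1
      have hz1 : e c - 1 ≠ 0 := sub_ne_zero.2 ((e_prim (by omega)).ne_one (by omega))
      have hz0 : e c ≠ 0 := (e_prim (by omega)).ne_zero (by omega)
      have hz2 : e c ^ 2 - 1 ≠ 0 :=
        sub_ne_zero.2 ((e_prim (by omega)).pow_ne_one_of_pos_of_lt (by omega) (by omega))
      apply hδ
      generalize α / u = A at *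
      generalize β / u = B at *
      -- multiply by powers of e c
      have t1' : γ * e c + δ = e c * (A * e c + B) := by
        linear_combination e c * t1 - (γ * e c + δ) * h1
      have t2' : γ * e c ^ 2 + δ = e c ^ 2 * (A * e c ^ 2 + B) := by
        linear_combination e c ^ 2 * t2 - (γ * e c ^ 2 + δ) * h2
      have f1 : (e c - 1) * (A * (e c + 1) + (B - γ)) = 0 := by linear_combination t0 - t1'
      have f2 : e c * (e c - 1) * (A * e c * (e c + 1) + (B - γ)) = 0 := by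
        linear_combination t1' - t2'
      have g1 := (mul_eq_zero.1 f1).resolve_left hz1
      have g2 := (mul_eq_zero.1 f2).resolve_left (mul_ne_zero hz0 hz1)
      have g3 : A * (e c ^ 2 - 1) = 0 := by linear_combination g2 - g1
      have hA : A = 0 := (mul_eq_zero.1 g3).resolve_right hz2
      rw [hA] at g1 t0
      linear_combination t0 + g1
  · by_contra h8
    push Not at h8
    obtain ⟨b, hb⟩ := exists_expo (c := c) hn (fun k _ => hyn k)
    have hec := e_pow hn (show 0 < c by omega) hcn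
    refine no_large h8 hn hcn (e_prim hn) b ?_ hΔ' hβ' hδ ?_ ?_
    · intro i hi j hj hij
      rw [(hb i hi).2, (hb j hj).2] at hij
      exact hyinj i hi j hj hij
    · intro k _
      rw [hec]; exact hne k
    · intro k hk
      rw [hec, (hb k hk).2]; exact hTy k

lemma value_sporadic (j : Fin 6) (k : ℕ) :
    (Code.sporadic j).value k = e (order j) ^ ((exponents j).getD k 0) := by
  rw [e_pow_eq_exp]
  rfl

lemma realizes_iff {c n : ℕ} [NeZero c] (ℓ : rootsOfUnity c ℂ → rootsOfUnity n ℂ) (x : Code) :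
    Realizes ℓ x ↔ ∀ k < c, ((ℓ (zc c ^ k) : ℂˣ) : ℂ) = x.value k := by
  unfold Realizes
  constructor
  · intro h k hk
    exact h k hk _ (by rw [coe_zc_pow, e_pow_eq_exp])
  · intro h k hk ζ hζ
    have : ζ = zc c ^ k := ext_coe (by rw [hζ, coe_zc_pow, e_pow_eq_exp])
    rw [this]
    exact h k hk

lemma exists_map {c n : ℕ} [NeZero c] [NeZero n] (v : ℕ → ℂ) (hv : ∀ k < c, v k ^ n = 1) :
    ∃ ℓ : rootsOfUnity c ℂ → rootsOfUnity n ℂ, ∀ k < c, ((ℓ (zc c ^ k) : ℂˣ) : ℂ) = v k := by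
  have h : ∀ ζ : rootsOfUnity c ℂ, ∃ η : rootsOfUnity n ℂ, ∀ k < c, ζ = zc c ^ k →
      ((η : ℂˣ) : ℂ) = v k := by
    intro ζ
    obtain ⟨i, hi, rfl⟩ := exists_pow ζ
    refine ⟨rootsOfUnity.mkOfPowEq (v i) (hv i hi), ?_⟩
    intro k hk hik
    have h1 : e c ^ i = e c ^ k := by rw [← coe_zc_pow, ← coe_zc_pow, hik]
    have h2 : i = k := (e_prim (NeZero.pos c)).pow_inj hi hk h1
    rw [rootsOfUnity.coe_mkOfPowEq, h2]
  choose ℓ hℓ using h
  exact ⟨ℓ, fun k hk => hℓ _ k hk rfl⟩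

lemma e4_sq : e 4 ^ 2 = -1 := by
  have hz := e_prim (n := 4) (by norm_num)
  have h4 : e 4 ^ 4 = 1 := hz.pow_eq_one
  have hne : e 4 ^ 2 ≠ 1 := hz.pow_ne_one_of_pos_of_lt (by norm_num) (by norm_num)
  have : (e 4 ^ 2 - 1) * (e 4 ^ 2 + 1) = 0 := by linear_combination h4
  rcases mul_eq_zero.1 this with h' | h'
  · exact absurd (sub_eq_zero.1 h') hne
  · linear_combination h'

lemma family_exotic {n : ℕ} (hn : 0 < n) {w : ℂ} (hw : w ^ n = 1) (hw4 : w ^ 4 ≠ 1)
    {ℓ : rootsOfUnity 4 ℂ → rootsOfUnity n ℂ}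
    (hℓ : ∀ k < 4, ((ℓ (zc 4 ^ k) : ℂˣ) : ℂ) = (Code.family w).value k) : IsExotic ℓ := by
  have hw0 : w ≠ 0 := by rintro rfl; rw [zero_pow hn.ne'] at hw; exact zero_ne_one hw
  have v0 : (Code.family w).value 0 = 1 := rfl
  have v1 : (Code.family w).value 1 = w := rfl
  have v2 : (Code.family w).value 2 = w ^ 2 := rfl
  have v3 : (Code.family w).value 3 = -w := rfl
  have z2 := e4_sq
  have z4 : e 4 ^ 4 = 1 := (e_prim (n := 4) (by norm_num)).pow_eq_one
  have a1 : w ≠ 1 := by rintro rfl; exact hw4 (by norm_num)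
  have a2 : w ^ 2 ≠ 1 := fun h => hw4 (by linear_combination (w ^ 2 + 1) * h)
  have a3 : -w ≠ 1 := fun h => hw4 (by linear_combination (-w ^ 3 + w ^ 2 - w + 1) * h)
  have a4 : w ^ 2 ≠ w := fun h => a1 (mul_left_cancel₀ hw0 (by linear_combination h))
  have a5 : w ≠ -w := by
    intro h
    apply hw0
    linear_combination (1 / 2 : ℂ) * h
  have a6 : w ^ 2 ≠ -w := by
    intro h
    apply a3
    apply mul_left_cancel₀ hw0
    linear_combination -h
  apply exotic_of_seq (y := (Code.family w).value) (by norm_num) ℓ hℓ hn ?_ v0 ?_ ?_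
  · intro i hi j hj hij
    interval_cases i <;> interval_cases j <;> simp only [v0, v1, v2, v3] at hij <;>
      first
      | rfl
      | exact absurd hij a1
      | exact absurd hij.symm a1
      | exact absurd hij a2
      | exact absurd hij.symm a2
      | exact absurd hij a3
      | exact absurd hij.symm a3
      | exact absurd hij a4
      | exact absurd hij.symm a4
      | exact absurd hij a5
      | exact absurd hij.symm a5
      | exact absurd hij a6
      | exact absurd hij.symm a6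
  · intro k hk3 hk4
    have : k = 3 := by omega
    subst this
    unfold Pool.Agent.Helper99.Exotic.Rel
    simp only [v0, v1, v2, v3]
    have z3 : e 4 ^ 3 = -e 4 := by linear_combination e 4 * z2
    rw [z3, z2]
    linear_combination (w - w ^ 3) * (-2) * z2
  · rintro (⟨h1, -⟩ | ⟨h1, -⟩)
    · rw [v1] at h1; exact hw4 (by rw [h1, z4])
    · rw [v1] at h1
      apply hw4
      have : (w * e 4) ^ 4 = 1 := by rw [h1, one_pow]
      rw [mul_pow, z4, mul_one] at this
      exact this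

lemma sporadic_general {c N n : ℕ} [NeZero c] (hc : 4 ≤ c) (hN : 0 < N) (hn : 0 < n)
    (hcN : c ∣ N) (B : List ℕ) (hlt : ∀ i < c, B.getD i 0 < N)
    (hinj : ∀ i < c, ∀ j < c, B.getD i 0 = B.getD j 0 → i = j) (hB0 : B.getD 0 0 = 0)
    (hB1 : B.getD 1 0 ≠ N / c) (hB2 : ¬ N ∣ B.getD 1 0 + N / c) (hcN' : N / c < N)
    (hrel : ∀ k, 3 ≤ k → k < c →
      Pool.Agent.Helper99.Exotic.Rel (fun m => e N ^ (N / c * m)) (fun m => e N ^ (B.getD m 0)) 0 1 2 k)
    {ℓ : rootsOfUnity c ℂ → rootsOfUnity n ℂ}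
    (hℓ : ∀ k < c, ((ℓ (zc c ^ k) : ℂˣ) : ℂ) = e N ^ (B.getD k 0)) : IsExotic ℓ := by
  have hec := e_pow hN (show 0 < c by omega) hcN
  apply exotic_of_seq (y := fun m => e N ^ (B.getD m 0)) hc ℓ hℓ hn ?_ (by
    show e N ^ (B.getD 0 0) = 1
    rw [hB0, pow_zero]) ?_ ?_
  · intro i hi j hj hij
    exact hinj i hi j hj ((e_prim hN).pow_inj (hlt i hi) (hlt j hj) hij)
  · intro k hk3 hk
    have h := hrel k hk3 hk
    simp only [pow_mul, hec] at h
    exact h
  · rintro (⟨h1, -⟩ | ⟨h1, -⟩)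
    · rw [← hec] at h1
      exact hB1 ((e_prim hN).pow_inj (hlt 1 (by omega)) hcN' h1)
    · rw [← hec] at h1
      have h1' : e N ^ (B.getD 1 0 + N / c) = 1 := by rw [pow_add]; exact h1
      exact hB2 (((e_prim hN).pow_eq_one_iff_dvd _).1 h1')

lemma sporadic_exotic {n : ℕ} (hn : 0 < n) (j : Fin 6) [NeZero (degree j)]
    {ℓ : rootsOfUnity (degree j) ℂ → rootsOfUnity n ℂ}
    (hℓ : ∀ k < degree j, ((ℓ (zc (degree j) ^ k) : ℂˣ) : ℂ) = (Code.sporadic j).value k) :
    IsExotic ℓ := by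
  simp only [value_sporadic] at hℓ
  have p12 := phi12 (e_prim (n := 12) (by norm_num))
  have p10 := phi10 (e_prim (n := 10) (by norm_num))
  have p30 := phi30 (e_prim (n := 30) (by norm_num))
  fin_cases j
  · refine sporadic_general (c := 4) (N := 12) (by norm_num) (by norm_num) hn (by norm_num)
      [0, 1, 3, 10] (by decide) (by decide) (by decide) (by decide) (by decide) (by decide) ?_ hℓ
    intro k hk3 hk
    have : k = 3 := by omega
    subst this
    exact model0_3 p12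
  · refine sporadic_general (c := 5) (N := 10) (by norm_num) (by norm_num) hn (by norm_num)
      [0, 1, 2, 4, 8] (by decide) (by decide) (by decide) (by decide) (by decide) (by decide) ?_ hℓ
    intro k hk3 hk
    have : k = 3 ∨ k = 4 := by omega
    rcases this with rfl | rfl
    · exact model1_3 p10
    · exact model1_4 p10
  · refine sporadic_general (c := 5) (N := 30) (by norm_num) (by norm_num) hn (by norm_num)
      [0, 1, 2, 5, 27] (by decide) (by decide) (by decide) (by decide) (by decide) (by decide) ?_ hℓ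
    intro k hk3 hk
    have : k = 3 ∨ k = 4 := by omega
    rcases this with rfl | rfl
    · exact model2_3 p30
    · exact model2_4 p30
  · refine sporadic_general (c := 5) (N := 30) (by norm_num) (by norm_num) hn (by norm_num)
      [0, 2, 4, 9, 25] (by decide) (by decide) (by decide) (by decide) (by decide) (by decide) ?_ hℓ
    intro k hk3 hk
    have : k = 3 ∨ k = 4 := by omega
    rcases this with rfl | rfl
    · exact model3_3 p30
    · exact model3_4 p30
  · refine sporadic_general (c := 5) (N := 30) (by norm_num) (by norm_num) hn (by norm_num)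
      [0, 2, 5, 16, 27] (by decide) (by decide) (by decide) (by decide) (by decide) (by decide) ?_ hℓ
    intro k hk3 hk
    have : k = 3 ∨ k = 4 := by omega
    rcases this with rfl | rfl
    · exact model4_3 p30
    · exact model4_4 p30
  · refine sporadic_general (c := 5) (N := 30) (by norm_num) (by norm_num) hn (by norm_num)
      [0, 4, 9, 17, 25] (by decide) (by decide) (by decide) (by decide) (by decide) (by decide) ?_ hℓ
    intro k hk3 hk
    have : k = 3 ∨ k = 4 := by omega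
    rcases this with rfl | rfl
    · exact model5_3 p30
    · exact model5_4 p30

lemma equiv_pos {c n : ℕ} (ℓ : rootsOfUnity c ℂ → rootsOfUnity n ℂ) (ω : rootsOfUnity c ℂ)
    (η : rootsOfUnity n ℂ) : Equivalent ℓ (fun ζ => η * ℓ (ω * ζ)) :=
  (Relation.ReflTransGen.single (Step.mulSource ℓ ω)).tail (Step.mulTarget _ η)

lemma equiv_neg {c n : ℕ} (ℓ : rootsOfUnity c ℂ → rootsOfUnity n ℂ) (ω : rootsOfUnity c ℂ)
    (η : rootsOfUnity n ℂ) : Equivalent ℓ (fun ζ => η * (ℓ (ω * ζ))⁻¹) :=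
  ((Relation.ReflTransGen.single (Step.mulSource ℓ ω)).tail (Step.inv _)).tail
    (Step.mulTarget _ η)

lemma match_realize {c n M : ℕ} [NeZero c] (hM : 0 < M) {B : List ℕ} (hB : B.length = c)
    (hB0 : B.getD 0 0 = 0) {ℓ : rootsOfUnity c ℂ → rootsOfUnity n ℂ} {y : ℕ → ℂ}
    (hyu : ∀ k, ((ℓ (zc c ^ k) : ℂˣ) : ℂ) = y k * ((ℓ (zc c ^ 0) : ℂˣ) : ℂ))
    (h : MatchE M B y) :
    ∃ ℓ' : rootsOfUnity c ℂ → rootsOfUnity n ℂ, Equivalent ℓ ℓ' ∧
      ∀ k < c, ((ℓ' (zc c ^ k) : ℂˣ) : ℂ) = e M ^ (B.getD k 0) := by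
  have hc0 : 0 < c := NeZero.pos c
  set u := ((ℓ (zc c ^ 0) : ℂˣ) : ℂ) with hu
  have hu0 : u ≠ 0 := coe_ne_zero' _
  have hz0 : e M ≠ 0 := (e_prim hM).ne_zero hM.ne'
  obtain ⟨r, hr, h⟩ := h
  rw [hB] at hr h
  set k0 := (c - r) % c with hk0
  have hk0c : k0 < c := Nat.mod_lt _ hc0
  have hsum : ∀ m < c, ((k0 + m) % c + r) % c = m := by
    intro m hm
    rw [hk0, Nat.mod_add_mod, add_assoc, Nat.mod_add_mod,
      show c - r + (m + r) = m + c by omega, Nat.add_mod_right, Nat.mod_eq_of_lt hm]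
  have hval : ∀ m, ((ℓ (zc c ^ k0 * zc c ^ m) : ℂˣ) : ℂ) = y ((k0 + m) % c) * u := by
    intro m
    rw [← pow_add, ← zc_pow_mod, hyu]
  have hk0v : ((ℓ (zc c ^ k0) : ℂˣ) : ℂ) = y k0 * u := hyu k0
  have hsum0 : (k0 + r) % c = 0 := by
    have := hsum 0 hc0
    rwa [add_zero, Nat.mod_eq_of_lt hk0c] at this
  rcases h with h | h
  · refine ⟨fun ζ => (ℓ (zc c ^ k0))⁻¹ * ℓ (zc c ^ k0 * ζ), equiv_pos _ _ _, ?_⟩
    intro m hm
    have e1 := h k0 hk0c
    rw [hsum0, hB0, pow_zero] at e1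
    have e2 := h ((k0 + m) % c) (Nat.mod_lt _ hc0)
    rw [hsum m hm] at e2
    have hy0 : y k0 ≠ 0 := by
      intro h0; rw [h0, zero_mul] at e1; exact zero_ne_one e1
    show (((ℓ (zc c ^ k0))⁻¹ * ℓ (zc c ^ k0 * zc c ^ m) : rootsOfUnity n ℂ) : ℂˣ).val = _
    rw [Subgroup.coe_mul, Units.val_mul, Subgroup.coe_inv, Units.val_inv_eq_inv_val, hval, hk0v,
      ← e2]
    field_simp
    linear_combination (-y ((k0 + m) % c)) * e1
  · refine ⟨fun ζ => ℓ (zc c ^ k0) * (ℓ (zc c ^ k0 * ζ))⁻¹, equiv_neg _ _ _, ?_⟩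
    intro m hm
    have e1 := h k0 hk0c
    rw [hsum0, hB0, pow_zero, mul_one] at e1
    have e2 := h ((k0 + m) % c) (Nat.mod_lt _ hc0)
    rw [hsum m hm] at e2
    have hym : y ((k0 + m) % c) ≠ 0 := by
      intro h0
      rw [h0, zero_mul] at e2
      exact pow_ne_zero _ hz0 e2.symm
    show ((ℓ (zc c ^ k0) * (ℓ (zc c ^ k0 * zc c ^ m))⁻¹ : rootsOfUnity n ℂ) : ℂˣ).val = _
    rw [Subgroup.coe_mul, Units.val_mul, Subgroup.coe_inv, Units.val_inv_eq_inv_val, hval, hk0v,
      e1]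
    field_simp
    linear_combination -e2

lemma order_dvd {N n a : ℕ} (hN : 0 < N) (η : rootsOfUnity n ℂ) (h : ((η : ℂˣ) : ℂ) = e N ^ a) :
    N ∣ a * n := by
  have h1 := coe_pow_eq_one η
  rw [h, ← pow_mul] at h1
  exact ((e_prim hN).pow_eq_one_iff_dvd _).1 h1

lemma e_scale {M N t a : ℕ} (hN : 0 < N) (ht : 0 < t) (hM : M = t * N) :
    e M ^ (t * a) = e N ^ a := by
  rw [pow_mul]
  congr 1
  have := e_pow (n := M) (c := N) (by rw [hM]; positivity) hN (by rw [hM]; exact Dvd.intro_left t rfl)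
  rwa [hM, Nat.mul_div_cancel _ hN, ← hM] at this

/-- Completeness. -/
lemma completeness {c n : ℕ} (hc : 4 ≤ c) (hn : 0 < n) (hcn : c ∣ n)
    (ℓ : rootsOfUnity c ℂ → rootsOfUnity n ℂ) (hℓ : IsExotic ℓ) :
    ∃ x : Code, x.Valid c n ∧ ∃ ℓ', Equivalent ℓ ℓ' ∧ Realizes ℓ' x := by
  have : NeZero c := ⟨by omega⟩
  obtain ⟨y, hyu, hE, hyn, hrot, hc8⟩ := emb_of_exotic hc hn hcn hℓ
  -- sporadic helper
  have key : ∀ (j : Fin 6) (M t : ℕ), c = degree j → 0 < t → M = t * order j →
      (∀ n : ℕ, (∀ k < c, order j ∣ (exponents j).getD k 0 * n) → order j ∣ n) →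
      MatchE M ((exponents j).map (t * ·)) y → (exponents j).length = degree j →
      (exponents j).getD 0 0 = 0 → 0 < order j →
      ∃ x : Code, x.Valid c n ∧ ∃ ℓ', Equivalent ℓ ℓ' ∧ Realizes ℓ' x := by
    intro j M t hcj ht hM hord hmatch hlen hB0 hN
    have hget : ∀ k, ((exponents j).map (t * ·)).getD k 0 = t * (exponents j).getD k 0 := by
      intro k
      rw [List.getD_eq_getElem?_getD, List.getD_eq_getElem?_getD, List.getElem?_map]
      cases (exponents j)[k]? <;> simp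
    have hMpos : 0 < M := by rw [hM]; positivity
    obtain ⟨ℓ', hequiv, hval⟩ := match_realize hMpos (B := (exponents j).map (t * ·))
      (by rw [List.length_map, hlen, hcj]) (by rw [hget, hB0, mul_zero]) hyu hmatch
    have hval' : ∀ k < c, ((ℓ' (zc c ^ k) : ℂˣ) : ℂ) = e (order j) ^ ((exponents j).getD k 0) := by
      intro k hk
      rw [hval k hk, hget, e_scale hN ht hM]
    refine ⟨Code.sporadic j, ⟨hcj, hord n ?_⟩, ℓ', hequiv, ?_⟩
    · intro k hk
      exact order_dvd hN _ (hval' k hk)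
    · rw [realizes_iff]
      intro k hk
      rw [hval' k hk, value_sporadic]
  have hcases : c = 4 ∨ c = 5 ∨ c = 6 ∨ c = 7 := by omega
  rcases hcases with rfl | rfl | rfl | rfl
  · rcases emb4 hE hn hcn hyn with hfam | hm
    · -- family
      have y0 := hE.y0
      have hu0 : ((ℓ (zc 4 ^ 0) : ℂˣ) : ℂ) ≠ 0 := coe_ne_zero' _
      have z2 := e4_sq
      -- the exotic condition for w
      have hw4 : ∀ w : ℂ, w = y 1 ∨ w = -(y 1)⁻¹ → y 1 ^ 4 ≠ 1 → w ^ 4 ≠ 1 := by
        rintro w (rfl | rfl) h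
        · exact h
        · intro h'
          apply h
          rw [neg_pow, inv_pow] at h'
          have : (y 1 ^ 4)⁻¹ = 1 := by rw [← h']; norm_num
          exact inv_eq_one.1 this
      have y14 : y 1 ^ 4 ≠ 1 := by
        intro h4
        have hy1 : y 1 = 1 ∨ y 1 = -1 ∨ y 1 = e 4 ∨ y 1 = -e 4 := by
          have : (y 1 - 1) * ((y 1 + 1) * ((y 1 - e 4) * (y 1 + e 4))) = 0 := by
            linear_combination h4 + (1 - y 1 ^ 2) * z2
          rcases mul_eq_zero.1 this with h | h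
          · left; exact sub_eq_zero.1 h
          rcases mul_eq_zero.1 h with h | h
          · right; left; linear_combination h
          rcases mul_eq_zero.1 h with h | h
          · right; right; left; exact sub_eq_zero.1 h
          · right; right; right; linear_combination h
        have n01 : y 0 ≠ y 1 := fun h => by
          have := hE.hinj 0 (by norm_num) 1 (by norm_num) h; omega
        have n12 : y 1 ≠ y 2 := fun h => by
          have := hE.hinj 1 (by norm_num) 2 (by norm_num) h; omega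
        have n02 : y 0 ≠ y 2 := fun h => by
          have := hE.hinj 0 (by norm_num) 2 (by norm_num) h; omega
        have n03 : y 0 ≠ y 3 := fun h => by
          have := hE.hinj 0 (by norm_num) 3 (by norm_num) h; omega
        have n23 : y 2 ≠ y 3 := fun h => by
          have := hE.hinj 2 (by norm_num) 3 (by norm_num) h; omega
        rw [y0] at n01 n02 n03
        rcases hy1 with h | h | h | h
        · exact n01 h.symm
        · rcases hfam with ⟨f1, f2⟩ | ⟨f1, f2⟩
          · rw [h, neg_neg] at f1; exact n03 f1.symm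
          · rw [y0] at f1; exact n12 (by rw [h, f1])
        · apply hrot
          left
          refine ⟨h, ?_⟩
          rcases hfam with ⟨f1, f2⟩ | ⟨f1, f2⟩
          · rw [y0, one_mul, h] at f2; exact f2
          · rw [f1, y0, z2]
        · apply hrot
          right
          refine ⟨by rw [h]; linear_combination -z2, ?_⟩
          rcases hfam with ⟨f1, f2⟩ | ⟨f1, f2⟩
          · rw [y0, one_mul, h] at f2
            rw [f2]
            linear_combination (e 4 ^ 2 - 1) * z2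
          · rw [f1, y0, z2]; norm_num
      have hy1n : y 1 ≠ 0 := by
        intro h
        have := hyn 1 (by norm_num)
        rw [h, zero_pow hn.ne'] at this
        exact zero_ne_one this
      rcases hfam with ⟨f1, f2⟩ | ⟨f1, f2⟩
      · refine ⟨Code.family (y 1), ⟨rfl, hyn 1 (by norm_num), y14⟩,
          fun ζ => (ℓ (zc 4 ^ 0))⁻¹ * ℓ (zc 4 ^ 0 * ζ), equiv_pos _ _ _, ?_⟩
        rw [realizes_iff]
        intro k hk
        show (((ℓ (zc 4 ^ 0))⁻¹ * ℓ (zc 4 ^ 0 * zc 4 ^ k) : rootsOfUnity n ℂ) : ℂˣ).val = _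
        rw [← pow_add, zero_add, Subgroup.coe_mul, Units.val_mul, Subgroup.coe_inv,
          Units.val_inv_eq_inv_val, hyu k]
        have : (((ℓ (zc 4 ^ 0) : ℂˣ) : ℂ))⁻¹ * (y k * ((ℓ (zc 4 ^ 0) : ℂˣ) : ℂ)) = y k := by
          field_simp
        rw [this]
        interval_cases k
        · exact y0
        · rfl
        · rw [y0, one_mul] at f2; exact f2
        · exact f1
      · have hw : (-(y 1)⁻¹) ^ n = 1 := by
          have h1 := coe_pow_eq_one ((ℓ (zc 4 ^ 1))⁻¹ * ℓ (zc 4 ^ 1 * zc 4 ^ 1))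
          rw [← pow_add, Subgroup.coe_mul, Units.val_mul, Subgroup.coe_inv,
            Units.val_inv_eq_inv_val, hyu (1 + 1), hyu 1, f1, y0] at h1
          have : (y 1 * ((ℓ (zc 4 ^ 0) : ℂˣ) : ℂ))⁻¹ * (-1 * ((ℓ (zc 4 ^ 0) : ℂˣ) : ℂ)) = -(y 1)⁻¹ := by
            field_simp
          rwa [this] at h1
        refine ⟨Code.family (-(y 1)⁻¹), ⟨rfl, hw, hw4 _ (Or.inr rfl) y14⟩,
          fun ζ => (ℓ (zc 4 ^ 1))⁻¹ * ℓ (zc 4 ^ 1 * ζ), equiv_pos _ _ _, ?_⟩
        rw [realizes_iff]
        intro k hk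
        show (((ℓ (zc 4 ^ 1))⁻¹ * ℓ (zc 4 ^ 1 * zc 4 ^ k) : rootsOfUnity n ℂ) : ℂˣ).val = _
        rw [← pow_add, Subgroup.coe_mul, Units.val_mul, Subgroup.coe_inv,
          Units.val_inv_eq_inv_val, hyu (1 + k), hyu 1]
        have : (y 1 * ((ℓ (zc 4 ^ 0) : ℂˣ) : ℂ))⁻¹ * (y (1 + k) * ((ℓ (zc 4 ^ 0) : ℂˣ) : ℂ)) =
            (y 1)⁻¹ * y (1 + k) := by
          field_simp
        rw [this]
        have y4 : y 4 = 1 := by
          have h1 := hyu 4
          have h2 : zc 4 ^ 4 = zc 4 ^ 0 := (zc_pow_mod 4).symm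
          rw [h2] at h1
          apply mul_right_cancel₀ hu0
          rw [one_mul]
          exact h1.symm
        have y3 : y 3 = (y 1)⁻¹ := by
          rw [y0] at f2
          exact eq_inv_of_mul_eq_one_right (by rw [f2]; norm_num)
        interval_cases k
        · show (y 1)⁻¹ * y 1 = 1
          exact inv_mul_cancel₀ hy1n
        · show (y 1)⁻¹ * y 2 = -(y 1)⁻¹
          rw [f1, y0]; ring
        · show (y 1)⁻¹ * y 3 = (-(y 1)⁻¹) ^ 2
          rw [y3]; ring
        · show (y 1)⁻¹ * y 4 = -(-(y 1)⁻¹)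
          rw [y4]; ring
    · exact key 0 60 5 rfl (by norm_num) rfl (fun n h => by simpa [order, exponents] using h 1 (by norm_num)) hm rfl rfl
        (by decide)
  · rcases emb5 hE hn hcn hyn with h | h | h | h | h | h
    · exact absurd h hrot
    · exact key 1 30 3 rfl (by norm_num) rfl (fun n h => by simpa [order, exponents] using h 1 (by norm_num)) h rfl rfl
        (by decide)
    · exact key 2 30 1 rfl (by norm_num) rfl (fun n h => by simpa [order, exponents] using h 1 (by norm_num)) h rfl rfl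
        (by decide)
    · refine key 3 30 1 rfl (by norm_num) rfl (fun n h => ?_) h rfl rfl (by decide)
      have h1 := h 1 (by norm_num)
      have h2 := h 3 (by norm_num)
      simp [order, exponents] at h1 h2 ⊢
      omega
    · refine key 4 30 1 rfl (by norm_num) rfl (fun n h => ?_) h rfl rfl (by decide)
      have h1 := h 1 (by norm_num)
      have h2 := h 2 (by norm_num)
      simp [order, exponents] at h1 h2 ⊢
      omega
    · refine key 5 30 1 rfl (by norm_num) rfl (fun n h => ?_) h rfl rfl (by decide)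
      have h1 := h 1 (by norm_num)
      have h2 := h 2 (by norm_num)
      simp [order, exponents] at h1 h2 ⊢
      omega
  · exact absurd (emb6 hE hn hcn hyn) hrot
  · exact absurd (emb7 hE hn hcn hyn) hrot

lemma equivalent_form {c n : ℕ} {ℓ ℓ' : rootsOfUnity c ℂ → rootsOfUnity n ℂ}
    (h : Equivalent ℓ ℓ') : ∃ (ω : rootsOfUnity c ℂ) (η : rootsOfUnity n ℂ),
      (∀ ζ, ℓ' ζ = η * ℓ (ω * ζ)) ∨ (∀ ζ, ℓ' ζ = η * (ℓ (ω * ζ))⁻¹) := by
  induction h with
  | refl => exact ⟨1, 1, Or.inl fun ζ => by rw [one_mul, one_mul]⟩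
  | tail _ hs ih =>
    obtain ⟨ω, η, h⟩ := ih
    cases hs with
    | mulTarget η' =>
      refine ⟨ω, η' * η, ?_⟩
      rcases h with h | h
      · left; intro ζ; simp only [h ζ, mul_assoc]
      · right; intro ζ; simp only [h ζ, mul_assoc]
    | mulSource ω' =>
      refine ⟨ω * ω', η, ?_⟩
      rcases h with h | h
      · left; intro ζ; simp only [h (ω' * ζ), mul_assoc]
      · right; intro ζ; simp only [h (ω' * ζ), mul_assoc]
    | inv =>
      refine ⟨ω, η⁻¹, ?_⟩
      rcases h with h | h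
      · right; intro ζ; simp only [h ζ, mul_inv]
      · left; intro ζ; simp only [h ζ, mul_inv, inv_inv]

/-- Values form of an equivalence between realizations. -/
lemma equivalent_values {c n : ℕ} [NeZero c] {ℓ ℓ' : rootsOfUnity c ℂ → rootsOfUnity n ℂ}
    {x x' : Code} (hx : Realizes ℓ x) (hx' : Realizes ℓ' x') (h : Equivalent ℓ ℓ') :
    ∃ r < c, ∃ η : ℂ, (∀ k < c, x'.value k = η * x.value ((k + r) % c)) ∨
      (∀ k < c, x'.value k = η * (x.value ((k + r) % c))⁻¹) := by
  rw [realizes_iff] at hx hx'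
  obtain ⟨ω, η, h⟩ := equivalent_form h
  obtain ⟨r, hr, rfl⟩ := exists_pow ω
  have hv : ∀ k, ((ℓ (zc c ^ r * zc c ^ k) : ℂˣ) : ℂ) = x.value ((k + r) % c) := by
    intro k
    rw [← pow_add, ← zc_pow_mod, add_comm r k]
    exact hx _ (Nat.mod_lt _ (NeZero.pos c))
  refine ⟨r, hr, ((η : ℂˣ) : ℂ), ?_⟩
  rcases h with h | h
  · left
    intro k hk
    rw [← hx' k hk, h, Subgroup.coe_mul, Units.val_mul, hv]
  · right
    intro k hk
    rw [← hx' k hk, h, Subgroup.coe_mul, Units.val_mul, Subgroup.coe_inv,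
      Units.val_inv_eq_inv_val, hv]

lemma family_family {w b η : ℂ} {n : ℕ} (hn : 0 < n) (hw : w ^ n = 1) (hw4 : w ^ 4 ≠ 1) {r : ℕ}
    (hr : r < 4)
    (h : (∀ k < 4, (Code.family b).value k = η * (Code.family w).value ((k + r) % 4)) ∨
      (∀ k < 4, (Code.family b).value k = η * ((Code.family w).value ((k + r) % 4))⁻¹)) :
    b = w ∨ b = -w ∨ b = w⁻¹ ∨ b = -w⁻¹ := by
  have hw0 : w ≠ 0 := by rintro rfl; rw [zero_pow hn.ne'] at hw; exact zero_ne_one hw
  have v0 : ∀ w, (Code.family w).value 0 = 1 := fun _ => rfl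
  have v1 : ∀ w, (Code.family w).value 1 = w := fun _ => rfl
  have v2 : ∀ w, (Code.family w).value 2 = w ^ 2 := fun _ => rfl
  have v3 : ∀ w, (Code.family w).value 3 = -w := fun _ => rfl
  rcases h with h | h
  · have h0 := h 0 (by norm_num)
    have h1 := h 1 (by norm_num)
    have h2 := h 2 (by norm_num)
    interval_cases r
    · simp only [Nat.reduceAdd, Nat.reduceMod, v0, v1, v2, v3] at h0 h1 h2
      left
      rw [h1]
      linear_combination -w * h0
    · exfalso
      simp only [Nat.reduceAdd, Nat.reduceMod, v0, v1, v2, v3] at h0 h1 h2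
      apply hw4
      have hb : b = w := by rw [h1]; linear_combination -w * h0
      have hw2 : w ^ 2 = -1 := by rw [hb] at h2; rw [h2]; linear_combination h0
      linear_combination (w ^ 2 - 1) * hw2
    · simp only [Nat.reduceAdd, Nat.reduceMod, v0, v1, v2, v3] at h0 h1 h2
      right; right; right
      rw [h1]
      field_simp
      linear_combination h0
    · exfalso
      simp only [Nat.reduceAdd, Nat.reduceMod, v0, v1, v2, v3] at h0 h1 h2
      apply hw4
      have hb2 : b ^ 2 = -1 := by rw [h2]; linear_combination h0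
      have hbw : b * w = -1 := by rw [h1]; linear_combination h0
      have hw2 : w ^ 2 = -1 := by
        have : b ^ 2 * w ^ 2 = 1 := by rw [← mul_pow, hbw]; norm_num
        rw [hb2] at this
        linear_combination -this
      linear_combination (w ^ 2 - 1) * hw2
  · have h0 := h 0 (by norm_num)
    have h1 := h 1 (by norm_num)
    have h2 := h 2 (by norm_num)
    interval_cases r
    · simp only [Nat.reduceAdd, Nat.reduceMod, v0, v1, v2, v3] at h0 h1 h2
      right; right; left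
      have hη : η = 1 := by rw [h0]; simp
      rw [h1, hη, one_mul]
    · exfalso
      simp only [Nat.reduceAdd, Nat.reduceMod, v0, v1, v2, v3] at h0 h1 h2
      apply hw4
      have hη : η = w := by
        have : w * 1 = w * (η * w⁻¹) := by rw [h0]
        rw [mul_one] at this
        rw [this]; field_simp
      have hb : b * w = 1 := by rw [h1, hη]; field_simp
      have hb2 : b ^ 2 = -1 := by rw [h2, hη]; field_simp
      have hw2 : w ^ 2 = -1 := by
        have : b ^ 2 * w ^ 2 = 1 := by rw [← mul_pow, hb]; norm_num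
        rw [hb2] at this
        linear_combination -this
      linear_combination (w ^ 2 - 1) * hw2
    · simp only [Nat.reduceAdd, Nat.reduceMod, v0, v1, v2, v3] at h0 h1 h2
      right; left
      have hη : η = w ^ 2 := by
        have : w ^ 2 * 1 = w ^ 2 * (η * (w ^ 2)⁻¹) := by rw [h0]
        rw [mul_one] at this
        rw [this]; field_simp
      rw [h1, hη]; field_simp
    · exfalso
      simp only [Nat.reduceAdd, Nat.reduceMod, v0, v1, v2, v3] at h0 h1 h2
      apply hw4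
      have hη : η = -w := by
        have : -w * 1 = -w * (η * (-w)⁻¹) := by rw [h0]
        rw [mul_one] at this
        rw [this]; field_simp
      have hw2 : w ^ 2 = -1 := by
        have hb : b = -w := by rw [h1, hη]; simp
        rw [hb, hη] at h2
        have : w ^ 2 = -w * w⁻¹ := by rw [← h2]; ring
        rw [this]; field_simp
      linear_combination (w ^ 2 - 1) * hw2

lemma matchB_of_values {M : ℕ} (hM : 0 < M) {B b : List ℕ} {r : ℕ} (hr : r < B.length)
    (hb0 : b.getD 0 0 = 0) {η : ℂ} (hlen : 0 < B.length)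
    (h : (∀ k < B.length, e M ^ (b.getD k 0) = η * e M ^ (B.getD ((k + r) % B.length) 0)) ∨
      (∀ k < B.length, e M ^ (b.getD k 0) = η * (e M ^ (B.getD ((k + r) % B.length) 0))⁻¹)) :
    matchB M B b = true := by
  have hz0 : e M ≠ 0 := (e_prim hM).ne_zero hM.ne'
  have hmod : ∀ a b : ℕ, e M ^ a = e M ^ b → a % M = b % M := by
    intro a b hab
    rw [← pow_mod_orderOf (e M) a, ← pow_mod_orderOf (e M) b, ← (e_prim hM).eq_orderOf] at hab
    exact (e_prim hM).pow_inj (Nat.mod_lt _ hM) (Nat.mod_lt _ hM) hab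
  unfold matchB
  rw [List.any_eq_true]
  refine ⟨r, List.mem_range.2 hr, ?_⟩
  rw [Bool.or_eq_true, List.all_eq_true, List.all_eq_true]
  rcases h with h | h
  · left
    intro k hk
    rw [Nat.beq_eq]
    have h0 := h 0 hlen
    have h1 := h k (List.mem_range.1 hk)
    rw [hb0, pow_zero, zero_add, Nat.mod_eq_of_lt hr] at h0
    apply hmod
    rw [pow_add, h1]
    linear_combination (-e M ^ (B.getD ((k + r) % B.length) 0)) * h0
  · right
    intro k hk
    rw [Nat.beq_eq]
    have h0 := h 0 hlen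
    have h1 := h k (List.mem_range.1 hk)
    rw [hb0, pow_zero, zero_add, Nat.mod_eq_of_lt hr] at h0
    apply hmod
    have hη : η = e M ^ (B.getD r 0) := by
      have : e M ^ (B.getD r 0) * 1 = e M ^ (B.getD r 0) * (η * (e M ^ (B.getD r 0))⁻¹) := by
        rw [h0]
      rw [mul_one] at this
      rw [this]; field_simp
    rw [pow_add, h1, hη]
    field_simp

/-- Exponents of the sporadic normal forms of degree five, all with respect to order 30. -/
def exp30 : Fin 6 → List ℕ :=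
  ![[0, 0, 0, 0, 0], [0, 3, 6, 12, 24], [0, 1, 2, 5, 27], [0, 2, 4, 9, 25], [0, 2, 5, 16, 27],
    [0, 4, 9, 17, 25]]

lemma value_exp30 (j : Fin 6) (hj : degree j = 5) (k : ℕ) :
    (Code.sporadic j).value k = e 30 ^ ((exp30 j).getD k 0) := by
  rw [value_sporadic]
  fin_cases j
  · exact absurd hj (by decide)
  · have h := e_scale (M := 30) (N := 10) (t := 3) (a := ([0, 1, 2, 4, 8] : List ℕ).getD k 0)
      (by norm_num) (by norm_num) (by norm_num)
    show e 10 ^ (([0, 1, 2, 4, 8] : List ℕ).getD k 0) = e 30 ^ (([0, 3, 6, 12, 24] : List ℕ).getD k 0)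
    rw [← h]
    congr 1
    by_cases hk : k < 5
    · interval_cases k <;> rfl
    · rw [List.getD_eq_default _ _ (by simpa using hk), List.getD_eq_default _ _ (by simpa using hk)]
  · rfl
  · rfl
  · rfl
  · rfl

lemma matchB_false (i j : Fin 6) (hi : degree i = 5) (hj : degree j = 5)
    (h : matchB 30 (exp30 i) (exp30 j) = true) : i = j := by
  revert i j
  decide +kernel

/-- There are two opposite points whose images are opposite. -/
def Anti {n : ℕ} (ℓ : rootsOfUnity 4 ℂ → rootsOfUnity n ℂ) : Prop :=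
  ∃ ζ, ((ℓ (zc 4 ^ 2 * ζ) : ℂˣ) : ℂ) = -((ℓ ζ : ℂˣ) : ℂ)

lemma anti_equiv {n : ℕ} {ℓ ℓ' : rootsOfUnity 4 ℂ → rootsOfUnity n ℂ} (h : Equivalent ℓ ℓ') :
    Anti ℓ ↔ Anti ℓ' := by
  obtain ⟨ω, η, h⟩ := equivalent_form h
  have hη := coe_ne_zero' η
  have hinv : ∀ a b : ℂ, a⁻¹ = -b⁻¹ ↔ a = -b := by
    intro a b
    rw [← inv_neg, inv_inj]
  rcases h with h | h
  · have key : ∀ ζ, (((ℓ' (zc 4 ^ 2 * ζ) : ℂˣ) : ℂ) = -((ℓ' ζ : ℂˣ) : ℂ)) ↔
        ((ℓ (zc 4 ^ 2 * (ω * ζ)) : ℂˣ) : ℂ) = -((ℓ (ω * ζ) : ℂˣ) : ℂ) := by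
      intro ζ
      rw [h, h, Subgroup.coe_mul, Units.val_mul, Subgroup.coe_mul, Units.val_mul,
        mul_left_comm ω, ← mul_neg]
      exact ⟨fun h' => mul_left_cancel₀ hη h', fun h' => by rw [h']⟩
    constructor
    · rintro ⟨ζ, hζ⟩
      exact ⟨ω⁻¹ * ζ, by rw [key, mul_inv_cancel_left]; exact hζ⟩
    · rintro ⟨ζ, hζ⟩
      exact ⟨ω * ζ, (key ζ).1 hζ⟩
  · have key : ∀ ζ, (((ℓ' (zc 4 ^ 2 * ζ) : ℂˣ) : ℂ) = -((ℓ' ζ : ℂˣ) : ℂ)) ↔
        ((ℓ (zc 4 ^ 2 * (ω * ζ)) : ℂˣ) : ℂ) = -((ℓ (ω * ζ) : ℂˣ) : ℂ) := by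
      intro ζ
      rw [h, h, Subgroup.coe_mul, Units.val_mul, Subgroup.coe_mul, Units.val_mul,
        Subgroup.coe_inv, Subgroup.coe_inv, Units.val_inv_eq_inv_val, Units.val_inv_eq_inv_val,
        mul_left_comm ω, ← mul_neg, ← hinv]
      exact ⟨fun h' => mul_left_cancel₀ hη h', fun h' => by rw [h']⟩
    constructor
    · rintro ⟨ζ, hζ⟩
      exact ⟨ω⁻¹ * ζ, by rw [key, mul_inv_cancel_left]; exact hζ⟩
    · rintro ⟨ζ, hζ⟩
      exact ⟨ω * ζ, (key ζ).1 hζ⟩

lemma anti_family {n : ℕ} {ℓ : rootsOfUnity 4 ℂ → rootsOfUnity n ℂ} {w : ℂ}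
    (h : Realizes ℓ (Code.family w)) : Anti ℓ := by
  rw [realizes_iff] at h
  refine ⟨zc 4 ^ 1, ?_⟩
  rw [← pow_add, h 3 (by norm_num), h 1 (by norm_num)]
  rfl

lemma anti_sporadic {n : ℕ} {ℓ : rootsOfUnity 4 ℂ → rootsOfUnity n ℂ}
    (h : Realizes ℓ (Code.sporadic 0)) : ¬ Anti ℓ := by
  rw [realizes_iff] at h
  rintro ⟨ζ, hζ⟩
  obtain ⟨k, hk, rfl⟩ := exists_pow ζ
  have h6 : e 12 ^ 6 = -1 := by
    have hz := e_prim (n := 12) (by norm_num)
    have h4 : (e 12 ^ 6 - 1) * (e 12 ^ 6 + 1) = 0 := by linear_combination hz.pow_eq_one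
    have hne := hz.pow_ne_one_of_pos_of_lt (l := 6) (by norm_num) (by norm_num)
    rcases mul_eq_zero.1 h4 with h' | h'
    · exact absurd (sub_eq_zero.1 h') hne
    · linear_combination h'
  rw [← pow_add, ← zc_pow_mod, h _ (Nat.mod_lt _ (by norm_num)), h k hk, value_sporadic,
    value_sporadic] at hζ
  have hmod : ∀ a b : ℕ, e 12 ^ a = -e 12 ^ b → a % 12 = (b + 6) % 12 := by
    intro a b hab
    have hab' : e 12 ^ a = e 12 ^ (b + 6) := by rw [pow_add, h6, hab]; ring
    rw [← pow_mod_orderOf (e 12) a, ← pow_mod_orderOf (e 12) (b + 6),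
      ← (e_prim (n := 12) (by norm_num)).eq_orderOf] at hab'
    exact (e_prim (by norm_num)).pow_inj (Nat.mod_lt _ (by norm_num))
      (Nat.mod_lt _ (by norm_num)) hab'
  have := hmod _ _ hζ
  interval_cases k <;> revert this <;> decide

/-- Realizations are unique. -/
lemma realizes_unique {c n : ℕ} [NeZero c] {ℓ ℓ' : rootsOfUnity c ℂ → rootsOfUnity n ℂ} {x : Code}
    (h : Realizes ℓ x) (h' : Realizes ℓ' x) : ℓ = ℓ' := by
  rw [realizes_iff] at h h'
  funext ζ
  obtain ⟨k, hk, rfl⟩ := exists_pow ζ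
  exact ext_coe (by rw [h k hk, h' k hk])

lemma order_pos : ∀ j : Fin 6, 0 < order j := by decide

lemma eq_zero_of_degree : ∀ j : Fin 6, 4 = degree j → j = 0 := by decide

lemma degree_cases : ∀ j : Fin 6, degree j = 4 ∨ degree j = 5 := by decide

lemma exp30_length : ∀ j : Fin 6, (exp30 j).length = 5 := by decide

lemma exp30_zero : ∀ j : Fin 6, (exp30 j).getD 0 0 = 0 := by decide

lemma family_equiv {n : ℕ} {ℓ ℓ' : rootsOfUnity 4 ℂ → rootsOfUnity n ℂ} {w b : ℂ} (hn : 0 < n)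
    (hw : w ^ n = 1) (h : Realizes ℓ (Code.family w)) (h' : Realizes ℓ' (Code.family b))
    (hs : b = w ∨ b = -w ∨ b = w⁻¹ ∨ b = -w⁻¹) : Equivalent ℓ ℓ' := by
  have hw0 : w ≠ 0 := by rintro rfl; rw [zero_pow hn.ne'] at hw; exact zero_ne_one hw
  have g := (realizes_iff _ _).1 h
  have g' := (realizes_iff _ _).1 h'
  have g0 : ((ℓ (zc 4 ^ 0) : ℂˣ) : ℂ) = 1 := g 0 (by norm_num)
  have g1 : ((ℓ (zc 4 ^ 1) : ℂˣ) : ℂ) = w := g 1 (by norm_num)
  have g2 : ((ℓ (zc 4 ^ 2) : ℂˣ) : ℂ) = w ^ 2 := g 2 (by norm_num)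
  have g3 : ((ℓ (zc 4 ^ 3) : ℂˣ) : ℂ) = -w := g 3 (by norm_num)
  have g4 : ((ℓ (zc 4 ^ 4) : ℂˣ) : ℂ) = 1 := by rw [← zc_pow_mod]; exact g0
  have g5 : ((ℓ (zc 4 ^ 5) : ℂˣ) : ℂ) = w := by rw [← zc_pow_mod]; exact g1
  have g0' : ((ℓ' (zc 4 ^ 0) : ℂˣ) : ℂ) = 1 := g' 0 (by norm_num)
  have g1' : ((ℓ' (zc 4 ^ 1) : ℂˣ) : ℂ) = b := g' 1 (by norm_num)
  have g2' : ((ℓ' (zc 4 ^ 2) : ℂˣ) : ℂ) = b ^ 2 := g' 2 (by norm_num)
  have g3' : ((ℓ' (zc 4 ^ 3) : ℂˣ) : ℂ) = -b := g' 3 (by norm_num)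
  rcases hs with rfl | rfl | rfl | rfl
  · rw [realizes_unique h h']
    exact Relation.ReflTransGen.refl
  · have : ℓ' = fun ζ => ℓ (zc 4 ^ 2) * (ℓ (zc 4 ^ 2 * ζ))⁻¹ := by
      funext ζ
      obtain ⟨k, hk, rfl⟩ := exists_pow ζ
      apply ext_coe
      rw [← pow_add, Subgroup.coe_mul, Units.val_mul, Subgroup.coe_inv, Units.val_inv_eq_inv_val,
        g2]
      interval_cases k
      · rw [g0', g2]; field_simp
      · rw [g1', g3]; field_simp
      · rw [g2', g4]; field_simp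
      · rw [g3', g5]; field_simp
    rw [this]
    exact equiv_neg _ _ _
  · have : ℓ' = fun ζ => ℓ (zc 4 ^ 0) * (ℓ (zc 4 ^ 0 * ζ))⁻¹ := by
      funext ζ
      obtain ⟨k, hk, rfl⟩ := exists_pow ζ
      apply ext_coe
      rw [← pow_add, Subgroup.coe_mul, Units.val_mul, Subgroup.coe_inv, Units.val_inv_eq_inv_val,
        g0]
      interval_cases k
      · rw [g0', g0]; simp
      · rw [g1', g1]; simp
      · rw [g2', g2]; simp
      · rw [g3', g3]; simp
    rw [this]
    exact equiv_neg _ _ _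
  · have : ℓ' = fun ζ => (ℓ (zc 4 ^ 2))⁻¹ * ℓ (zc 4 ^ 2 * ζ) := by
      funext ζ
      obtain ⟨k, hk, rfl⟩ := exists_pow ζ
      apply ext_coe
      rw [← pow_add, Subgroup.coe_mul, Units.val_mul, Subgroup.coe_inv, Units.val_inv_eq_inv_val,
        g2]
      interval_cases k
      · rw [g0', g2]; field_simp
      · rw [g1', g3]; field_simp
      · rw [g2', g4]; field_simp
      · rw [g3', g5]; field_simp
    rw [this]
    exact equiv_pos _ _ _

end Aux

/-- Classification of exotic embeddings `μ_c → μ_{cd}` for `c ≥ 4`. -/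
theorem classification (c d : ℕ) (hc : 4 ≤ c) (hd : 1 ≤ d) :
    (∀ x : Code, x.Valid c (c * d) →
      ∃ ℓ : rootsOfUnity c ℂ → rootsOfUnity (c * d) ℂ, Realizes ℓ x ∧ IsExotic ℓ) ∧
    (∀ ℓ : rootsOfUnity c ℂ → rootsOfUnity (c * d) ℂ, IsExotic ℓ →
      ∃ x : Code, x.Valid c (c * d) ∧ ∃ ℓ', Equivalent ℓ ℓ' ∧ Realizes ℓ' x) ∧
    (∀ x x' : Code, x.Valid c (c * d) → x'.Valid c (c * d) →
      ∀ ℓ ℓ' : rootsOfUnity c ℂ → rootsOfUnity (c * d) ℂ, Realizes ℓ x → Realizes ℓ' x' →
        (Equivalent ℓ ℓ' ↔ x.Same x')) := by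
  have hn : 0 < c * d := by positivity
  have hcn : c ∣ c * d := Dvd.intro d rfl
  have : NeZero c := ⟨by omega⟩
  have : NeZero (c * d) := ⟨hn.ne'⟩
  generalize hnn : c * d = n at *
  refine ⟨?_, ?_, ?_⟩
  · rintro (w | j) hx
    · obtain ⟨rfl, hw, hw4⟩ := hx
      have hv : ∀ k < 4, (Code.family w).value k ^ n = 1 := by
        have h2n : (-1 : ℂ) ^ n = 1 := by
          obtain ⟨m, hm⟩ := hcn
          rw [hm, show 4 * m = 2 * (2 * m) by ring, pow_mul]
          norm_num
        intro k hk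
        interval_cases k
        · exact one_pow n
        · exact hw
        · show (w ^ 2) ^ n = 1
          rw [← pow_mul, mul_comm, pow_mul, hw, one_pow]
        · show (-w) ^ n = 1
          rw [neg_pow, hw, h2n, one_mul]
      obtain ⟨ℓ, hℓ⟩ := exists_map (c := 4) (n := n) _ hv
      exact ⟨ℓ, (realizes_iff _ _).2 hℓ, family_exotic hn hw hw4 hℓ⟩
    · obtain ⟨hcj, hord⟩ := hx
      subst hcj
      have hN : 0 < order j := order_pos j
      have hv : ∀ k < degree j, (Code.sporadic j).value k ^ n = 1 := by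
        intro k _
        obtain ⟨m, hm⟩ := hord
        rw [value_sporadic, ← pow_mul, mul_comm, pow_mul, hm, pow_mul,
          (Pool.Agent.Helper99.Exotic.e_prim hN).pow_eq_one, one_pow, one_pow]
      obtain ⟨ℓ, hℓ⟩ := exists_map (c := degree j) (n := n) _ hv
      exact ⟨ℓ, (realizes_iff _ _).2 hℓ, sporadic_exotic hn j hℓ⟩
  · intro ℓ hℓ
    exact completeness hc hn hcn ℓ hℓ
  · rintro (w | j) (b | i) hx hx' ℓ ℓ' hℓ hℓ'
    · obtain ⟨rfl, hw, hw4⟩ := hx
      constructor
      · intro h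
        obtain ⟨r, hr, η, hv⟩ := equivalent_values hℓ hℓ' h
        exact family_family hn hw hw4 hr hv
      · intro h
        exact family_equiv hn hw hℓ hℓ' h
    · obtain ⟨rfl, hw, hw4⟩ := hx
      obtain ⟨hci, -⟩ := hx'
      have hi : i = 0 := eq_zero_of_degree i hci
      subst hi
      constructor
      · intro h
        exact absurd ((anti_equiv h).1 (anti_family hℓ)) (anti_sporadic hℓ')
      · intro h; exact h.elim
    · obtain ⟨hcj, -⟩ := hx
      obtain ⟨rfl, hb, hb4⟩ := hx'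
      have hj : j = 0 := eq_zero_of_degree j hcj
      subst hj
      constructor
      · intro h
        exact absurd ((anti_equiv h).2 (anti_family hℓ')) (anti_sporadic hℓ)
      · intro h; exact h.elim
    · obtain ⟨hcj, -⟩ := hx
      obtain ⟨hci, -⟩ := hx'
      constructor
      · intro h
        show j = i
        by_cases h4 : c = 4
        · rw [h4] at hcj hci
          have hj : j = 0 := eq_zero_of_degree j hcj
          have hi : i = 0 := eq_zero_of_degree i hci
          rw [hj, hi]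
        · have hj5 : degree j = 5 := by
            have := degree_cases j
            omega
          have hi5 : degree i = 5 := by omega
          have hc5 : c = 5 := by omega
          subst hc5
          obtain ⟨r, hr, η, hv⟩ := equivalent_values hℓ hℓ' h
          have hlen : (exp30 j).length = 5 := exp30_length j
          have hb0 : (exp30 i).getD 0 0 = 0 := exp30_zero i
          apply matchB_false j i hj5 hi5
          refine matchB_of_values (by norm_num) (r := r) (by rw [hlen]; exact hr) hb0 (η := η)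
            (by rw [hlen]; norm_num) ?_
          rw [hlen]
          simpa only [value_exp30 j hj5, value_exp30 i hi5] using hv
      · intro h
        have h' : j = i := h
        subst h'
        rw [realizes_unique hℓ hℓ']
        exact Relation.ReflTransGen.refl


end Pool.Agent.Helper99.Exotic
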